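import Mathlib

/-!
Irreducibility tools for polynomials over finite fields of odd characteristic:
Artin-Schreier polynomials, a quadratic substitution, and power substitutions.
-/

open Polynomial IntermediateField

namespace Pool.Agent.H21

universe u

/-- The norm of `s - θ`, for `θ` a power generator, is the minimal polynomial of `θ` at `s`. -/
lemma norm_sub_gen {K S : Type*} [Field K] [CommRing S] [IsDomain S] [Algebra K S]
    (pb : PowerBasis K S) (s : K) :
    Algebra.norm K (algebraMap K S s - pb.gen) = (minpoly K pb.gen).eval s := by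
  classical
  rw [Algebra.norm_eq_matrix_det pb.basis, map_sub, AlgHom.commutes, ← charpoly_leftMulMatrix pb,
    Matrix.eval_charpoly]
  rfl

lemma norm_gen_sub {K : Type u} [Field K] {E : Type u} [Field E] [Algebra K E] (x : E)
    (hx : IsIntegral K x) (s : K) :
    Algebra.norm K (algebraMap K K⟮x⟯ s - AdjoinSimple.gen K x) = (minpoly K x).eval s := by
  have := norm_sub_gen (adjoin.powerBasis hx) s
  rwa [adjoin.powerBasis_gen, minpoly_gen] at this

/-- If `P` is monic irreducible of even degree and `P(0)` is not an `r`-th power (`r` prime),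
then `P(X^r)` is irreducible. -/
lemma irreducible_expand {K : Type u} [Field K] {r : ℕ} (hr : r.Prime) {P : K[X]}
    (hm : P.Monic) (hi : Irreducible P) (he : Even P.natDegree)
    (h0 : ∀ b : K, b ^ r ≠ P.coeff 0) : Irreducible (expand K r P) := by
  rw [expand_eq_comp_X_pow]
  refine irreducible_comp hm (monic_X_pow r) hi ?_
  intro E _ _ x hx
  have hint : IsIntegral K x := by
    rw [← minpoly.ne_zero_iff, hx]
    exact hm.ne_zero
  rw [Polynomial.map_pow, map_X]
  apply X_pow_sub_C_irreducible_of_prime hr
  intro b hb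
  have h1 := norm_gen_sub x hint 0
  rw [map_zero, zero_sub, ← hb, hx, ← coeff_zero_eq_eval_zero] at h1
  have h2 : Algebra.norm K (-b ^ r) = (Algebra.norm K b) ^ r := by
    have : FiniteDimensional K K⟮x⟯ := adjoin.finiteDimensional hint
    rw [← neg_one_mul, map_mul, map_pow]
    have h3 : Algebra.norm K (-1 : K⟮x⟯) = 1 := by
      have := Algebra.norm_algebraMap (S := K⟮x⟯) (-1 : K)
      rw [map_neg, map_one, adjoin.finrank hint, hx, he.neg_one_pow] at this
      exact this
    rw [h3, one_mul]
  rw [h2] at h1
  exact h0 _ h1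

/-- The property preserved by the substitution `X ↦ X^r`. -/
def Lift (K : Type u) [Field K] (r : ℕ) (P : K[X]) : Prop :=
  P.Monic ∧ Irreducible P ∧ Even P.natDegree ∧ ∀ b : K, b ^ r ≠ P.coeff 0

lemma Lift.expand {K : Type u} [Field K] {r : ℕ} (hr : r.Prime) {P : K[X]} (h : Lift K r P) :
    Lift K r (expand K r P) := by
  obtain ⟨hm, hi, he, h0⟩ := h
  refine ⟨hm.expand hr.pos, irreducible_expand hr hm hi he h0, ?_, ?_⟩
  · rw [natDegree_expand]; exact he.mul_right r
  · have : (Polynomial.expand K r P).coeff 0 = P.coeff 0 := by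
      rw [coeff_expand hr.pos]; simp
    rw [this]; exact h0

lemma Lift.expand_pow {K : Type u} [Field K] {r : ℕ} (hr : r.Prime) {P : K[X]} (h : Lift K r P)
    (j : ℕ) : Lift K r (Polynomial.expand K (r ^ j) P) := by
  induction j with
  | zero => simpa using h
  | succ n ih =>
    rw [pow_succ', Polynomial.expand_mul]
    exact ih.expand hr

lemma mem_range_of_pow_card {K L : Type*} [Field K] [Fintype K] [Field L] [Algebra K L]
    {α : L} (h : α ^ Fintype.card K = α) : ∃ a : K, algebraMap K L a = α := by
  classical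
  have hq : 1 < Fintype.card K := Fintype.one_lt_card
  have hdeg := FiniteField.X_pow_card_sub_X_natDegree_eq K hq
  have hmon : (X ^ Fintype.card K - X : K[X]).Monic := by
    apply monic_X_pow_sub
    rw [degree_X]; exact_mod_cast hq
  have h1 : ((X ^ Fintype.card K - X : K[X]).roots.map fun a => X - C a).prod
      = X ^ Fintype.card K - X := by
    apply Polynomial.prod_multiset_X_sub_C_of_monic_of_roots_card_eq hmon
    rw [FiniteField.roots_X_pow_card_sub_X, hdeg]
    rfl
  rw [FiniteField.roots_X_pow_card_sub_X] at h1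
  have h2 := congrArg (aeval α) h1
  simp only [map_sub, map_pow, aeval_X, h, sub_self] at h2
  rw [map_multiset_prod, Multiset.prod_eq_zero_iff, Multiset.map_map, Multiset.mem_map] at h2
  obtain ⟨a, _, ha⟩ := h2
  simp only [Function.comp_apply, map_sub, aeval_X, aeval_C] at ha
  exact ⟨a, (sub_eq_zero.mp ha).symm⟩

/-- The Artin–Schreier polynomial `X^p - X - c`. -/
noncomputable def AS (K : Type u) [Field K] (p : ℕ) (c : K) : K[X] := X ^ p - X - C c

lemma AS_monic (K : Type u) [Field K] {p : ℕ} (hp : 2 ≤ p) (c : K) : (AS K p c).Monic := by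
  unfold AS
  rw [sub_sub]
  apply monic_X_pow_sub
  refine (degree_add_le _ _).trans_lt ?_
  rw [max_lt_iff]
  constructor
  · rw [degree_X]; exact_mod_cast (by omega : 1 < p)
  · refine degree_C_le.trans_lt ?_; exact_mod_cast (by omega : 0 < p)

lemma AS_natDegree (K : Type u) [Field K] {p : ℕ} (hp : 2 ≤ p) (c : K) :
    (AS K p c).natDegree = p := by
  unfold AS
  rw [sub_sub]
  rw [natDegree_sub_eq_left_of_natDegree_lt, natDegree_X_pow]
  rw [natDegree_X_pow]
  refine (natDegree_add_le _ _).trans_lt ?_
  rw [max_lt_iff]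
  constructor
  · rw [natDegree_X]; omega
  · rw [natDegree_C]; omega

/-- Artin–Schreier over a finite field: if `X^p - X - c` has no root then it is irreducible. -/
lemma AS_irreducible (K : Type u) [Field K] [Fintype K] (p : ℕ) [Fact p.Prime] [CharP K p] (c : K)
    (hc : ∀ x : K, x ^ p - x ≠ c) : Irreducible (AS K p c) := by
  have hp : p.Prime := Fact.out
  have hf : (AS K p c).Monic := AS_monic K hp.two_le c
  have hfd := AS_natDegree K hp.two_le c
  have H1 : ¬ IsUnit (AS K p c) := by
    intro h
    have := natDegree_eq_zero_of_isUnit h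
    rw [hfd] at this
    exact hp.ne_zero this
  obtain ⟨g, hg, hgf⟩ := WfDvdMonoid.exists_irreducible_factor H1 hf.ne_zero
  suffices h : p ≤ natDegree g from
    (associated_of_dvd_of_natDegree_le hgf hf.ne_zero (hfd.le.trans h)).irreducible hg
  have := Fact.mk hg
  let L := AdjoinRoot g
  let α : L := AdjoinRoot.root g
  have : FiniteDimensional K L := (AdjoinRoot.powerBasis hg.ne_zero).finite
  have : Finite L := Module.finite_of_finite K
  have : Fintype L := Fintype.ofFinite L
  have : CharP L p := charP_of_injective_algebraMap (algebraMap K L).injective p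
  have : ExpChar L p := inferInstance
  have hα : α ^ p - α = algebraMap K L c := by
    have h1 : aeval α (AS K p c) = 0 := by
      apply aeval_eq_zero_of_dvd_aeval_eq_zero hgf
      exact AdjoinRoot.eval₂_root g
    unfold AS at h1
    simp only [map_sub, map_pow, aeval_X, aeval_C] at h1
    exact sub_eq_zero.mp h1
  obtain ⟨n, hn⟩ : ∃ n : ℕ, Fintype.card K = p ^ n := by
    obtain ⟨n, _, hn⟩ := FiniteField.card K p
    exact ⟨n, hn⟩
  have hiter : ∀ j : ℕ, ∃ t : K, α ^ p ^ j = α + algebraMap K L t := by
    intro j
    induction j with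
    | zero => exact ⟨0, by simp⟩
    | succ j ih =>
      obtain ⟨t, ht⟩ := ih
      refine ⟨c + t ^ p, ?_⟩
      rw [pow_succ, pow_mul, ht, add_pow_expChar, ← map_pow, map_add, ← hα]
      ring
  obtain ⟨t, ht⟩ := hiter n
  rw [← hn] at ht
  have ht0 : t ≠ 0 := by
    rintro rfl
    rw [map_zero, add_zero] at ht
    obtain ⟨x, hx⟩ := mem_range_of_pow_card ht
    apply hc x
    apply (algebraMap K L).injective
    rw [map_sub, map_pow, hx, hα]
  have hpow : ∀ j : ℕ, α ^ (Fintype.card K) ^ j = α + j • algebraMap K L t := by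
    intro j
    induction j with
    | zero => simp
    | succ j ih =>
      rw [pow_succ, pow_mul, ih, hn, add_pow_expChar_pow, ← hn, ht, nsmul_eq_mul, mul_pow,
        ← map_pow, FiniteField.pow_card]
      rw [show ((j : L)) ^ Fintype.card K = (j : L) by
        rw [← map_natCast (algebraMap K L), ← map_pow, FiniteField.pow_card]]
      rw [add_smul, one_smul, nsmul_eq_mul]
      ring
  have hd := hpow (natDegree g)
  have hcardL : Fintype.card L = Fintype.card K ^ natDegree g := by
    rw [Module.card_eq_pow_finrank (K := K), (AdjoinRoot.powerBasis hg.ne_zero).finrank,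
      AdjoinRoot.powerBasis_dim hg.ne_zero]
  rw [← hcardL, FiniteField.pow_card] at hd
  have h3 : (natDegree g) • algebraMap K L t = 0 := by
    have := hd
    exact (left_eq_add.mp this)
  rw [nsmul_eq_mul, mul_eq_zero] at h3
  rcases h3 with h3 | h3
  · have := (CharP.cast_eq_zero_iff L p _).mp h3
    exact Nat.le_of_dvd (natDegree_pos_iff_degree_pos.mpr (Polynomial.degree_pos_of_irreducible hg)) this
  · exact absurd ((map_eq_zero _).mp h3) ht0

/-- If `f` is monic irreducible of odd degree `n`, `f(-(k/2)^2) = -c` with `c` not a square, then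
`f(X^2 + kX)` is irreducible. -/
lemma quad_irreducible {K : Type u} [Field K] {f : K[X]}
    {c k : K} (h2 : (2 : K) ≠ 0)
    (hf : f.Monic) (hi : Irreducible f) (hdeg : Odd f.natDegree)
    (hev : f.eval (-(k / 2) ^ 2) = - c) (hc : ∀ b : K, b ^ 2 ≠ c) :
    Irreducible (f.comp (X ^ 2 + C k * X)) := by
  have hg : (X ^ 2 + C k * X : K[X]).Monic := by
    apply monic_X_pow_add
    refine (degree_C_mul_X_le _).trans_lt ?_
    norm_num
  refine irreducible_comp hf hg hi ?_
  intro E _ _ x hx
  have hint : IsIntegral K x := by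
    rw [← minpoly.ne_zero_iff, hx]
    exact hf.ne_zero
  have : FiniteDimensional K K⟮x⟯ := adjoin.finiteDimensional hint
  -- no root
  have hnr : ∀ y : K⟮x⟯, y ^ 2 + algebraMap K _ k * y ≠ AdjoinSimple.gen K x := by
    intro y hy
    have h1 := norm_gen_sub x hint (-(k / 2) ^ 2)
    have h4 : algebraMap K K⟮x⟯ (-(k / 2) ^ 2) - AdjoinSimple.gen K x
        = algebraMap K K⟮x⟯ (-1) * (y + algebraMap K _ (k / 2)) ^ 2 := by
      rw [← hy]
      have h5 : algebraMap K K⟮x⟯ k = algebraMap K K⟮x⟯ (k / 2) + algebraMap K K⟮x⟯ (k / 2) := by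
        rw [← map_add]
        congr 1
        field_simp
        ring
      rw [h5, map_neg, map_neg, map_pow, map_one]
      ring
    rw [h4, map_mul, map_pow, Algebra.norm_algebraMap, adjoin.finrank hint, hx, hev,
      hdeg.neg_one_pow, neg_one_mul, neg_inj] at h1
    exact hc _ h1
  apply irreducible_of_degree_le_three_of_not_isRoot
  · have : (Polynomial.map (algebraMap K K⟮x⟯) (X ^ 2 + C k * X) -
        C (AdjoinSimple.gen K x)).natDegree = 2 := by
      rw [natDegree_sub_C, natDegree_map]
      compute_degree!
    rw [this]; simp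
  · intro y hy
    apply hnr y
    rw [IsRoot.def] at hy
    simp only [Polynomial.map_add, Polynomial.map_pow, map_X, Polynomial.map_mul, map_C,
      eval_sub, eval_add, eval_pow, eval_X, eval_mul, eval_C] at hy
    exact sub_eq_zero.mp hy

end Pool.Agent.H21
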