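import Mathlib
import Pool.Agent.H90.PNT

/-!
Differences of arithmetic progressions of twin primes: local classification, exact density of the
unobstructed differences, and structure of the exceptional progressions.
-/

open Finset Filter Topology

namespace Pool.Agent.H21.Diff

/-- explicit form of the local condition at `p` -/
def Ok (l b p : ℕ) : Prop :=
  p ∣ b ∨ ∃ j : ℕ, 1 ≤ j ∧ j + l + 1 ≤ p ∧ ((p : ℤ) ∣ j * b - 2 ∨ (p : ℤ) ∣ j * b + 2)

lemma loc_to_ok {l b p : ℕ} (hp : p.Prime) (hl : 2 ≤ l) {a : ℕ}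
    (h : ∀ k < l, ¬ p ∣ a + k * b ∧ ¬ p ∣ a + k * b + 2) : Ok l b p := by
  have := Fact.mk hp
  by_cases hb : p ∣ b
  · exact Or.inl hb
  right
  have hb0 : (b : ZMod p) ≠ 0 := by rwa [Ne, ZMod.natCast_eq_zero_iff]
  set r : ℕ := (-(a : ZMod p) / b).val with hr
  set s : ℕ := (-((a : ZMod p) + 2) / b).val with hs
  have hr1 : (r : ZMod p) * b = -a := by
    rw [hr, ZMod.natCast_zmod_val, div_mul_cancel₀ _ hb0]
  have hs1 : (s : ZMod p) * b = -((a : ZMod p) + 2) := by
    rw [hs, ZMod.natCast_zmod_val, div_mul_cancel₀ _ hb0]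
  have hrp : r < p := ZMod.val_lt _
  have hsp : s < p := ZMod.val_lt _
  have hrl : l ≤ r := by
    by_contra hlt
    push Not at hlt
    apply (h r hlt).1
    rw [← ZMod.natCast_eq_zero_iff]
    push_cast
    rw [hr1]; ring
  have hsl : l ≤ s := by
    by_contra hlt
    push Not at hlt
    apply (h s hlt).2
    rw [← ZMod.natCast_eq_zero_iff]
    push_cast
    rw [hs1]; ring
  have hdiff : ((r : ZMod p) - s) * b = 2 := by
    rw [sub_mul, hr1, hs1]; ring
  have hne : r ≠ s := by
    intro he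
    rw [he, sub_self, zero_mul] at hdiff
    have h2 : ((2 : ℕ) : ZMod p) = 0 := by exact_mod_cast hdiff.symm
    rw [ZMod.natCast_eq_zero_iff] at h2
    have := Nat.le_of_dvd (by norm_num) h2
    omega
  rcases lt_or_gt_of_ne hne with hlt | hlt
  · refine ⟨s - r, by omega, by omega, Or.inr ?_⟩
    rw [← ZMod.intCast_zmod_eq_zero_iff_dvd] 
    push_cast [Nat.cast_sub hlt.le]
    linear_combination -hdiff
  · refine ⟨r - s, by omega, by omega, Or.inl ?_⟩
    rw [← ZMod.intCast_zmod_eq_zero_iff_dvd]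
    push_cast [Nat.cast_sub hlt.le]
    linear_combination hdiff

lemma ok_to_loc {l b p : ℕ} (hp : p.Prime) (hl : 2 ≤ l) (h : Ok l b p) :
    ∃ a : ℕ, ∀ k < l, ¬ p ∣ a + k * b ∧ ¬ p ∣ a + k * b + 2 := by
  have := Fact.mk hp
  rcases h with hb | ⟨j, hj1, hj2, hj⟩
  · by_cases h3 : p = 3
    · subst h3
      refine ⟨2, fun k _ => ?_⟩
      have : 3 ∣ k * b := dvd_mul_of_dvd_right hb k
      omega
    · refine ⟨1, fun k _ => ?_⟩
      have h0 : p ∣ k * b := dvd_mul_of_dvd_right hb k
      constructor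
      · intro hd
        have := (Nat.dvd_add_left h0).mp hd
        exact hp.one_lt.ne' (Nat.dvd_one.mp this)
      · intro hd
        have h1 : p ∣ 3 + k * b := by
          have : 1 + k * b + 2 = 3 + k * b := by ring
          rwa [this] at hd
        have := (Nat.dvd_add_left h0).mp h1
        exact h3 ((Nat.prime_dvd_prime_iff_eq hp Nat.prime_three).mp this)
  · have hpb : ¬ p ∣ b := by
      intro hb
      have hb' : (p : ℤ) ∣ (j : ℤ) * b := dvd_mul_of_dvd_right (by exact_mod_cast hb) _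
      have h2 : (p : ℤ) ∣ 2 := by
        rcases hj with hj | hj
        · have := dvd_sub hb' hj
          simpa using this
        · exact (Int.dvd_add_right hb').mp hj
      have h2' : p ∣ 2 := by exact_mod_cast h2
      have := Nat.le_of_dvd (by norm_num) h2'
      have h3 := hp.two_le
      omega
    -- choose r and s
    obtain ⟨r, s, hr, hs, hrp, hsp, hrs⟩ : ∃ r s : ℕ, l ≤ r ∧ l ≤ s ∧ r < p ∧ s < p ∧
        ((r : ZMod p) - s) * b = 2 := by
      rcases hj with hj | hj
      · refine ⟨l + j, l, by omega, le_rfl, by omega, by omega, ?_⟩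
        rw [← ZMod.intCast_zmod_eq_zero_iff_dvd] at hj
        push_cast at hj ⊢
        linear_combination hj
      · refine ⟨l, l + j, le_rfl, by omega, by omega, by omega, ?_⟩
        rw [← ZMod.intCast_zmod_eq_zero_iff_dvd] at hj
        push_cast at hj ⊢
        linear_combination -hj
    refine ⟨(p - r) * b, fun k hk => ⟨?_, ?_⟩⟩
    · intro hd
      have h1 : (p - r) * b + k * b = (p - r + k) * b := by ring
      rw [h1] at hd
      rcases hp.dvd_mul.mp hd with h | h
      · have := Nat.le_of_dvd (by omega) h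
        omega
      · exact hpb h
    · intro hd
      have h1 : p ∣ (p - s + k) * b := by
        rw [← ZMod.natCast_eq_zero_iff] at hd ⊢
        push_cast [Nat.cast_sub hrp.le, Nat.cast_sub hsp.le] at hd ⊢
        rw [CharP.cast_eq_zero] at hd ⊢
        linear_combination hd + hrs
      rcases hp.dvd_mul.mp h1 with h | h
      · have := Nat.le_of_dvd (by omega) h
        omega
      · exact hpb h

lemma ok_of_large {l b p : ℕ} (hp : p.Prime) (hl : 1 ≤ l) (h : 2 * l < p) : Ok l b p := by
  have := Fact.mk hp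
  by_cases hb : p ∣ b
  · exact Or.inl hb
  right
  have hb0 : (b : ZMod p) ≠ 0 := by rwa [Ne, ZMod.natCast_eq_zero_iff]
  set c : ℕ := ((2 : ZMod p) / b).val with hc
  have hc1 : (c : ZMod p) * b = 2 := by
    rw [hc, ZMod.natCast_zmod_val, div_mul_cancel₀ _ hb0]
  have hcp : c < p := ZMod.val_lt _
  have hc0 : c ≠ 0 := by
    intro h0
    rw [h0, Nat.cast_zero, zero_mul] at hc1
    have h2 : ((2 : ℕ) : ZMod p) = 0 := by exact_mod_cast hc1.symm
    rw [ZMod.natCast_eq_zero_iff] at h2
    have := Nat.le_of_dvd (by norm_num) h2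
    omega
  have hodd : p % 2 = 1 := by
    rcases hp.eq_two_or_odd with h2 | h2
    · omega
    · exact h2
  by_cases hle : 2 * c < p
  · refine ⟨c, by omega, by omega, Or.inl ?_⟩
    rw [← ZMod.intCast_zmod_eq_zero_iff_dvd]
    push_cast
    rw [hc1]; ring
  · refine ⟨p - c, by omega, by omega, Or.inr ?_⟩
    rw [← ZMod.intCast_zmod_eq_zero_iff_dvd]
    push_cast [Nat.cast_sub hcp.le]
    rw [CharP.cast_eq_zero]
    linear_combination -hc1


/-- the residues allowed for the difference modulo `p` -/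
def res (l p : ℕ) : Set (ZMod p) :=
  {β | β = 0 ∨ ∃ j : ℕ, 1 ≤ j ∧ j + l + 1 ≤ p ∧ ((j : ZMod p) * β = 2 ∨ (j : ZMod p) * β = -2)}

lemma ok_iff_res (l b p : ℕ) : Ok l b p ↔ (b : ZMod p) ∈ res l p := by
  unfold Ok res
  rw [Set.mem_ofPred_eq, ZMod.natCast_eq_zero_iff]
  apply or_congr Iff.rfl
  apply exists_congr
  intro j
  apply and_congr Iff.rfl
  apply and_congr Iff.rfl
  rw [← ZMod.intCast_zmod_eq_zero_iff_dvd, ← ZMod.intCast_zmod_eq_zero_iff_dvd]
  push_cast
  rw [sub_eq_zero, add_eq_zero_iff_eq_neg]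

/-- the number of allowed residues -/
def w (l p : ℕ) : ℕ := if p ≤ l then 1 else 2 * (p - l) - 1

open Classical in
lemma card_res {l p : ℕ} (hp : p.Prime) (hl : 2 ≤ l) (hpl : p ≤ 2 * l) :
    Nat.card (res l p) = w l p := by
  have := Fact.mk hp
  unfold w
  split_ifs with h
  · have : res l p = {0} := by
      unfold res
      ext β
      simp only [Set.mem_ofPred_eq, Set.mem_singleton_iff]
      constructor
      · rintro (h0 | ⟨j, h1, h2, _⟩)
        · exact h0
        · omega
      · exact Or.inl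
    rw [this]
    simp
  · push Not at h
    have hp2 : p ≠ 2 := by omega
    have h20 : (2 : ZMod p) ≠ 0 := by
      intro h2
      have h2' : ((2 : ℕ) : ZMod p) = 0 := by exact_mod_cast h2
      rw [ZMod.natCast_eq_zero_iff] at h2'
      have := Nat.le_of_dvd (by norm_num) h2'
      have := hp.two_le
      omega
    -- parametrise by the integers in [-(p-1-l), p-1-l]
    let f : ℤ → ZMod p := fun c => 2 * ((c : ZMod p))⁻¹
    have hinj : Set.InjOn f (Finset.Icc (-((p : ℤ) - 1 - l)) ((p : ℤ) - 1 - l)) := by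
      intro c hc d hd hcd
      simp only [Finset.coe_Icc, Set.mem_Icc] at hc hd
      have h1 : ((c : ZMod p))⁻¹ = ((d : ZMod p))⁻¹ := mul_left_cancel₀ h20 hcd
      have h2 : (c : ZMod p) = d := inv_injective h1
      have h3 : ((c - d : ℤ) : ZMod p) = 0 := by push_cast; rw [h2]; ring
      rw [ZMod.intCast_zmod_eq_zero_iff_dvd] at h3
      have h4 : |c - d| < p := by
        rw [abs_lt]; constructor <;> omega
      have := Int.eq_zero_of_abs_lt_dvd h3 h4
      omega
    have himg : res l p = ((Finset.Icc (-((p : ℤ) - 1 - l)) ((p : ℤ) - 1 - l)).image f : Set (ZMod p)) := by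
      ext β
      simp only [Finset.coe_image, Finset.coe_Icc, Set.mem_image, Set.mem_Icc]
      unfold res
      rw [Set.mem_ofPred_eq]
      constructor
      · rintro (h0 | ⟨j, h1, h2, h3⟩)
        · refine ⟨0, ⟨by omega, by omega⟩, ?_⟩
          simp [f, h0]
        · have hj0 : (j : ZMod p) ≠ 0 := by
            rw [Ne, ZMod.natCast_eq_zero_iff]
            intro hd
            have := Nat.le_of_dvd (by omega) hd
            omega
          rcases h3 with h3 | h3
          · refine ⟨j, ⟨by omega, by omega⟩, ?_⟩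
            simp only [f, Int.cast_natCast]
            rw [← h3]; field_simp
          · refine ⟨-j, ⟨by omega, by omega⟩, ?_⟩
            simp only [f, Int.cast_neg, Int.cast_natCast]
            have : (2 : ZMod p) = -(j * β) := by rw [h3]; ring
            rw [this]; field_simp
      · rintro ⟨c, ⟨hc1, hc2⟩, rfl⟩
        rcases lt_trichotomy c 0 with hc | hc | hc
        · right
          obtain ⟨j, rfl⟩ : ∃ j : ℕ, c = -j := ⟨c.natAbs, by omega⟩
          have hj0 : (j : ZMod p) ≠ 0 := by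
            rw [Ne, ZMod.natCast_eq_zero_iff]
            intro hd
            have := Nat.le_of_dvd (by omega) hd
            omega
          refine ⟨j, by omega, by omega, Or.inr ?_⟩
          simp only [f, Int.cast_neg, Int.cast_natCast]
          rw [inv_neg]; field_simp
        · left
          simp [f, hc]
        · right
          obtain ⟨j, rfl⟩ : ∃ j : ℕ, c = j := ⟨c.natAbs, by omega⟩
          have hj0 : (j : ZMod p) ≠ 0 := by
            rw [Ne, ZMod.natCast_eq_zero_iff]
            intro hd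
            have := Nat.le_of_dvd (by omega) hd
            omega
          refine ⟨j, by omega, by omega, Or.inl ?_⟩
          simp only [f, Int.cast_natCast]
          field_simp
    rw [himg, Nat.card_coe_set_eq, Set.ncard_coe_finset, Finset.card_image_of_injOn hinj,
      Int.card_Icc]
    omega

lemma count_mul {m n : ℕ} (hmn : m.Coprime n) (hm : 0 < m) (hn : 0 < n) (P R : ℕ → Prop)
    [DecidablePred P] [DecidablePred R]
    (hP : ∀ b, P (b % m) ↔ P b) (hR : ∀ b, R (b % n) ↔ R b) :
    #{b ∈ range (m * n) | P b ∧ R b} = #{b ∈ range m | P b} * #{b ∈ range n | R b} := by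
  rw [← card_product]
  apply card_bij (fun b _ => (b % m, b % n))
  · intro b hb
    rw [mem_filter] at hb
    rw [mem_product, mem_filter, mem_filter, mem_range, mem_range]
    exact ⟨⟨Nat.mod_lt _ hm, (hP b).mpr hb.2.1⟩, ⟨Nat.mod_lt _ hn, (hR b).mpr hb.2.2⟩⟩
  · intro b hb b' hb' h
    rw [Prod.mk.injEq] at h
    rw [mem_filter, mem_range] at hb hb'
    have h1 : b ≡ b' [MOD m * n] := (Nat.modEq_and_modEq_iff_modEq_mul hmn).mp ⟨h.1, h.2⟩
    exact Nat.ModEq.eq_of_lt_of_lt h1 hb.1 hb'.1
  · rintro ⟨x, y⟩ hxy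
    rw [mem_product, mem_filter, mem_filter, mem_range, mem_range] at hxy
    obtain ⟨⟨hx, hPx⟩, hy, hRy⟩ := hxy
    simp only at hx hPx hy hRy
    let c := Nat.chineseRemainder hmn x y
    have hc1 : (c : ℕ) ≡ x [MOD m] := c.2.1
    have hc2 : (c : ℕ) ≡ y [MOD n] := c.2.2
    have hcm : (c : ℕ) % m = x := by
      have : (c : ℕ) % m = x % m := hc1
      rw [this, Nat.mod_eq_of_lt hx]
    have hcn : (c : ℕ) % n = y := by
      have : (c : ℕ) % n = y % n := hc2
      rw [this, Nat.mod_eq_of_lt hy]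
    refine ⟨c, ?_, ?_⟩
    · rw [mem_filter, mem_range]
      refine ⟨Nat.chineseRemainder_lt_mul hmn x y hm.ne' hn.ne', ?_, ?_⟩
      · rw [← hP, hcm]; exact hPx
      · rw [← hR, hcn]; exact hRy
    · rw [hcm, hcn]

open Classical in
lemma count_zmod {q : ℕ} (hq : 0 < q) (A : Set (ZMod q)) :
    #{b ∈ range q | ((b : ℕ) : ZMod q) ∈ A} = Nat.card A := by
  have : NeZero q := ⟨hq.ne'⟩
  rw [Nat.card_coe_set_eq, Set.ncard_eq_toFinset_card' A]
  apply card_bij (fun (b : ℕ) _ => (b : ZMod q))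
  · intro b hb
    rw [mem_filter] at hb
    rw [Set.mem_toFinset]
    exact hb.2
  · intro b hb b' hb' h
    rw [mem_filter, mem_range] at hb hb'
    rw [ZMod.natCast_eq_natCast_iff] at h
    exact Nat.ModEq.eq_of_lt_of_lt h hb.1 hb'.1
  · intro x hx
    rw [Set.mem_toFinset] at hx
    refine ⟨x.val, ?_, ZMod.natCast_zmod_val x⟩
    rw [mem_filter, mem_range, ZMod.natCast_zmod_val]
    exact ⟨ZMod.val_lt x, hx⟩

open Classical in
lemma count_crt (S : Finset ℕ) (hS : ∀ p ∈ S, p.Prime) (A : ∀ p : ℕ, Set (ZMod p)) :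
    #{b ∈ range (∏ p ∈ S, p) | ∀ p ∈ S, ((b : ℕ) : ZMod p) ∈ A p} = ∏ p ∈ S, Nat.card (A p) := by
  induction S using Finset.induction_on with
  | empty => simp
  | insert q S hq ih =>
    have hS' : ∀ p ∈ S, p.Prime := fun p hp => hS p (mem_insert_of_mem hp)
    have hqp : q.Prime := hS q (mem_insert_self q S)
    rw [prod_insert hq, prod_insert hq, ← ih hS', ← count_zmod hqp.pos (A q)]
    have hcop : q.Coprime (∏ p ∈ S, p) := by
      apply Nat.Coprime.prod_right
      intro p hp
      rw [Nat.coprime_primes hqp (hS' p hp)]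
      rintro rfl
      exact hq hp
    have hpos : 0 < ∏ p ∈ S, p := prod_pos (fun p hp => (hS' p hp).pos)
    rw [← count_mul hcop hqp.pos hpos (fun b => (b : ZMod q) ∈ A q)
      (fun b => ∀ p ∈ S, (b : ZMod p) ∈ A p)]
    · apply congrArg
      ext b
      rw [mem_filter, mem_filter, forall_mem_insert]
    · intro b
      rw [ZMod.natCast_mod]
    · intro b
      apply forall₂_congr
      intro p hp
      have : ((b % (∏ p ∈ S, p) : ℕ) : ZMod p) = (b : ZMod p) := by
        rw [ZMod.natCast_eq_natCast_iff]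
        exact (Nat.mod_modEq b _).of_dvd (dvd_prod_of_mem (fun p => p) hp)
      rw [this]

lemma count_period {Q : ℕ} (P : ℕ → Prop) [DecidablePred P] (hP : ∀ b, P (Q + b) ↔ P b) (n r : ℕ) :
    Nat.count P (Q * n + r) = n * Nat.count P Q + Nat.count P r := by
  induction n with
  | zero => simp
  | succ n ih =>
    have h1 : Q * (n + 1) + r = Q + (Q * n + r) := by ring
    rw [h1, Nat.count_add]
    have h2 : (fun k => P (Q + k)) = P := by
      ext k; exact hP k
    simp only [h2] 
    rw [ih]; ring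

lemma tendsto_count {Q : ℕ} (hQ : 0 < Q) (P : ℕ → Prop) [DecidablePred P]
    (hP : ∀ b, P (Q + b) ↔ P b) :
    Tendsto (fun x : ℕ => (#{b ∈ Icc 1 x | P b} : ℝ) / x) atTop
      (𝓝 ((#{b ∈ range Q | P b} : ℝ) / Q)) := by
  have hcount : ∀ x, Nat.count P x = #{b ∈ range x | P b} := fun x => Nat.count_eq_card_filter_range P x
  set C : ℕ := #{b ∈ range Q | P b} with hC
  have hQr : (0 : ℝ) < Q := by exact_mod_cast hQ
  have hbound : ∀ x : ℕ, |(#{b ∈ Icc 1 x | P b} : ℝ) - C / Q * x| ≤ 2 * Q + 1 := by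
    intro x
    have h1 : #{b ∈ range x | P b} ≤ #{b ∈ Icc 1 x | P b} + 1 := by
      have : ({b ∈ range x | P b} : Finset ℕ) ⊆ insert 0 ({b ∈ Icc 1 x | P b} : Finset ℕ) := by
        intro b hb
        rw [mem_filter, mem_range] at hb
        rw [mem_insert, mem_filter, mem_Icc]
        by_cases h0 : b = 0
        · exact Or.inl h0
        · exact Or.inr ⟨⟨by omega, by omega⟩, hb.2⟩
      exact (card_le_card this).trans (card_insert_le _ _)
    have h2 : #{b ∈ Icc 1 x | P b} ≤ #{b ∈ range x | P b} + 1 := by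
      have : ({b ∈ Icc 1 x | P b} : Finset ℕ) ⊆ insert x ({b ∈ range x | P b} : Finset ℕ) := by
        intro b hb
        rw [mem_filter, mem_Icc] at hb
        rw [mem_insert, mem_filter, mem_range]
        by_cases h0 : b = x
        · exact Or.inl h0
        · exact Or.inr ⟨by omega, hb.2⟩
      exact (card_le_card this).trans (card_insert_le _ _)
    have h3 : #{b ∈ range x | P b} = (x / Q) * C + #{b ∈ range (x % Q) | P b} := by
      rw [← hcount, ← hcount, hC, ← hcount]
      conv_lhs => rw [← Nat.div_add_mod x Q]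
      exact count_period P hP _ _
    have h4 : #{b ∈ range (x % Q) | P b} ≤ Q := by
      refine (card_filter_le _ _).trans ?_
      rw [card_range]
      exact (Nat.mod_lt _ hQ).le
    have hCQ : C ≤ Q := by
      rw [hC]
      refine (card_filter_le _ _).trans ?_
      rw [card_range]
    have h5 : (x : ℝ) = Q * (x / Q : ℕ) + (x % Q : ℕ) := by
      exact_mod_cast (Nat.div_add_mod x Q).symm
    have h6 : ((x % Q : ℕ) : ℝ) ≤ Q := by exact_mod_cast (Nat.mod_lt x hQ).le
    have h60 : (0 : ℝ) ≤ ((x % Q : ℕ) : ℝ) := by positivity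
    have h7 : (C : ℝ) / Q * x = (x / Q : ℕ) * C + C / Q * (x % Q : ℕ) := by
      rw [h5]
      have : (((Q : ℝ) * (x / Q : ℕ) + (x % Q : ℕ) : ℝ)) = Q * (x / Q : ℕ) + (x % Q : ℕ) := rfl
      field_simp
    have h8 : (C : ℝ) / Q * (x % Q : ℕ) ≤ Q := by
      have hc1 : (C : ℝ) / Q ≤ 1 := by
        rw [div_le_one hQr]; exact_mod_cast hCQ
      calc (C : ℝ) / Q * (x % Q : ℕ) ≤ 1 * Q := by
            apply mul_le_mul hc1 h6 h60 zero_le_one
        _ = Q := one_mul _
    have h80 : (0 : ℝ) ≤ (C : ℝ) / Q * (x % Q : ℕ) := by positivity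
    have h1' : (#{b ∈ range x | P b} : ℝ) ≤ #{b ∈ Icc 1 x | P b} + 1 := by exact_mod_cast h1
    have h2' : (#{b ∈ Icc 1 x | P b} : ℝ) ≤ #{b ∈ range x | P b} + 1 := by exact_mod_cast h2
    have h3' : (#{b ∈ range x | P b} : ℝ) = (x / Q : ℕ) * C + #{b ∈ range (x % Q) | P b} := by
      exact_mod_cast h3
    have h4' : (#{b ∈ range (x % Q) | P b} : ℝ) ≤ Q := by exact_mod_cast h4
    have h40 : (0 : ℝ) ≤ (#{b ∈ range (x % Q) | P b} : ℝ) := by positivity
    rw [h7, abs_le]
    constructor <;> nlinarith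
  rw [tendsto_iff_norm_sub_tendsto_zero]
  have hlim : Tendsto (fun x : ℕ => (2 * (Q : ℝ) + 1) / x) atTop (𝓝 0) :=
    tendsto_const_div_atTop_nhds_zero_nat _
  apply squeeze_zero' (Eventually.of_forall fun x => norm_nonneg _) _ hlim
  filter_upwards [eventually_gt_atTop 0] with x hx
  have hx' : (0 : ℝ) < x := by exact_mod_cast hx
  rw [Real.norm_eq_abs]
  have : (#{b ∈ Icc 1 x | P b} : ℝ) / x - C / Q
      = ((#{b ∈ Icc 1 x | P b} : ℝ) - C / Q * x) / x := by
    field_simp
  rw [this, abs_div, abs_of_pos hx']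
  gcongr
  exact hbound x

/-- every member of the progression is a prime whose successor by two is prime -/
def AP (l a b : ℕ) : Prop :=
  0 < b ∧ ∀ k < l, (a + k * b).Prime ∧ (a + k * b + 2).Prime

lemma AP.not_dvd_two {l a b : ℕ} (hl : 3 ≤ l) (h : AP l a b) : ¬ b ∣ 2 := by
  intro hb2
  have hle := Nat.le_of_dvd (by norm_num) hb2
  have h0 := h.2 0 (by omega)
  have h1 := h.2 1 (by omega)
  have h2 := h.2 2 (by omega)
  simp only [zero_mul, add_zero, one_mul] at h0 h1
  have hb : b = 1 ∨ b = 2 := by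
    have := h.1
    omega
  rcases hb with rfl | rfl
  · rcases Nat.even_or_odd a with he | ho
    · have ha : a = 2 := (Nat.Prime.even_iff h0.1).mp he
      subst ha
      exact absurd h0.2 (by norm_num)
    · have he : Even (a + 1) := ho.add_one
      have ha : a + 1 = 2 := (Nat.Prime.even_iff h1.1).mp he
      have : a = 1 := by omega
      subst this
      exact absurd h0.1 (by norm_num)
  · have hp3 : Nat.Prime 3 := Nat.prime_three
    have hmod : a % 3 = 0 ∨ a % 3 = 1 ∨ a % 3 = 2 := by omega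
    rcases hmod with hm | hm | hm
    · have hd : 3 ∣ a := Nat.dvd_of_mod_eq_zero hm
      have ha : 3 = a := (Nat.prime_dvd_prime_iff_eq hp3 h0.1).mp hd
      subst ha
      exact absurd h2.2 (by norm_num)
    · have hd : 3 ∣ a + 2 := by omega
      have ha : 3 = a + 2 := (Nat.prime_dvd_prime_iff_eq hp3 h1.1).mp hd
      have : a = 1 := by omega
      subst this
      exact absurd h0.1 (by norm_num)
    · have hd : 3 ∣ a + 2 * 2 := by omega
      have ha : 3 = a + 2 * 2 := (Nat.prime_dvd_prime_iff_eq hp3 h2.1).mp hd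
      omega

lemma exists_dvd {p b : ℕ} (hp : p.Prime) (hb : ¬ p ∣ b) (a : ℕ) : ∃ k < p, p ∣ a + k * b := by
  have := Fact.mk hp
  have hb0 : (b : ZMod p) ≠ 0 := by rwa [Ne, ZMod.natCast_eq_zero_iff]
  refine ⟨(-(a : ZMod p) / b).val, ZMod.val_lt _, ?_⟩
  rw [← ZMod.natCast_eq_zero_iff]
  push_cast
  rw [ZMod.natCast_zmod_val, div_mul_cancel₀ _ hb0]
  ring

/-- two terms cannot both be equal to `p` -/
lemma AP.no_two {l a b : ℕ} (hl : 3 ≤ l) (h : AP l a b) {p k k' : ℕ} (h1 : a + k * b = p)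
    (h2 : a + k' * b + 2 = p) : False := by
  apply h.not_dvd_two hl
  have hk : k' ≤ k := by
    by_contra hlt
    push Not at hlt
    have : k * b ≤ k' * b := Nat.mul_le_mul_right b hlt.le
    omega
  refine ⟨k - k', ?_⟩
  have : (k - k') * b = k * b - k' * b := Nat.sub_mul _ _ _
  rw [mul_comm, this]
  omega

lemma AP.dvd_diff {l a b : ℕ} (hl : 3 ≤ l) (h : AP l a b) {p : ℕ} (hp : p.Prime) (hpl : p ≤ l) :
    p ∣ b := by
  by_contra hb
  obtain ⟨k, hk, hkd⟩ := exists_dvd hp hb a
  obtain ⟨k', hk', hkd'⟩ := exists_dvd hp hb (a + 2)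
  have h1 : p = a + k * b := (Nat.prime_dvd_prime_iff_eq hp (h.2 k (by omega)).1).mp hkd
  have hkd2 : p ∣ a + k' * b + 2 := by
    have : a + 2 + k' * b = a + k' * b + 2 := by ring
    rwa [this] at hkd'
  have h2 : p = a + k' * b + 2 := (Nat.prime_dvd_prime_iff_eq hp (h.2 k' (by omega)).2).mp hkd2
  exact h.no_two hl h1.symm h2.symm

lemma AP.start {l a b : ℕ} (hl : 3 ≤ l) (h : AP l a b) : l + 1 ≤ a := by
  by_contra hlt
  push Not at hlt
  have h0 := h.2 0 (by omega)
  have h1 := h.2 1 (by omega)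
  simp only [zero_mul, add_zero, one_mul] at h0 h1
  have hd : a ∣ b := h.dvd_diff hl h0.1 (by omega)
  have hd' : a ∣ a + b := (Nat.dvd_add_right (dvd_refl a)).mpr hd
  have := (Nat.prime_dvd_prime_iff_eq h0.1 h1.1).mp hd'
  have := h.1
  omega

lemma AP.succ_prime {l a b : ℕ} (hl : 3 ≤ l) (h : AP l a b) (hp : (l + 1).Prime)
    (hb : ¬ (l + 1) ∣ b) : a = l + 1 ∧ b % (l + 1) = 2 := by
  have hst := h.start hl
  obtain ⟨k, hk, hkd⟩ := exists_dvd hp hb a
  obtain ⟨k', hk', hkd'⟩ := exists_dvd hp hb (a + 2)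
  have hkd2 : (l + 1) ∣ a + k' * b + 2 := by
    have : a + 2 + k' * b = a + k' * b + 2 := by ring
    rwa [this] at hkd'
  have hk'l : k' = l := by
    by_contra hne
    have h2 : l + 1 = a + k' * b + 2 :=
      (Nat.prime_dvd_prime_iff_eq hp (h.2 k' (by omega)).2).mp hkd2
    omega
  have hkl : k < l := by
    by_contra hge
    have hk1 : k = l := by omega
    rw [hk1] at hkd
    rw [hk'l] at hkd2
    have := (Nat.dvd_add_right hkd).mp hkd2
    have := Nat.le_of_dvd (by norm_num) this
    omega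
  have h1 : l + 1 = a + k * b := (Nat.prime_dvd_prime_iff_eq hp (h.2 k hkl).1).mp hkd
  have ha : a = l + 1 := by omega
  refine ⟨ha, ?_⟩
  rw [hk'l, ha] at hkd2
  -- l + 1 ∣ l + 1 + l * b + 2
  have h3 : (l + 1) ∣ l * b + 2 := by
    have h4 : l + 1 + l * b + 2 = (l + 1) + (l * b + 2) := by ring
    rw [h4] at hkd2
    exact (Nat.dvd_add_right (dvd_refl _)).mp hkd2
  have h5 : b ≡ 2 [MOD (l + 1)] := by
    have h6 : b + (l * b) ≡ 0 [MOD (l + 1)] := by
      have : b + l * b = (l + 1) * b := by ring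
      rw [this]
      exact (Nat.modEq_zero_iff_dvd).mpr (dvd_mul_right _ _)
    have h7 : 2 + l * b ≡ 0 [MOD (l + 1)] := by
      rw [add_comm 2]
      exact (Nat.modEq_zero_iff_dvd).mpr h3
    exact Nat.ModEq.add_right_cancel' (l * b) (h6.trans h7.symm)
  rw [h5]
  exact Nat.mod_eq_of_lt (by omega)

lemma tendsto_pi_div : Tendsto (fun n : ℕ => (Nat.primeCounting n : ℝ) / n) atTop (𝓝 0) := by
  have h1 := Chebyshev.eventually_primeCounting_le (ε := 1) one_pos
  have h2 : Tendsto (fun n : ℕ => (n : ℝ)) atTop atTop := tendsto_natCast_atTop_atTop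
  have h3 := h2.eventually h1
  have hlim : Tendsto (fun n : ℕ => (Real.log 4 + 1) / Real.log (n : ℝ)) atTop (𝓝 0) :=
    (Tendsto.div_atTop tendsto_const_nhds (Real.tendsto_log_atTop.comp h2))
  apply squeeze_zero' (Eventually.of_forall fun n => by positivity) _ hlim
  filter_upwards [h3, eventually_gt_atTop 1] with n hn hn1
  rw [Nat.floor_natCast] at hn
  have hn0 : (0 : ℝ) < n := by exact_mod_cast (by omega : 0 < n)
  have hlog : 0 < Real.log n := Real.log_pos (by exact_mod_cast hn1)
  rw [div_le_div_iff₀ hn0 hlog]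
  rw [le_div_iff₀ hlog] at hn
  linarith

lemma tendsto_exc (A : ℕ) (P : ℕ → Prop) [DecidablePred P]
    (hP : ∀ b, P b → ∃ a ≤ A, (a + b).Prime) :
    Tendsto (fun x : ℕ => (#{b ∈ Icc 1 x | P b} : ℝ) / x) atTop (𝓝 0) := by
  have hb : ∀ x : ℕ, (#{b ∈ Icc 1 x | P b} : ℝ) ≤ (A + 1) * (Nat.primeCounting x + A) := by
    intro x
    have h1 : ({b ∈ Icc 1 x | P b} : Finset ℕ) ⊆
        (range (A + 1)).biUnion (fun a => {b ∈ Icc 1 x | (a + b).Prime}) := by
      intro b hb
      rw [mem_filter] at hb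
      obtain ⟨a, ha, hp⟩ := hP b hb.2
      rw [mem_biUnion]
      exact ⟨a, mem_range.mpr (by omega), mem_filter.mpr ⟨hb.1, hp⟩⟩
    have h2 : ∀ a ∈ range (A + 1), #{b ∈ Icc 1 x | (a + b).Prime} ≤ Nat.primeCounting x + A := by
      intro a ha
      rw [mem_range] at ha
      have h3 : #{b ∈ Icc 1 x | (a + b).Prime} ≤ #(Nat.primesBelow (x + A + 1)) := by
        apply card_le_card_of_injOn (fun b => a + b)
        · intro b hb
          rw [mem_coe, mem_filter, mem_Icc] at hb
          rw [mem_coe, Nat.mem_primesBelow]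
          exact ⟨by simp only; omega, hb.2⟩
        · intro b _ b' _ h
          simpa using h
      have h4 : #(Nat.primesBelow (x + A + 1)) ≤ Nat.primeCounting x + A := by
        have : Nat.primesBelow (x + A + 1) ⊆ Nat.primesBelow (x + 1) ∪ Ico (x + 1) (x + A + 1) := by
          intro p hp
          rw [Nat.mem_primesBelow] at hp
          rw [mem_union, Nat.mem_primesBelow, mem_Ico]
          by_cases h : p < x + 1
          · exact Or.inl ⟨h, hp.2⟩
          · exact Or.inr ⟨by omega, hp.1⟩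
        refine (card_le_card this).trans ((card_union_le _ _).trans ?_)
        rw [Nat.card_Ico, Nat.primesBelow_card_eq_primeCounting']
        have : Nat.primeCounting' (x + 1) = Nat.primeCounting x := rfl
        omega
      exact h3.trans h4
    have h5 : #{b ∈ Icc 1 x | P b} ≤ (A + 1) * (Nat.primeCounting x + A) := by
      refine (card_le_card h1).trans (card_biUnion_le.trans ?_)
      refine (sum_le_sum h2).trans ?_
      rw [sum_const, card_range, smul_eq_mul]
    exact_mod_cast h5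
  have hlim : Tendsto (fun x : ℕ => ((A : ℝ) + 1) * ((Nat.primeCounting x : ℝ) / x + A / x)) atTop
      (𝓝 0) := by
    have h1 := (tendsto_pi_div.add (tendsto_const_div_atTop_nhds_zero_nat (A : ℝ))).const_mul
      ((A : ℝ) + 1)
    simpa using h1
  apply squeeze_zero' (Eventually.of_forall fun n => by positivity) _ hlim
  filter_upwards [eventually_gt_atTop 0] with x hx
  have hx' : (0 : ℝ) < x := by exact_mod_cast hx
  rw [← add_div, mul_div_assoc']
  gcongr
  exact hb x

/-- the density -/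
noncomputable def delta (l : ℕ) : ℝ := ∏ p ∈ (range (2 * l + 1)).filter Nat.Prime, (w l p : ℝ) / p

lemma w_pos {l p : ℕ} : 0 < w l p := by
  unfold w; split_ifs <;> omega

lemma log_delta (l : ℕ) : Real.log (delta l) =
    - (Chebyshev.theta l) - ∑ p ∈ (range (2 * l + 1)).filter (fun p => p.Prime ∧ l < p),
      Real.log (p / (2 * (p - l) - 1 : ℕ)) := by
  unfold delta
  rw [Real.log_prod]
  · have hsplit : (range (2 * l + 1)).filter Nat.Prime =
        (range (l + 1)).filter Nat.Prime ∪ (range (2 * l + 1)).filter (fun p => p.Prime ∧ l < p) := by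
      ext p
      simp only [mem_filter, mem_range, mem_union]
      constructor
      · rintro ⟨h1, h2⟩
        by_cases h : p ≤ l
        · exact Or.inl ⟨by omega, h2⟩
        · exact Or.inr ⟨h1, h2, by omega⟩
      · rintro (⟨h1, h2⟩ | ⟨h1, h2, h3⟩)
        · exact ⟨by omega, h2⟩
        · exact ⟨h1, h2⟩
    have hdisj : Disjoint ((range (l + 1)).filter Nat.Prime)
        ((range (2 * l + 1)).filter (fun p => p.Prime ∧ l < p)) := by
      rw [disjoint_left]
      intro p hp hp'
      simp only [mem_filter, mem_range] at hp hp'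
      omega
    rw [hsplit, sum_union hdisj]
    have h1 : ∑ p ∈ (range (l + 1)).filter Nat.Prime, Real.log ((w l p : ℝ) / p)
        = - (Chebyshev.theta l) := by
      rw [Chebyshev.theta_eq_sum_primesLE_log, ← sum_neg_distrib]
      apply sum_congr
      · ext p
        simp [Nat.mem_primesLE]
      · intro p hp
        rw [Nat.mem_primesLE] at hp
        unfold w
        rw [if_pos (by omega)]
        rw [Nat.cast_one, one_div, Real.log_inv]
    have h2 : ∑ p ∈ (range (2 * l + 1)).filter (fun p => p.Prime ∧ l < p), Real.log ((w l p : ℝ) / p)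
        = - ∑ p ∈ (range (2 * l + 1)).filter (fun p => p.Prime ∧ l < p),
      Real.log (p / (2 * (p - l) - 1 : ℕ)) := by
      rw [← sum_neg_distrib]
      apply sum_congr rfl
      intro p hp
      rw [mem_filter, mem_range] at hp
      unfold w
      rw [if_neg (by omega), ← Real.log_inv, inv_div]
    rw [h1, h2]
    ring
  · intro p hp
    rw [mem_filter, mem_range] at hp
    have h1 : (0 : ℝ) < w l p := by exact_mod_cast w_pos
    have h2 : (0 : ℝ) < p := by exact_mod_cast hp.2.pos
    positivity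

lemma log_le_rpow {y : ℝ} (hy : 1 ≤ y) : Real.log y ^ 2 ≤ 16 * Real.sqrt y := by
  have hy0 : 0 ≤ y := by linarith
  set s := Real.sqrt (Real.sqrt y) with hs
  have hs0 : 0 ≤ s := Real.sqrt_nonneg _
  have hs2 : s ^ 2 = Real.sqrt y := Real.sq_sqrt (Real.sqrt_nonneg _)
  have hs4 : s ^ 4 = y := by
    have : s ^ 4 = (s ^ 2) ^ 2 := by ring
    rw [this, hs2, Real.sq_sqrt hy0]
  have hspos : 0 < s := by
    rcases hs0.lt_or_eq with h | h
    · exact h
    · rw [← h] at hs4; norm_num at hs4; linarith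
  have hlog : Real.log y = 4 * Real.log s := by
    rw [← hs4, Real.log_pow]; norm_num
  have h1 : Real.log s ≤ s := (Real.log_le_sub_one_of_pos hspos).trans (by linarith)
  have h0 : 0 ≤ Real.log y := Real.log_nonneg hy
  have h2 : Real.log y ≤ 4 * s := by rw [hlog]; linarith
  calc Real.log y ^ 2 ≤ (4 * s) ^ 2 := pow_le_pow_left₀ h0 h2 2
    _ = 16 * Real.sqrt y := by rw [mul_pow, hs2]; norm_num

lemma sum_inv_sqrt (n : ℕ) : ∑ d ∈ Icc 1 n, 1 / Real.sqrt d ≤ 2 * Real.sqrt n := by
  induction n with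
  | zero => simp
  | succ n ih =>
    rw [sum_Icc_succ_top (by omega)]
    have h1 : 1 / Real.sqrt ((n + 1 : ℕ) : ℝ) ≤ 2 * Real.sqrt ((n + 1 : ℕ) : ℝ) - 2 * Real.sqrt n := by
      push_cast
      set x := Real.sqrt ((n : ℝ) + 1) with hx
      set y := Real.sqrt (n : ℝ) with hy
      have hx2 : x ^ 2 = n + 1 := Real.sq_sqrt (by positivity)
      have hy2 : y ^ 2 = n := Real.sq_sqrt (by positivity)
      have hx0 : 0 < x := Real.sqrt_pos.mpr (by positivity)
      have hy0 : 0 ≤ y := Real.sqrt_nonneg _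
      rw [div_le_iff₀ hx0]
      nlinarith [sq_nonneg (x - y)]
    linarith

lemma tail_bound (l : ℕ) (hl : 1 ≤ l) :
    (∑ p ∈ (range (2 * l + 1)).filter (fun p => p.Prime ∧ l < p),
      Real.log (p / (2 * (p - l) - 1 : ℕ))) ^ 2 ≤
      (Nat.primeCounting (2 * l) : ℝ) * (64 * l) := by
  set S := (range (2 * l + 1)).filter (fun p => p.Prime ∧ l < p) with hS
  have hcs := sum_mul_sq_le_sq_mul_sq S (fun _ => (1 : ℝ)) (fun p => Real.log ((p : ℝ) / (2 * (p - l) - 1 : ℕ)))
  simp only [one_mul, one_pow, sum_const, nsmul_eq_mul, mul_one] at hcs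
  refine hcs.trans ?_
  have hcard : (#S : ℝ) ≤ Nat.primeCounting (2 * l) := by
    have : #S ≤ #(Nat.primesBelow (2 * l + 1)) := by
      apply card_le_card
      intro p hp
      rw [hS, mem_filter, mem_range] at hp
      rw [Nat.mem_primesBelow]
      exact ⟨hp.1, hp.2.1⟩
    rw [Nat.primesBelow_card_eq_primeCounting'] at this
    have h2 : Nat.primeCounting' (2 * l + 1) = Nat.primeCounting (2 * l) := rfl
    rw [h2] at this
    exact_mod_cast this
  have hsum : ∑ p ∈ S, Real.log ((p : ℝ) / (2 * (p - l) - 1 : ℕ)) ^ 2 ≤ 64 * l := by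
    have hl0 : (0 : ℝ) < l := by exact_mod_cast hl
    have h1 : ∀ p ∈ S, Real.log ((p : ℝ) / (2 * (p - l) - 1 : ℕ)) ^ 2 ≤
        16 * Real.sqrt (2 * l) * (1 / Real.sqrt ((p - l : ℕ) : ℝ)) := by
      intro p hp
      rw [hS, mem_filter, mem_range] at hp
      have hd : 1 ≤ p - l := by omega
      have hd' : (1 : ℝ) ≤ ((p - l : ℕ) : ℝ) := by exact_mod_cast hd
      have he : ((p - l : ℕ) : ℝ) ≤ ((2 * (p - l) - 1 : ℕ) : ℝ) := by exact_mod_cast (by omega)
      have he1 : ((2 * (p - l) - 1 : ℕ) : ℝ) ≤ p := by exact_mod_cast (by omega)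
      have hp2 : (p : ℝ) ≤ 2 * l := by exact_mod_cast (by omega : p ≤ 2 * l)
      have hpos : (0 : ℝ) < ((2 * (p - l) - 1 : ℕ) : ℝ) := by linarith
      have h2 : 1 ≤ (p : ℝ) / (2 * (p - l) - 1 : ℕ) := by
        rw [le_div_iff₀ hpos]; linarith
      refine (log_le_rpow h2).trans ?_
      have h3 : (p : ℝ) / (2 * (p - l) - 1 : ℕ) ≤ 2 * l / ((p - l : ℕ) : ℝ) := by
        apply div_le_div₀ (by positivity) hp2 (by linarith) he
      have h4 := Real.sqrt_le_sqrt h3
      rw [Real.sqrt_div (show (0 : ℝ) ≤ 2 * l by positivity)] at h4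
      calc 16 * Real.sqrt ((p : ℝ) / (2 * (p - l) - 1 : ℕ))
          ≤ 16 * (Real.sqrt (2 * l) / Real.sqrt ((p - l : ℕ) : ℝ)) := by linarith
        _ = _ := by ring
    refine (sum_le_sum h1).trans ?_
    rw [← mul_sum]
    have h5 : ∑ p ∈ S, 1 / Real.sqrt ((p - l : ℕ) : ℝ) ≤ ∑ d ∈ Icc 1 l, 1 / Real.sqrt d := by
      have hinj : Set.InjOn (fun p : ℕ => p - l) S := by
        intro p hp q hq h
        rw [mem_coe, hS, mem_filter, mem_range] at hp hq
        simp only at h
        omega
      rw [← sum_image (f := fun d : ℕ => 1 / Real.sqrt (d : ℝ)) hinj]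
      apply sum_le_sum_of_subset_of_nonneg
      · intro d hd
        rw [mem_image] at hd
        obtain ⟨p, hp, rfl⟩ := hd
        rw [hS, mem_filter, mem_range] at hp
        rw [mem_Icc]
        omega
      · intro d _ _
        positivity
    have h6 := sum_inv_sqrt l
    have h7 : Real.sqrt (2 * l) * (2 * Real.sqrt l) ≤ 4 * l := by
      rw [Real.sqrt_mul (by norm_num)]
      have h8 : Real.sqrt (l : ℝ) * Real.sqrt l = l := Real.mul_self_sqrt (by positivity)
      have h9 : Real.sqrt 2 ≤ 2 := by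
        rw [Real.sqrt_le_left (by norm_num)]; norm_num
      calc Real.sqrt 2 * Real.sqrt (l : ℝ) * (2 * Real.sqrt l)
          = 2 * Real.sqrt 2 * (Real.sqrt (l : ℝ) * Real.sqrt l) := by ring
        _ = 2 * Real.sqrt 2 * l := by rw [h8]
        _ ≤ 2 * 2 * l := by gcongr
        _ = 4 * l := by ring
    calc 16 * Real.sqrt (2 * l) * ∑ p ∈ S, 1 / Real.sqrt ((p - l : ℕ) : ℝ)
        ≤ 16 * Real.sqrt (2 * l) * (2 * Real.sqrt l) := by
          gcongr
          exact h5.trans h6
      _ = 16 * (Real.sqrt (2 * l) * (2 * Real.sqrt l)) := by ring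
      _ ≤ 16 * (4 * l) := by gcongr
      _ = 64 * l := by ring
  exact mul_le_mul hcard hsum (sum_nonneg fun p _ => sq_nonneg _) (by positivity)

lemma tendsto_log_delta : Tendsto (fun l : ℕ => Real.log (delta l) / l) atTop (𝓝 (-1)) := by
  set T : ℕ → ℝ := fun l => ∑ p ∈ (range (2 * l + 1)).filter (fun p => p.Prime ∧ l < p),
      Real.log (p / (2 * (p - l) - 1 : ℕ)) with hT
  have h1 : Tendsto (fun l : ℕ => Chebyshev.theta l / l) atTop (𝓝 1) :=
    Pool.Agent.H90.tendsto_theta_div.comp tendsto_natCast_atTop_atTop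
  have h2 : Tendsto (fun l : ℕ => (T l / l) ^ 2) atTop (𝓝 0) := by
    have h3 : Tendsto (fun l : ℕ => (Nat.primeCounting (2 * l) : ℝ) / (2 * l : ℕ) * 128) atTop (𝓝 0) := by
      have : Tendsto (fun l : ℕ => 2 * l) atTop atTop := tendsto_id.const_mul_atTop' (by norm_num)
      simpa using (tendsto_pi_div.comp this).mul_const 128
    apply squeeze_zero' (Eventually.of_forall fun n => sq_nonneg _) _ h3
    filter_upwards [eventually_ge_atTop 1] with l hl
    have hl0 : (0 : ℝ) < l := by exact_mod_cast hl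
    have := tail_bound l hl
    rw [div_pow, div_le_iff₀ (by positivity)]
    refine this.trans (le_of_eq ?_)
    push_cast
    field_simp
    ring
  have h4 : Tendsto (fun l : ℕ => T l / l) atTop (𝓝 0) := by
    rw [tendsto_zero_iff_abs_tendsto_zero]
    have h5 := (Real.continuous_sqrt.tendsto 0).comp h2
    rw [Real.sqrt_zero] at h5
    refine h5.congr fun l => ?_
    simp only [Function.comp_apply]
    rw [Real.sqrt_sq_eq_abs]
  have h6 := (h1.neg).sub h4
  rw [sub_zero] at h6
  refine h6.congr fun l => ?_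
  rw [log_delta]
  simp only [hT]
  ring

/-- `b` is locally unobstructed -/
def Unob (l b : ℕ) : Prop :=
  ∀ p : ℕ, p.Prime → ∃ a : ℕ, ∀ k < l, ¬ p ∣ a + k * b ∧ ¬ p ∣ a + k * b + 2

lemma unob_iff {l : ℕ} (hl : 2 ≤ l) (b : ℕ) :
    Unob l b ↔ ∀ p : ℕ, p.Prime → p ≤ 2 * l → Ok l b p := by
  constructor
  · intro h p hp _
    obtain ⟨a, ha⟩ := h p hp
    exact loc_to_ok hp hl ha
  · intro h p hp
    apply ok_to_loc hp hl
    by_cases hpl : p ≤ 2 * l
    · exact h p hp hpl
    · exact ok_of_large hp (by omega) (by omega)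

lemma AP.unob {l a b : ℕ} (hl : 3 ≤ l) (h : AP l a b) (ha : 2 * l < a) : Unob l b := by
  rw [unob_iff (by omega)]
  intro p hp hpl
  apply loc_to_ok hp (by omega) (a := a)
  intro k hk
  constructor
  · intro hd
    have := (Nat.prime_dvd_prime_iff_eq hp (h.2 k hk).1).mp hd
    omega
  · intro hd
    have := (Nat.prime_dvd_prime_iff_eq hp (h.2 k hk).2).mp hd
    omega

open Classical in
lemma tendsto_unob {l : ℕ} (hl : 2 ≤ l) :
    Tendsto (fun x : ℕ => (#{b ∈ Icc 1 x | Unob l b} : ℝ) / x) atTop (𝓝 (delta l)) := by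
  set S := (range (2 * l + 1)).filter Nat.Prime with hS
  have hSp : ∀ p ∈ S, p.Prime := fun p hp => (mem_filter.mp hp).2
  set Q := ∏ p ∈ S, p with hQ
  have hQpos : 0 < Q := prod_pos (fun p hp => (hSp p hp).pos)
  have hiff : ∀ b, Unob l b ↔ ∀ p ∈ S, ((b : ℕ) : ZMod p) ∈ res l p := by
    intro b
    rw [unob_iff hl]
    constructor
    · intro h p hp
      rw [← ok_iff_res]
      rw [hS, mem_filter, mem_range] at hp
      exact h p hp.2 (by omega)
    · intro h p hp hpl
      rw [ok_iff_res]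
      exact h p (by rw [hS, mem_filter, mem_range]; exact ⟨by omega, hp⟩)
  have hper : ∀ b, Unob l (Q + b) ↔ Unob l b := by
    intro b
    rw [hiff, hiff]
    apply forall₂_congr
    intro p hp
    have hd : p ∣ Q := dvd_prod_of_mem (fun p => p) hp
    have : ((Q + b : ℕ) : ZMod p) = (b : ZMod p) := by
      rw [Nat.cast_add, (ZMod.natCast_eq_zero_iff Q p).mpr hd, zero_add]
    rw [this]
  have h1 := tendsto_count hQpos (Unob l) hper
  have h2 : #{b ∈ range Q | Unob l b} = ∏ p ∈ S, Nat.card (res l p) := by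
    rw [← count_crt S hSp (fun p => res l p)]
    apply congrArg
    ext b
    rw [mem_filter, mem_filter, hiff b]
  have h3 : (#{b ∈ range Q | Unob l b} : ℝ) / Q = delta l := by
    rw [h2, hQ]
    unfold delta
    push_cast
    rw [← prod_div_distrib]
    apply prod_congr rfl
    intro p hp
    have hp' := hp
    rw [hS, mem_filter, mem_range] at hp'
    rw [card_res hp'.2 hl (by omega)]
  rw [h3] at h1
  exact h1

open Classical in
lemma tendsto_bad {l : ℕ} (hl : 3 ≤ l) :
    Tendsto (fun x : ℕ => (#{b ∈ Icc 1 x | (∃ a, AP l a b) ∧ ¬ Unob l b} : ℝ) / x) atTop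
      (𝓝 0) := by
  refine tendsto_exc (2 * l) (fun b => (∃ a, AP l a b) ∧ ¬ Unob l b) ?_
  rintro b ⟨⟨a, ha⟩, hb⟩
  refine ⟨a, ?_, ?_⟩
  · by_contra h
    exact hb (ha.unob hl (by omega))
  · have := (ha.2 1 (by omega)).1
    simpa using this

open Classical in
lemma upper {l : ℕ} (hl : 3 ≤ l) (ε : ℝ) (hε : 0 < ε) :
    ∀ᶠ x : ℕ in atTop, (#{b ∈ Icc 1 x | ∃ a, AP l a b} : ℝ) / x ≤ delta l + ε := by
  have h1 := (tendsto_unob (l := l) (by omega)).add (tendsto_bad hl)
  rw [add_zero] at h1
  have h2 := h1.eventually (eventually_le_nhds (show delta l < delta l + ε by linarith))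
  filter_upwards [h2] with x hx
  refine le_trans ?_ hx
  rw [← add_div]
  gcongr
  have : ({b ∈ Icc 1 x | ∃ a, AP l a b} : Finset ℕ) ⊆
      {b ∈ Icc 1 x | Unob l b} ∪ {b ∈ Icc 1 x | (∃ a, AP l a b) ∧ ¬ Unob l b} := by
    intro b hb
    rw [mem_filter] at hb
    rw [mem_union, mem_filter, mem_filter]
    by_cases h : Unob l b
    · exact Or.inl ⟨hb.1, h⟩
    · exact Or.inr ⟨hb.1, hb.2, h⟩
  have h3 := (card_le_card this).trans (card_union_le _ _)
  exact_mod_cast h3

end Pool.Agent.H21.Diff
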