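import Mathlib

/-!
Counting: a finite field with more than three elements and odd characteristic `p` contains two
distinct elements that are not of the form `x^p - x`, not squares, and whose negatives are not
`r`-th powers, for a suitable prime `r`.
-/

open Finset

namespace Pool.Agent.H21

/-- The set of values of `x ^ p - x` has at most `card K / p` elements. -/
lemma card_image_AS_le (K : Type*) [Field K] [Fintype K] [DecidableEq K] (p : ℕ) [Fact p.Prime]
    [CharP K p] {s : ℕ} (hs : Fintype.card K = p * s) :
    (univ.image fun x : K => x ^ p - x).card ≤ s := by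
  classical
  have hp : p.Prime := Fact.out
  have : ExpChar K p := ExpChar.prime hp
  let L : K →+ K := AddMonoidHom.mk' (fun x => x ^ p - x) (by
    intro x y
    rw [add_pow_expChar]
    ring)
  have h1 : Nat.card L.ker * Nat.card L.range = Nat.card K := by
    have := AddSubgroup.card_mul_index L.ker
    rw [AddSubgroup.index_ker] at this
    exact this
  have h2 : p ≤ Nat.card L.ker := by
    have hinj : Function.Injective (fun z : ZMod p => (⟨ZMod.castHom dvd_rfl K z, by
        rw [AddMonoidHom.mem_ker]
        change (ZMod.castHom dvd_rfl K z) ^ p - ZMod.castHom dvd_rfl K z = 0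
        rw [← map_pow, ZMod.pow_card, sub_self]⟩ : L.ker)) := by
      intro a b hab
      have := congrArg Subtype.val hab
      exact (ZMod.castHom dvd_rfl K).injective this
    have := Nat.card_le_card_of_injective _ hinj
    rwa [Nat.card_zmod] at this
  have h3 : (univ.image fun x : K => x ^ p - x).card = Nat.card L.range := by
    rw [← Set.ncard_coe_finset, coe_image, coe_univ, Set.image_univ]
    rw [← SetLike.coe_sort_coe, Nat.card_coe_set_eq, AddMonoidHom.coe_range]
    rfl
  rw [h3]
  rw [Nat.card_eq_fintype_card (α := K), hs] at h1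
  have h4 : p * Nat.card L.range ≤ p * s := by
    rw [← h1]; exact Nat.mul_le_mul_right _ h2
  exact Nat.le_of_mul_le_mul_left h4 hp.pos

/-- number of `d`-th powers among the units -/
lemma card_image_pow (K : Type*) [Field K] [Fintype K] [DecidableEq K] {d w : ℕ} 
    (h : Fintype.card K - 1 = d * w) (hd : 0 < d) :
    (univ.image fun x : Kˣ => x ^ d).card = w := by
  classical
  have h1 := IsCyclic.card_powMonoidHom_range Kˣ d
  have h3 : (univ.image fun x : Kˣ => x ^ d).card = Nat.card (powMonoidHom d : Kˣ →* Kˣ).range := by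
    rw [← Set.ncard_coe_finset, coe_image, coe_univ, Set.image_univ]
    rw [← SetLike.coe_sort_coe, Nat.card_coe_set_eq, MonoidHom.coe_range]
    rfl
  rw [h3, h1, Nat.card_eq_fintype_card, Fintype.card_units, h, Nat.gcd_eq_right (dvd_mul_right d w),
    Nat.mul_div_cancel_left _ hd]

/-- A good parameter. -/
def Good (K : Type*) [Field K] (p r : ℕ) (c : K) : Prop :=
  (∀ x : K, x ^ p - x ≠ c) ∧ (∀ b : K, b ^ 2 ≠ c) ∧ ∀ b : K, b ^ r ≠ -c

lemma exists_good_of_bound (K : Type*) [Field K] [Fintype K] [DecidableEq K] (p r : ℕ)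
    [Fact p.Prime] (hr : 0 < r) [CharP K p] {s t : ℕ} (hs : Fintype.card K = p * s)
    (hneg : ∃ e : K, e ^ r = -1)
    (ht : ((univ.image fun x : Kˣ => x ^ 2) ∪ (univ.image fun x : Kˣ => x ^ r)).card ≤ t)
    (hb : t + s + 1 ≤ Fintype.card K - 1) :
    ∃ c c' : K, c ≠ c' ∧ Good K p r c ∧ Good K p r c' := by
  classical
  have hp : p.Prime := Fact.out
  set A : Finset Kˣ := (univ.image fun x : Kˣ => x ^ 2) ∪ (univ.image fun x : Kˣ => x ^ r) with hA
  set I : Finset K := univ.image fun x : K => x ^ p - x with hI
  set B : Finset Kˣ := univ.filter fun u : Kˣ => (u : K) ∈ I with hB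
  have hIc : I.card ≤ s := card_image_AS_le K p hs
  have hB1 : B.card + 1 ≤ I.card := by
    have h0 : (0 : K) ∈ I := by
      rw [hI, mem_image]
      exact ⟨0, mem_univ _, by rw [zero_pow hp.ne_zero, sub_zero]⟩
    have h1 : B.card ≤ (I.erase 0).card := by
      apply card_le_card_of_injOn (fun u : Kˣ => (u : K))
      · intro u hu
        rw [hB, coe_filter] at hu
        simp only [mem_univ, true_and, Set.mem_ofPred_eq] at hu
        simp only [coe_erase, Set.mem_sdiff, mem_coe, Set.mem_singleton_iff]
        exact ⟨hu, u.ne_zero⟩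
      · intro u _ v _ huv
        exact Units.ext huv
    rw [card_erase_of_mem h0] at h1
    have h2 : 0 < I.card := card_pos.mpr ⟨0, h0⟩
    omega
  have hAB : (A ∪ B).card + 2 ≤ Fintype.card Kˣ := by
    have := card_union_le A B
    rw [Fintype.card_units]
    omega
  have hcompl : 1 < ((A ∪ B)ᶜ).card := by
    rw [card_compl]
    omega
  obtain ⟨u, hu, v, hv, huv⟩ := one_lt_card.mp hcompl
  have key : ∀ u : Kˣ, u ∈ (A ∪ B)ᶜ → Good K p r (u : K) := by
    intro u hu
    rw [mem_compl, mem_union, not_or] at hu
    obtain ⟨huA, huB⟩ := hu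
    rw [hA, mem_union, not_or] at huA
    refine ⟨?_, ?_, ?_⟩
    · intro x hx
      apply huB
      rw [hB, mem_filter]
      refine ⟨mem_univ _, ?_⟩
      rw [hI, mem_image]
      exact ⟨x, mem_univ _, hx⟩
    · intro b hb
      apply huA.1
      have hb0 : b ≠ 0 := by
        rintro rfl
        rw [zero_pow two_ne_zero] at hb
        exact u.ne_zero hb.symm
      rw [mem_image]
      refine ⟨Units.mk0 b hb0, mem_univ _, ?_⟩
      apply Units.ext
      rw [Units.val_pow_eq_pow_val, Units.val_mk0, hb]
    · intro b hb
      apply huA.2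
      obtain ⟨e, he⟩ := hneg
      have h1 : (e * b) ^ r = (u : K) := by
        rw [mul_pow, he, hb]; ring
      have hb0 : e * b ≠ 0 := by
        intro h0
        rw [h0, zero_pow hr.ne'] at h1
        exact u.ne_zero h1.symm
      rw [mem_image]
      refine ⟨Units.mk0 (e * b) hb0, mem_univ _, ?_⟩
      apply Units.ext
      rw [Units.val_pow_eq_pow_val, Units.val_mk0, h1]
  exact ⟨u, v, fun h => huv (Units.ext h), key u hu, key v hv⟩

/-- In every finite field of odd characteristic with more than three elements there is a prime `r`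
with two distinct good parameters. -/
theorem exists_good (K : Type*) [Field K] [Fintype K] (p : ℕ) [Fact p.Prime] [CharP K p]
    (hp2 : p ≠ 2) (h3 : 3 < Fintype.card K) :
    ∃ r : ℕ, r.Prime ∧ ∃ c c' : K, c ≠ c' ∧ Good K p r c ∧ Good K p r c' := by
  classical
  have hp : p.Prime := Fact.out
  obtain ⟨n, _, hn⟩ := FiniteField.card K p
  obtain ⟨s, hs⟩ : p ∣ Fintype.card K := by
    rw [hn]; exact dvd_pow_self p n.ne_zero
  have hchar : ringChar K ≠ 2 := by
    rw [ringChar.eq K p]; exact hp2
  have hodd := FiniteField.odd_card_of_char_ne_two hchar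
  have hp3 : 3 ≤ p := by
    have := hp.two_le
    omega
  have hs0 : 0 < s := by
    rcases Nat.eq_zero_or_pos s with h | h
    · rw [h, mul_zero] at hs; omega
    · exact h
  have hs3 : p = 3 → 3 ≤ s := by
    rintro rfl
    have h1 : 1 < (n : ℕ) := by
      by_contra hcon
      have : (n : ℕ) = 1 := by have := n.pos; omega
      rw [this] at hn; omega
    have h2 : 3 ^ 2 ≤ 3 ^ (n : ℕ) := Nat.pow_le_pow_right (by norm_num) h1
    rw [hs] at hn
    omega
  rcases (by omega : Fintype.card K % 4 = 1 ∨ Fintype.card K % 4 = 3) with h4 | h4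
  · -- q ≡ 1 mod 4
    refine ⟨2, Nat.prime_two, ?_⟩
    obtain ⟨w, hw⟩ : ∃ w, Fintype.card K - 1 = 2 * w := ⟨(Fintype.card K - 1) / 2, by omega⟩
    apply exists_good_of_bound K p 2 (by norm_num) hs (t := w)
    · have : IsSquare (-1 : K) := FiniteField.isSquare_neg_one_iff.mpr (by omega)
      obtain ⟨e, he⟩ := this
      exact ⟨e, by rw [he]; ring⟩
    · rw [union_self, card_image_pow K hw (by norm_num)]
    · -- w + s + 1 ≤ 2 w, i.e. s + 1 ≤ w, 2w + 1 = p s
      have h5 : 2 * w + 1 = p * s := by omega
      have h6 : s + 1 ≤ w := by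
        rcases (by omega : p = 3 ∨ 5 ≤ p ∨ p = 4) with h | h | h
        · subst h; have := hs3 rfl; omega
        · have : 5 * s ≤ p * s := Nat.mul_le_mul_right _ h
          omega
        · subst h; exact absurd hp (by norm_num)
      omega
  · -- q ≡ 3 mod 4
    obtain ⟨w, hw⟩ : ∃ w, Fintype.card K - 1 = 2 * w := ⟨(Fintype.card K - 1) / 2, by omega⟩
    have hw1 : w ≠ 1 := by omega
    obtain ⟨r, hr, hrw⟩ := Nat.exists_prime_and_dvd hw1
    obtain ⟨m, hm⟩ := hrw
    have hwodd : w % 2 = 1 := by omega
    have hr2 : r % 2 = 1 := by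
      by_contra hcon
      have h2r : r % 2 = 0 := by omega
      have : w % 2 = 0 := by rw [hm, Nat.mul_mod, h2r]; simp
      omega
    have hrodd : Odd r := Nat.odd_iff.mpr hr2
    refine ⟨r, hr, ?_⟩
    apply exists_good_of_bound K p r hr.pos hs (t := r * m + 2 * m - m)
    · exact ⟨-1, hrodd.neg_one_pow⟩
    · have hA := card_image_pow K (d := 2) (w := r * m) (by rw [hw, hm]) (by norm_num)
      have hB := card_image_pow K (d := r) (w := 2 * m) (by rw [hw, hm]; ring) hr.pos
      have hC := card_image_pow K (d := 2 * r) (w := m) (by rw [hw, hm]; ring)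
        (by have := hr.pos; omega)
      have hsub : (univ.image fun x : Kˣ => x ^ (2 * r)) ⊆
          (univ.image fun x : Kˣ => x ^ 2) ∩ (univ.image fun x : Kˣ => x ^ r) := by
        intro y hy
        rw [mem_image] at hy
        obtain ⟨x, _, rfl⟩ := hy
        rw [mem_inter, mem_image, mem_image]
        exact ⟨⟨x ^ r, mem_univ _, by rw [← pow_mul, mul_comm]⟩,
          ⟨x ^ 2, mem_univ _, by rw [← pow_mul]⟩⟩
      have h1 := card_le_card hsub
      have h2 := card_union_add_card_inter (univ.image fun x : Kˣ => x ^ 2)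
        (univ.image fun x : Kˣ => x ^ r)
      rw [hA, hB] at h2
      rw [hC] at h1
      omega
    · -- r m + m + s + 1 ≤ 2 r m
      have hm0 : 0 < m := by
        rcases Nat.eq_zero_or_pos m with h | h
        · subst h; omega
        · exact h
      have hr3 : 3 ≤ r := by have := hr.two_le; omega
      have h5 : 2 * (r * m) + 1 = p * s := by rw [← hm]; omega
      have h6 : m + s + 1 ≤ r * m := by
        rcases (by omega : p = 3 ∨ 5 ≤ p ∨ p = 4) with h | h | h
        · subst h
          have h7 : r ≠ 3 := by
            rintro rfl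
            omega
          have h8 : 5 ≤ r := by
            have : r ≠ 4 := by rintro rfl; exact absurd hr (by norm_num)
            omega
          have h9 : 5 * m ≤ r * m := Nat.mul_le_mul_right _ h8
          -- 3(m + s + 1) = 3m + 2rm + 1 + 3 ≤ 3rm  iff  3m + 4 ≤ rm
          rcases (by omega : 2 ≤ m ∨ m = 1) with hm2 | hm1
          · omega
          · subst hm1
            -- 2r + 1 = 3 s, r ≥ 5; need s + 2 ≤ r
            omega
        · rcases (by omega : 2 ≤ m ∨ m = 1) with hm2 | hm1
          · have h9 : 3 * m ≤ r * m := Nat.mul_le_mul_right _ hr3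
            have h10 : 5 * s ≤ p * s := Nat.mul_le_mul_right _ h
            omega
          · subst hm1
            rw [mul_one] at h5 ⊢
            have h10 : 5 * s ≤ p * s := Nat.mul_le_mul_right _ h
            rcases (by omega : r = 3 ∨ 4 ≤ r) with h11 | h11
            · subst h11
              -- p s = 7
              have : s = 1 := by omega
              omega
            · have : r ≠ 4 := by rintro rfl; exact absurd hr (by norm_num)
              omega
        · subst h; exact absurd hp (by norm_num)
      have h12 : Fintype.card K - 1 = 2 * (r * m) := by rw [hw, hm]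
      omega

end Pool.Agent.H21
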