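import Pool.Agent.H21.HawkDefs

open MeasureTheory Filter Topology
open scoped ENNReal

namespace Pool.Agent.H21.Hawk

/-- uniform law on [0,1] -/
noncomputable abbrev unif : Measure ℝ := volume.restrict (Set.Icc (0 : ℝ) 1)

instance : IsProbabilityMeasure unif := ⟨by simp [unif]⟩

instance : IsProbabilityMeasure uniforms := by
  unfold uniforms; infer_instance

lemma unif_Iio {c : ℝ} (_h0 : 0 ≤ c) (h1 : c ≤ 1) : unif (Set.Iio c) = ENNReal.ofReal c := by
  rw [unif, Measure.restrict_apply measurableSet_Iio]
  have : Set.Iio c ∩ Set.Icc 0 1 = Set.Ico 0 c := by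
    ext x; simp only [Set.mem_inter_iff, Set.mem_Iio, Set.mem_Icc, Set.mem_Ico]
    constructor
    · rintro ⟨a, b, c⟩; exact ⟨b, a⟩
    · rintro ⟨a, b⟩; exact ⟨b, a, by linarith⟩
  rw [this]; simp

lemma unif_Ici {c : ℝ} (h0 : 0 ≤ c) (_h1 : c ≤ 1) : unif (Set.Ici c) = ENNReal.ofReal (1 - c) := by
  rw [unif, Measure.restrict_apply measurableSet_Ici]
  have : Set.Ici c ∩ Set.Icc 0 1 = Set.Icc c 1 := by
    ext x; simp only [Set.mem_inter_iff, Set.mem_Ici, Set.mem_Icc]
    constructor
    · rintro ⟨a, b, c⟩; exact ⟨a, c⟩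
    · rintro ⟨a, b⟩; exact ⟨a, by linarith, b⟩
  rw [this]; simp

lemma lintegral_unif_ite {c : ℝ} (h0 : 0 ≤ c) (h1 : c ≤ 1) (a b : ℝ≥0∞) :
    ∫⁻ t, (if t < c then a else b) ∂unif = ENNReal.ofReal c * a + ENNReal.ofReal (1 - c) * b := by
  have h : (fun t : ℝ => if t < c then a else b) =
      fun t => (Set.Iio c).indicator (fun _ => a) t + (Set.Ici c).indicator (fun _ => b) t := by
    funext t
    by_cases ht : t < c
    · have : ¬ c ≤ t := not_le.2 ht
      simp [ht, this, Set.indicator]
    · have : c ≤ t := not_lt.1 ht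
      simp [ht, this, Set.indicator]
  rw [h, lintegral_add_left (measurable_const.indicator measurableSet_Iio),
    lintegral_indicator measurableSet_Iio, lintegral_indicator measurableSet_Ici]
  simp only [lintegral_const, Measure.restrict_apply MeasurableSet.univ, Set.univ_inter]
  rw [unif_Iio h0 h1, unif_Ici h0 h1, mul_comm a, mul_comm b]

/-- resampling one coordinate does not change the law -/
lemma map_update (n : ℕ) :
    (uniforms.prod unif).map (fun p : (ℕ → ℝ) × ℝ => Function.update p.1 n p.2) = uniforms := by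
  classical
  have hmeas : Measurable (fun p : (ℕ → ℝ) × ℝ => Function.update p.1 n p.2) := by
    rw [measurable_pi_iff]
    intro m
    by_cases h : m = n
    · subst h; simpa using measurable_snd
    · simp only [Function.update_of_ne h]
      exact (measurable_pi_apply m).comp measurable_fst
  unfold uniforms
  apply Measure.eq_infinitePi
  intro s t ht
  rw [Measure.map_apply hmeas (MeasurableSet.pi s.countable_toSet fun i _ => ht i)]
  have hset : (fun p : (ℕ → ℝ) × ℝ => Function.update p.1 n p.2) ⁻¹' (Set.pi s t) =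
      (Set.pi (s.erase n) t) ×ˢ (if n ∈ s then t n else Set.univ) := by
    ext ⟨u, x⟩
    simp only [Set.mem_preimage, Set.mem_pi, Finset.mem_coe, Set.mem_prod, Finset.mem_erase]
    constructor
    · intro h
      refine ⟨fun i hi => ?_, ?_⟩
      · have := h i hi.2
        rwa [Function.update_of_ne hi.1] at this
      · split_ifs with hn
        · have := h n hn
          rwa [Function.update_self] at this
        · trivial
    · rintro ⟨h1, h2⟩ i hi
      by_cases hin : i = n
      · subst hin
        rw [if_pos hi] at h2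
        rwa [Function.update_self]
      · rw [Function.update_of_ne hin]
        exact h1 i ⟨hin, hi⟩
  rw [hset, Measure.prod_prod, Measure.infinitePi_pi _ (fun i _ => ht i)]
  split_ifs with hn
  · rw [mul_comm, ← Finset.mul_prod_erase s _ hn]
  · rw [measure_univ, mul_one, Finset.erase_eq_of_notMem hn]

lemma measurable_update' (n : ℕ) :
    Measurable (fun p : (ℕ → ℝ) × ℝ => Function.update p.1 n p.2) := by
  rw [measurable_pi_iff]
  intro m
  by_cases h : m = n
  · subst h; simpa using measurable_snd
  · simp only [Function.update_of_ne h]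
    exact (measurable_pi_apply m).comp measurable_fst

lemma lintegral_resample (n : ℕ) {F : (ℕ → ℝ) → ℝ≥0∞} (hF : Measurable F) :
    ∫⁻ u, F u ∂uniforms = ∫⁻ u, ∫⁻ t, F (Function.update u n t) ∂unif ∂uniforms := by
  conv_lhs => rw [← map_update n]
  rw [lintegral_map hF (measurable_update' n)]
  exact lintegral_prod _ ((hF.comp (measurable_update' n)).aemeasurable)

/-! ### survival -/

lemma survival_succ (u : ℕ → ℝ) (n : ℕ) : survival u (n + 1) =
    if 2 ≤ n ∧ u n < survival u n then survival u n * (1 - 1 / (n : ℝ)) else survival u n := rfl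

lemma survival_pos (u : ℕ → ℝ) (n : ℕ) : 0 < survival u n := by
  induction n with
  | zero => simp [survival]
  | succ n ih =>
    rw [survival_succ]
    split_ifs with h
    · have : (2 : ℝ) ≤ n := by exact_mod_cast h.1
      apply mul_pos ih
      have : (1 : ℝ) / n ≤ 1 / 2 := one_div_le_one_div_of_le (by norm_num) this
      linarith
    · exact ih

lemma survival_anti (u : ℕ → ℝ) : Antitone (survival u) := by
  apply antitone_nat_of_succ_le
  intro n
  rw [survival_succ]
  split_ifs with h
  · have : (2 : ℝ) ≤ n := by exact_mod_cast h.1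
    have h3 : (0 : ℝ) ≤ 1 / n := by positivity
    nlinarith [survival_pos u n]
  · exact le_rfl

lemma survival_le_one (u : ℕ → ℝ) (n : ℕ) : survival u n ≤ 1 := by
  have := survival_anti u (Nat.zero_le n)
  simpa [survival] using this

lemma survival_two (u : ℕ → ℝ) : survival u 2 = 1 := by
  simp [survival]

lemma survival_congr {u v : ℕ → ℝ} {n : ℕ} (h : ∀ m < n, u m = v m) :
    survival u n = survival v n := by
  induction n with
  | zero => simp [survival]
  | succ n ih =>
    rw [survival_succ, survival_succ, ih (fun m hm => h m (by omega)), h n (by omega)]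

lemma survival_update (u : ℕ → ℝ) (n : ℕ) (t : ℝ) :
    survival (Function.update u n t) n = survival u n :=
  survival_congr fun m hm => Function.update_of_ne (by omega) _ _

lemma measurable_survival (n : ℕ) : Measurable (fun u : ℕ → ℝ => survival u n) := by
  induction n with
  | zero => simp only [survival]; exact measurable_const
  | succ n ih =>
    simp only [survival_succ]
    apply Measurable.ite
    · by_cases h : 2 ≤ n
      · simp only [h, true_and]
        exact measurableSet_lt (measurable_pi_apply n) ih
      · simp [h]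
    · exact ih.mul_const _
    · exact ih

/-- reciprocal survival probability -/
noncomputable def Y (u : ℕ → ℝ) (n : ℕ) : ℝ := (survival u n)⁻¹

lemma Y_pos (u : ℕ → ℝ) (n : ℕ) : 0 < Y u n := inv_pos.2 (survival_pos u n)

lemma one_le_Y (u : ℕ → ℝ) (n : ℕ) : 1 ≤ Y u n :=
  (one_le_inv₀ (survival_pos u n)).2 (survival_le_one u n)

lemma Y_mono (u : ℕ → ℝ) : Monotone (Y u) := fun _ b h =>
  inv_anti₀ (survival_pos u b) (survival_anti u h)

lemma Y_two (u : ℕ → ℝ) : Y u 2 = 1 := by simp [Y, survival_two]

lemma Y_succ (u : ℕ → ℝ) {n : ℕ} (hn : 2 ≤ n) :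
    Y u (n + 1) = if u n < survival u n then Y u n * (1 + 1 / ((n : ℝ) - 1)) else Y u n := by
  have h2 : (2 : ℝ) ≤ n := by exact_mod_cast hn
  unfold Y
  rw [survival_succ]
  by_cases h : u n < survival u n
  · rw [if_pos ⟨hn, h⟩, if_pos h, mul_inv]
    congr 1
    have h3 : (n : ℝ) ≠ 0 := by positivity
    have h4 : (n : ℝ) - 1 ≠ 0 := by linarith
    have h5 : 1 - 1 / (n : ℝ) ≠ 0 := by
      rw [sub_ne_zero]; intro h6
      rw [eq_comm, div_eq_one_iff_eq h3] at h6; linarith
    field_simp
    ring
  · rw [if_neg (fun h' => h h'.2), if_neg h]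

lemma measurable_Y (n : ℕ) : Measurable (fun u : ℕ → ℝ => Y u n) := (measurable_survival n).inv

lemma Y_update (u : ℕ → ℝ) (n : ℕ) (t : ℝ) : Y (Function.update u n t) n = Y u n := by
  simp [Y, survival_update]

end Pool.Agent.H21.Hawk
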