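import Pool.Agent.H21.HawkA

open MeasureTheory Filter Topology
open scoped ENNReal

namespace Pool.Agent.H21.Hawk

/-- harmonic numbers as reals -/
noncomputable def Hr (m : ℕ) : ℝ := ∑ j ∈ Finset.range m, 1 / ((j : ℝ) + 1)

lemma Hr_succ (m : ℕ) : Hr (m + 1) = Hr m + 1 / ((m : ℝ) + 1) := Finset.sum_range_succ _ _

lemma Hr_nonneg (m : ℕ) : 0 ≤ Hr m := Finset.sum_nonneg fun _ _ => by positivity

lemma Hr_le (m : ℕ) : Hr m ≤ m := by
  induction m with
  | zero => simp [Hr]
  | succ m ih =>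
    rw [Hr_succ]
    have : 1 / ((m : ℝ) + 1) ≤ 1 := by
      rw [div_le_one (by positivity)]
      have : (0 : ℝ) ≤ m := Nat.cast_nonneg m
      linarith
    push_cast
    linarith

lemma Y_succ' (u : ℕ → ℝ) (m : ℕ) :
    Y u (m + 3) = if u (m + 2) < survival u (m + 2) then Y u (m + 2) * (1 + 1 / ((m : ℝ) + 1))
      else Y u (m + 2) := by
  have := Y_succ u (n := m + 2) (by omega)
  have e : (((m + 2 : ℕ) : ℝ) - 1) = (m : ℝ) + 1 := by push_cast; ring
  rw [e] at this
  exact this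

lemma surv_mul_Y (u : ℕ → ℝ) (n : ℕ) : survival u n * Y u n = 1 :=
  mul_inv_cancel₀ (survival_pos u n).ne'

/-- one-step formula -/
lemma step_lintegral (m : ℕ) (φ : ℝ → ℝ) (hφ : Measurable φ) (hφ0 : ∀ x, 0 ≤ φ x) :
    ∫⁻ u, ENNReal.ofReal (φ (Y u (m + 3))) ∂uniforms =
      ∫⁻ u, ENNReal.ofReal (survival u (m + 2) * φ (Y u (m + 2) * (1 + 1 / ((m : ℝ) + 1))) +
        (1 - survival u (m + 2)) * φ (Y u (m + 2))) ∂uniforms := by
  refine (lintegral_resample (m + 2)
    (ENNReal.measurable_ofReal.comp (hφ.comp (measurable_Y (m + 3))))).trans ?_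
  congr 1
  funext u
  have h : (fun t => ENNReal.ofReal (φ (Y (Function.update u (m + 2) t) (m + 3)))) =
      fun t => if t < survival u (m + 2) then
        ENNReal.ofReal (φ (Y u (m + 2) * (1 + 1 / ((m : ℝ) + 1))))
        else ENNReal.ofReal (φ (Y u (m + 2))) := by
    funext t
    rw [Y_succ', Y_update, survival_update, Function.update_self]
    split_ifs <;> rfl
  simp only [Function.comp_def]
  rw [h, lintegral_unif_ite (survival_pos u _).le (survival_le_one u _)]
  rw [← ENNReal.ofReal_mul (survival_pos u _).le,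
    ← ENNReal.ofReal_mul (by linarith [survival_le_one u (m + 2)]),
    ← ENNReal.ofReal_add]
  · exact mul_nonneg (survival_pos u _).le (hφ0 _)
  · exact mul_nonneg (by linarith [survival_le_one u (m + 2)]) (hφ0 _)

lemma E1 (m : ℕ) : ∫⁻ u, ENNReal.ofReal (Y u (m + 2) - 1) ∂uniforms = ENNReal.ofReal (Hr m) := by
  induction m with
  | zero =>
    have : ∀ u : ℕ → ℝ, Y u (0 + 2) - 1 = 0 := fun u => by rw [zero_add, Y_two]; ring
    simp [this, Hr]
  | succ m ih =>
    have h1 : ∫⁻ u, ENNReal.ofReal (Y u (m + 1 + 2) - 1) ∂uniforms =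
        ∫⁻ u, ENNReal.ofReal ((fun y : ℝ => |y - 1|) (Y u (m + 3))) ∂uniforms := by
      congr 1; funext u
      simp only
      rw [abs_of_nonneg (by linarith [one_le_Y u (m + 3)])]
    rw [h1, step_lintegral m (fun y : ℝ => |y - 1|) (by fun_prop) (fun x => abs_nonneg _)]
    have h2 : ∀ u : ℕ → ℝ, survival u (m + 2) *
        (fun y : ℝ => |y - 1|) (Y u (m + 2) * (1 + 1 / ((m : ℝ) + 1))) +
        (1 - survival u (m + 2)) * (fun y : ℝ => |y - 1|) (Y u (m + 2)) =
        (Y u (m + 2) - 1) + 1 / ((m : ℝ) + 1) := by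
      intro u
      have hy := one_le_Y u (m + 2)
      have hs := surv_mul_Y u (m + 2)
      have hd : (0 : ℝ) ≤ 1 / ((m : ℝ) + 1) := by positivity
      simp only
      rw [abs_of_nonneg (by nlinarith), abs_of_nonneg (by linarith)]
      have : survival u (m + 2) * (Y u (m + 2) * (1 + 1 / ((m : ℝ) + 1)) - 1) =
        (survival u (m + 2) * Y u (m + 2)) * (1 + 1 / ((m : ℝ) + 1)) - survival u (m + 2) := by ring
      rw [this, hs]
      have : (1 - survival u (m + 2)) * (Y u (m + 2) - 1) =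
        Y u (m + 2) - 1 - survival u (m + 2) * Y u (m + 2) + survival u (m + 2) := by ring
      rw [this, hs]
      ring
    simp only [h2]
    have h3 : ∀ u : ℕ → ℝ, ENNReal.ofReal (Y u (m + 2) - 1 + 1 / ((m : ℝ) + 1)) =
        ENNReal.ofReal (Y u (m + 2) - 1) + ENNReal.ofReal (1 / ((m : ℝ) + 1)) := fun u =>
      ENNReal.ofReal_add (by linarith [one_le_Y u (m + 2)]) (by positivity)
    simp only [h3]
    rw [lintegral_add_right _ measurable_const, ih, lintegral_const, measure_univ, mul_one,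
      ← ENNReal.ofReal_add (Hr_nonneg m) (by positivity), Hr_succ]

lemma E2 (m : ℕ) : ∫⁻ u, ENNReal.ofReal ((Y u (m + 2) - (1 + Hr m)) ^ 2) ∂uniforms ≤
    ENNReal.ofReal (Hr m) := by
  induction m with
  | zero =>
    have : ∀ u : ℕ → ℝ, (Y u (0 + 2) - (1 + Hr 0)) ^ 2 = 0 := fun u => by
      rw [zero_add, Y_two]; simp [Hr]
    simp [this]
  | succ m ih =>
    have h1 : ∫⁻ u, ENNReal.ofReal ((Y u (m + 1 + 2) - (1 + Hr (m + 1))) ^ 2) ∂uniforms =
        ∫⁻ u, ENNReal.ofReal ((fun y : ℝ => (y - (1 + Hr (m + 1))) ^ 2) (Y u (m + 3))) ∂uniforms :=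
      rfl
    rw [h1, step_lintegral m (fun y : ℝ => (y - (1 + Hr (m + 1))) ^ 2) (by fun_prop)
      (fun x => sq_nonneg _)]
    have h2 : ∀ u : ℕ → ℝ, survival u (m + 2) *
        (fun y : ℝ => (y - (1 + Hr (m + 1))) ^ 2) (Y u (m + 2) * (1 + 1 / ((m : ℝ) + 1))) +
        (1 - survival u (m + 2)) * (fun y : ℝ => (y - (1 + Hr (m + 1))) ^ 2) (Y u (m + 2)) =
        (Y u (m + 2) - (1 + Hr m)) ^ 2 + (1 / ((m : ℝ) + 1)) ^ 2 * (Y u (m + 2) - 1) := by
      intro u
      have hs := surv_mul_Y u (m + 2)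
      rw [Hr_succ]
      simp only
      generalize 1 / ((m : ℝ) + 1) = d
      generalize Y u (m + 2) = y at *
      generalize survival u (m + 2) = s at *
      generalize Hr m = h
      have e : s * (y * (1 + d) - (1 + (h + d))) ^ 2 + (1 - s) * (y - (1 + (h + d))) ^ 2 =
        (y - (1 + h) - d) ^ 2 + 2 * (y - (1 + h) - d) * (s * y) * d + (s * y) * y * d ^ 2 := by ring
      rw [e, hs]; ring
    simp only [h2]
    have h3 : ∀ u : ℕ → ℝ, ENNReal.ofReal ((Y u (m + 2) - (1 + Hr m)) ^ 2 +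
        (1 / ((m : ℝ) + 1)) ^ 2 * (Y u (m + 2) - 1)) =
        ENNReal.ofReal ((Y u (m + 2) - (1 + Hr m)) ^ 2) +
        ENNReal.ofReal ((1 / ((m : ℝ) + 1)) ^ 2) * ENNReal.ofReal (Y u (m + 2) - 1) := fun u => by
      rw [ENNReal.ofReal_add (sq_nonneg _)
        (mul_nonneg (sq_nonneg _) (by linarith [one_le_Y u (m + 2)])),
        ENNReal.ofReal_mul (sq_nonneg _)]
    simp only [h3]
    have hm1 : Measurable (fun u : ℕ → ℝ => ENNReal.ofReal ((Y u (m + 2) - (1 + Hr m)) ^ 2)) :=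
      ENNReal.measurable_ofReal.comp (((measurable_Y (m + 2)).sub measurable_const).pow_const 2)
    have hm2 : Measurable (fun u : ℕ → ℝ => ENNReal.ofReal (Y u (m + 2) - 1)) :=
      ENNReal.measurable_ofReal.comp ((measurable_Y (m + 2)).sub measurable_const)
    rw [lintegral_add_left hm1, lintegral_const_mul _ hm2, E1,
      ← ENNReal.ofReal_mul (sq_nonneg _), Hr_succ,
      ENNReal.ofReal_add (Hr_nonneg m) (by positivity)]
    refine add_le_add ih (ENNReal.ofReal_le_ofReal ?_)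
    have hm : (0 : ℝ) < (m : ℝ) + 1 := by positivity
    have h4 := Hr_le m
    rw [sq, mul_assoc]
    have : 1 / ((m : ℝ) + 1) * Hr m ≤ 1 := by
      rw [one_div, inv_mul_le_iff₀ hm]; linarith
    calc 1 / ((m : ℝ) + 1) * (1 / ((m : ℝ) + 1) * Hr m) ≤ 1 / ((m : ℝ) + 1) * 1 :=
          mul_le_mul_of_nonneg_left this (by positivity)
      _ = _ := mul_one _

end Pool.Agent.H21.Hawk
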