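import Pool.Agent.H21.HawkB

open MeasureTheory Filter Topology
open scoped ENNReal

namespace Pool.Agent.H21.Hawk

lemma Hr_eq (m : ℕ) : Hr m = ((harmonic m : ℚ) : ℝ) := by
  simp [Hr, harmonic]

lemma log_le_Hr (m : ℕ) : Real.log m ≤ Hr m := by
  rcases Nat.eq_zero_or_pos m with h | h
  · subst h; simp [Hr]
  · rw [Hr_eq]
    refine le_trans (Real.log_le_log (by exact_mod_cast h) ?_) (log_add_one_le_harmonic m)
    push_cast; linarith

lemma Hr_le_log (m : ℕ) : Hr m ≤ 1 + Real.log m := by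
  rw [Hr_eq]; exact harmonic_le_one_add_log m

/-- Chebyshev bound -/
lemma cheb (m : ℕ) : uniforms {u | (1 + Hr m) / 2 ≤ |Y u (m + 2) - (1 + Hr m)|} ≤
    ENNReal.ofReal (4 / (1 + Hr m)) := by
  have hH := Hr_nonneg m
  have hpos : (0 : ℝ) < ((1 + Hr m) / 2) ^ 2 := by positivity
  have hm1 : Measurable (fun u : ℕ → ℝ => ENNReal.ofReal ((Y u (m + 2) - (1 + Hr m)) ^ 2)) :=
    ENNReal.measurable_ofReal.comp (((measurable_Y (m + 2)).sub measurable_const).pow_const 2)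
  have h1 := meas_ge_le_lintegral_div (μ := uniforms) hm1.aemeasurable
    (ε := ENNReal.ofReal (((1 + Hr m) / 2) ^ 2)) (ENNReal.ofReal_pos.2 hpos).ne' ENNReal.ofReal_ne_top
  have h2 : {u : ℕ → ℝ | (1 + Hr m) / 2 ≤ |Y u (m + 2) - (1 + Hr m)|} ⊆
      {u | ENNReal.ofReal (((1 + Hr m) / 2) ^ 2) ≤
        ENNReal.ofReal ((Y u (m + 2) - (1 + Hr m)) ^ 2)} := by
    intro u hu
    simp only [Set.mem_ofPred_eq] at hu ⊢
    apply ENNReal.ofReal_le_ofReal
    rw [← sq_abs (Y u (m + 2) - (1 + Hr m))]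
    exact pow_le_pow_left₀ (by positivity) hu 2
  refine (measure_mono h2).trans (h1.trans ?_)
  refine (ENNReal.div_le_div_right (E2 m) _).trans ?_
  rw [← ENNReal.ofReal_div_of_pos hpos]
  apply ENNReal.ofReal_le_ofReal
  rw [div_le_div_iff₀ hpos (by positivity)]
  nlinarith

lemma ae_Y_bounds : ∀ᵐ u ∂uniforms, ∃ m₀ : ℕ, ∀ m ≥ m₀,
    Real.log m / 10 ≤ Y u m ∧ Y u m ≤ 11 * Real.log m := by
  have hl2 : (0.69 : ℝ) < Real.log 2 := by linarith [Real.log_two_gt_d9]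
  have hlogM : ∀ j : ℕ, Real.log ((2 ^ (j ^ 2) : ℕ) : ℝ) = (j : ℝ) ^ 2 * Real.log 2 := by
    intro j; push_cast; rw [Real.log_pow]; push_cast; ring
  have hsum : (∑' j : ℕ, uniforms {u | (1 + Hr (2 ^ (j ^ 2))) / 2 ≤
      |Y u (2 ^ (j ^ 2) + 2) - (1 + Hr (2 ^ (j ^ 2)))|}) ≠ ∞ := by
    have hs : Summable (fun j : ℕ => 8 / (1 + (j : ℝ) ^ 2)) := by
      apply Summable.of_nonneg_of_le (f := fun j : ℕ => 8 * (1 / (j : ℝ) ^ 2) + if j = 0 then 8 else 0)
        (fun j => by positivity)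
      · intro j
        rcases Nat.eq_zero_or_pos j with h | h
        · subst h; norm_num
        · have hj : (0 : ℝ) < (j : ℝ) ^ 2 := by positivity
          have h1 : 8 / (1 + (j : ℝ) ^ 2) ≤ 8 / (j : ℝ) ^ 2 :=
            div_le_div_of_nonneg_left (by norm_num) hj (by linarith)
          have h2 : (if j = 0 then (8 : ℝ) else 0) = 0 := if_neg (by omega)
          rw [h2, add_zero, mul_one_div]
          exact h1
      · apply Summable.add
        · exact (Real.summable_one_div_nat_pow.2 (by norm_num)).mul_left 8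
        · exact summable_of_ne_finset_zero (s := {0}) (fun b hb => by
            simp only [Finset.mem_singleton] at hb; simp [hb])
    refine ne_top_of_le_ne_top (ENNReal.ofReal_ne_top (r := ∑' j : ℕ, 8 / (1 + (j : ℝ) ^ 2))) ?_
    rw [ENNReal.ofReal_tsum_of_nonneg (fun j => by positivity) hs]
    apply ENNReal.tsum_le_tsum
    intro j
    refine (cheb _).trans (ENNReal.ofReal_le_ofReal ?_)
    have h1 := log_le_Hr (2 ^ (j ^ 2))
    rw [hlogM] at h1
    have h3 : (0 : ℝ) ≤ (j : ℝ) ^ 2 := by positivity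
    rw [div_le_div_iff₀ (by linarith [Hr_nonneg (2 ^ (j ^ 2))]) (by positivity)]
    nlinarith
  filter_upwards [ae_eventually_notMem hsum] with u hu
  obtain ⟨j₀, hj₀⟩ := eventually_atTop.1 hu
  refine ⟨2 ^ ((j₀ + 1) ^ 2) + 2, fun m hm => ?_⟩
  -- find j
  have hex : ∃ j, m < 2 ^ ((j + 1) ^ 2) + 2 := by
    refine ⟨m, ?_⟩
    have h1 : m < 2 ^ m := Nat.lt_two_pow_self
    have h2 : 2 ^ m ≤ 2 ^ ((m + 1) ^ 2) := Nat.pow_le_pow_right (by norm_num) (by nlinarith)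
    omega
  classical
  have hj1 := Nat.find_spec hex
  have hj2 : ∀ i < Nat.find hex, ¬ m < 2 ^ ((i + 1) ^ 2) + 2 := fun i hi => Nat.find_min hex hi
  generalize Nat.find hex = j at hj1 hj2
  have hjpos : j₀ + 1 ≤ j := by
    by_contra h
    have h1 : j + 1 ≤ j₀ + 1 := by omega
    have h2 : 2 ^ ((j + 1) ^ 2) ≤ 2 ^ ((j₀ + 1) ^ 2) :=
      Nat.pow_le_pow_right (by norm_num) (Nat.pow_le_pow_left h1 2)
    omega
  have hjm : 2 ^ (j ^ 2) + 2 ≤ m := by
    have := hj2 (j - 1) (by omega)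
    rw [Nat.sub_add_cancel (by omega)] at this
    omega
  have hjr : (1 : ℝ) ≤ j := by
    have : 1 ≤ j := by omega
    exact_mod_cast this
  have hA := hj₀ j (by omega)
  have hB := hj₀ (j + 1) (by omega)
  simp only [not_le] at hA hB
  rw [abs_lt] at hA hB
  have hM1 : Real.log m ≤ ((j : ℝ) + 1) ^ 2 * Real.log 2 + Real.log 2 := by
    have h1 : (m : ℝ) ≤ ((2 ^ ((j + 1) ^ 2) : ℕ) : ℝ) * 2 := by
      have h2 : m ≤ 2 ^ ((j + 1) ^ 2) * 2 := by
        have : 2 ≤ 2 ^ ((j + 1) ^ 2) := by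
          calc 2 = 2 ^ 1 := by norm_num
            _ ≤ 2 ^ ((j + 1) ^ 2) := Nat.pow_le_pow_right (by norm_num) (by nlinarith)
        omega
      exact_mod_cast h2
    have hm0 : (0 : ℝ) < m := by
      have : 0 < m := lt_of_lt_of_le (by positivity) hjm
      exact_mod_cast this
    calc Real.log m ≤ Real.log (((2 ^ ((j + 1) ^ 2) : ℕ) : ℝ) * 2) := Real.log_le_log hm0 h1
      _ = _ := by
        rw [Real.log_mul (by positivity) (by norm_num), hlogM]; push_cast; ring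
  have hM2 : (j : ℝ) ^ 2 * Real.log 2 ≤ Real.log m := by
    rw [← hlogM]
    apply Real.log_le_log (by positivity)
    have : 2 ^ (j ^ 2) ≤ m := by omega
    exact_mod_cast this
  constructor
  · have h1 := Y_mono u hjm
    have h2 := log_le_Hr (2 ^ (j ^ 2))
    rw [hlogM] at h2
    have h3 : ((j : ℝ) + 1) ^ 2 + 1 ≤ 5 * (j : ℝ) ^ 2 := by nlinarith
    have h4 : (((j : ℝ) + 1) ^ 2 + 1) * Real.log 2 ≤ 5 * (j : ℝ) ^ 2 * Real.log 2 :=
      mul_le_mul_of_nonneg_right h3 (by linarith)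
    linarith [hA.1]
  · have h1 := Y_mono u hj1.le
    have h2 := Hr_le_log (2 ^ ((j + 1) ^ 2))
    rw [hlogM] at h2
    push_cast at h2
    have h3 : 3 + ((j : ℝ) + 1) ^ 2 ≤ 7 * (j : ℝ) ^ 2 := by nlinarith
    have h4 : (3 + ((j : ℝ) + 1) ^ 2) * Real.log 2 ≤ 7 * (j : ℝ) ^ 2 * Real.log 2 :=
      mul_le_mul_of_nonneg_right h3 (by linarith)
    linarith [hB.2]

end Pool.Agent.H21.Hawk
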