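import Pool.Agent.H21.HawkC

open MeasureTheory Filter Topology
open scoped ENNReal

namespace Pool.Agent.H21.Hawk

/-- the event that all coordinates in `T` are below `p` -/
def cyl (p : ℝ) (T : Finset ℕ) : Set (ℕ → ℝ) := {u | ∀ n ∈ T, u n < p}

lemma cyl_eq_pi (p : ℝ) (T : Finset ℕ) : cyl p T = Set.pi (T : Set ℕ) (fun _ => Set.Iio p) := by
  ext u; simp [cyl]

lemma measurableSet_cyl (p : ℝ) (T : Finset ℕ) : MeasurableSet (cyl p T) := by
  rw [cyl_eq_pi]
  exact MeasurableSet.pi T.countable_toSet fun i _ => measurableSet_Iio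

lemma cyl_prob {p : ℝ} (h0 : 0 ≤ p) (h1 : p ≤ 1) (T : Finset ℕ) :
    uniforms (cyl p T) = ENNReal.ofReal (p ^ T.card) := by
  rw [cyl_eq_pi]
  unfold uniforms
  rw [Measure.infinitePi_pi _ (fun i _ => measurableSet_Iio)]
  have : ∀ i ∈ T, (volume.restrict (Set.Icc (0 : ℝ) 1) : Measure ℝ) (Set.Iio p) =
      ENNReal.ofReal p := fun i _ => unif_Iio h0 h1
  rw [Finset.prod_congr rfl this, Finset.prod_const, ENNReal.ofReal_pow h0]

lemma cyl_real {p : ℝ} (h0 : 0 ≤ p) (h1 : p ≤ 1) (T : Finset ℕ) :
    uniforms.real (cyl p T) = p ^ T.card := by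
  rw [Measure.real, cyl_prob h0 h1, ENNReal.toReal_ofReal (pow_nonneg h0 _)]

lemma cyl_inter (p : ℝ) (T T' : Finset ℕ) : cyl p T ∩ cyl p T' = cyl p (T ∪ T') := by
  ext u
  simp only [cyl, Set.mem_inter_iff, Set.mem_ofPred_eq, Finset.mem_union]
  constructor
  · rintro ⟨h1, h2⟩ n (hn | hn)
    · exact h1 n hn
    · exact h2 n hn
  · intro h
    exact ⟨fun n hn => h n (Or.inl hn), fun n hn => h n (Or.inr hn)⟩

/-- second moment method -/
lemma second_moment {Ω : Type*} [MeasurableSpace Ω] (μ : Measure Ω) [IsProbabilityMeasure μ]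
    {ι : Type*} (F : Finset ι) (E : ι → Set Ω) (hE : ∀ i, MeasurableSet (E i)) :
    μ.real {ω | ∀ i ∈ F, ω ∉ E i} * (∑ i ∈ F, μ.real (E i)) ^ 2 ≤
      ∑ i ∈ F, ∑ j ∈ F, (μ.real (E i ∩ E j) - μ.real (E i) * μ.real (E j)) := by
  classical
  set m : ℝ := ∑ i ∈ F, μ.real (E i) with hm
  set g : ι → Ω → ℝ := fun i ω => (E i).indicator (fun _ => (1 : ℝ)) ω - μ.real (E i) with hg
  have hint : ∀ i j, ∫ ω, g i ω * g j ω ∂μ = μ.real (E i ∩ E j) - μ.real (E i) * μ.real (E j) := by
    intro i j
    have e : (fun ω => g i ω * g j ω) = fun ω =>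
        (E i ∩ E j).indicator (fun _ => (1 : ℝ)) ω
        - μ.real (E j) * (E i).indicator (fun _ => (1 : ℝ)) ω
        - μ.real (E i) * (E j).indicator (fun _ => (1 : ℝ)) ω + μ.real (E i) * μ.real (E j) := by
      funext ω
      simp only [hg]
      by_cases h1 : ω ∈ E i <;> by_cases h2 : ω ∈ E j <;>
        simp [Set.indicator, h1, h2] <;> ring
    rw [e]
    have i1 : Integrable (fun ω => (E i ∩ E j).indicator (fun _ => (1 : ℝ)) ω) μ :=
      (integrable_const 1).indicator ((hE i).inter (hE j))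
    have i2 : Integrable (fun ω => μ.real (E j) * (E i).indicator (fun _ => (1 : ℝ)) ω) μ :=
      ((integrable_const 1).indicator (hE i)).const_mul _
    have i3 : Integrable (fun ω => μ.real (E i) * (E j).indicator (fun _ => (1 : ℝ)) ω) μ :=
      ((integrable_const 1).indicator (hE j)).const_mul _
    have i12 : Integrable (fun ω => (E i ∩ E j).indicator (fun _ => (1 : ℝ)) ω
        - μ.real (E j) * (E i).indicator (fun _ => (1 : ℝ)) ω) μ := i1.sub i2
    have i123 : Integrable (fun ω => (E i ∩ E j).indicator (fun _ => (1 : ℝ)) ω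
        - μ.real (E j) * (E i).indicator (fun _ => (1 : ℝ)) ω
        - μ.real (E i) * (E j).indicator (fun _ => (1 : ℝ)) ω) μ := i12.sub i3
    rw [integral_add i123 (integrable_const _),
      integral_sub i12 i3, integral_sub i1 i2, integral_const_mul, integral_const_mul]
    rw [integral_indicator ((hE i).inter (hE j)), integral_indicator (hE i),
      integral_indicator (hE j)]
    simp only [integral_const, smul_eq_mul, mul_one, measureReal_restrict_apply MeasurableSet.univ,
      Set.univ_inter, probReal_univ, one_mul]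
    ring
  have hgi : ∀ i j, Integrable (fun ω => g i ω * g j ω) μ := by
    intro i j
    have hb : ∀ i, Integrable (g i) μ := fun i =>
      ((integrable_const 1).indicator (hE i)).sub (integrable_const _)
    apply Integrable.bdd_mul (c := 1) (hb j) (hb i).aestronglyMeasurable
    apply Eventually.of_forall
    intro ω
    rw [Real.norm_eq_abs]
    have h0 : 0 ≤ μ.real (E i) := measureReal_nonneg
    have h1 : μ.real (E i) ≤ 1 := measureReal_le_one
    simp only [hg]
    by_cases h : ω ∈ E i
    · rw [Set.indicator_of_mem h, abs_le]; constructor <;> linarith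
    · rw [Set.indicator_of_notMem h, abs_le]; constructor <;> linarith
  have hsum : ∑ i ∈ F, ∑ j ∈ F, (μ.real (E i ∩ E j) - μ.real (E i) * μ.real (E j)) =
      ∫ ω, (∑ i ∈ F, g i ω) ^ 2 ∂μ := by
    have e : (fun ω => (∑ i ∈ F, g i ω) ^ 2) = fun ω => ∑ i ∈ F, ∑ j ∈ F, g i ω * g j ω := by
      funext ω
      rw [sq, Finset.sum_mul_sum]
    rw [e, integral_finsetSum _ (fun i _ => integrable_finsetSum _ (fun j _ => hgi i j))]
    apply Finset.sum_congr rfl
    intro i _
    rw [integral_finsetSum _ (fun j _ => hgi i j)]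
    apply Finset.sum_congr rfl
    intro j _
    exact (hint i j).symm
  rw [hsum]
  set Z : Set Ω := {ω | ∀ i ∈ F, ω ∉ E i} with hZ
  have hZm : MeasurableSet Z := by
    have : Z = ⋂ i ∈ F, (E i)ᶜ := by
      ext ω; simp [hZ]
    rw [this]
    exact Finset.measurableSet_biInter F (fun i _ => (hE i).compl)
  have hle : ∀ ω, Z.indicator (fun _ => m ^ 2) ω ≤ (∑ i ∈ F, g i ω) ^ 2 := by
    intro ω
    by_cases h : ω ∈ Z
    · rw [Set.indicator_of_mem h]
      have : ∑ i ∈ F, g i ω = -m := by
        rw [hm, ← Finset.sum_neg_distrib]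
        apply Finset.sum_congr rfl
        intro i hi
        simp only [hg]
        rw [Set.indicator_of_notMem (h i hi)]
        ring
      rw [this]
      apply le_of_eq; ring
    · rw [Set.indicator_of_notMem h]
      exact sq_nonneg _
  have hintZ : ∫ ω, Z.indicator (fun _ => m ^ 2) ω ∂μ = μ.real Z * m ^ 2 := by
    rw [integral_indicator hZm]
    simp only [integral_const, smul_eq_mul, measureReal_restrict_apply MeasurableSet.univ,
      Set.univ_inter]
  rw [← hintZ]
  apply integral_mono
  · exact (integrable_const _).indicator hZm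
  · have e : (fun ω => (∑ i ∈ F, g i ω) ^ 2) = fun ω => ∑ i ∈ F, ∑ j ∈ F, g i ω * g j ω := by
      funext ω
      rw [sq, Finset.sum_mul_sum]
    rw [e]
    exact integrable_finsetSum _ (fun i _ => integrable_finsetSum _ (fun j _ => hgi i j))
  · exact hle

end Pool.Agent.H21.Hawk
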