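import Mathlib

/-!
# The Hawkins random sieve and progressions of twins inside it

The Hawkins random sieve: the numbers `2, 3, 4, ...` are examined in turn, and `n` is declared to
be a random prime with conditional probability `∏ (1 - 1/p)`, the product being over the random
primes `p < n` found so far.  We realise it from a sequence `u` of independent uniform variables on
`[0,1]`: the number `n ≥ 2` is a random prime iff `u n < survival u n`.
-/

open MeasureTheory

namespace Pool.Agent.H21.Hawk

/-- The law of a sequence of independent uniform random variables on `[0,1]`. -/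
noncomputable def uniforms : Measure (ℕ → ℝ) :=
  Measure.infinitePi fun _ : ℕ => (volume.restrict (Set.Icc (0 : ℝ) 1) : Measure ℝ)

/-- `survival u n` is the product of `1 - 1/p` over the random primes `p < n`. -/
noncomputable def survival (u : ℕ → ℝ) : ℕ → ℝ
  | 0 => 1
  | n + 1 => if 2 ≤ n ∧ u n < survival u n then survival u n * (1 - 1 / (n : ℝ)) else survival u n

/-- The set of Hawkins random primes. -/
def randomPrimes (u : ℕ → ℝ) : Set ℕ := {n | 2 ≤ n ∧ u n < survival u n}

/-- `A ∩ [0, x]` contains both members `a + k b`, `a + k b + 2` of the `l` pairs `0 ≤ k < l`, for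
some `a ≡ r` modulo `q` and some `b > 0` divisible by `q`. -/
def HasTwinAP (A : Set ℕ) (q r x l : ℕ) : Prop :=
  ∃ a b : ℕ, 0 < b ∧ q ∣ b ∧ a ≡ r [MOD q] ∧
    ∀ k < l, a + k * b ∈ A ∧ a + k * b + 2 ∈ A ∧ a + k * b + 2 ≤ x

/-- The largest number of pairs in such a progression. -/
noncomputable def longest (A : Set ℕ) (q r x : ℕ) : ℕ := sSup {l | HasTwinAP A q r x l}

end Pool.Agent.H21.Hawk
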