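import Pool.Agent.H21.HawkD

open MeasureTheory Filter Topology
open scoped ENNReal

namespace Pool.Agent.H21.Hawk

open Finset

/-- the two numbers attached to the site `s` -/
def tw (D r s : ℕ) : Finset ℕ := {D * s + r, D * s + r + 2}

lemma mem_tw {D r s n : ℕ} : n ∈ tw D r s ↔ n = D * s + r ∨ n = D * s + r + 2 := by
  simp [tw]

lemma card_tw (D r s : ℕ) : (tw D r s).card = 2 := by
  unfold tw
  rw [card_insert_of_notMem, card_singleton]
  simp

lemma tw_disj {D r s s' : ℕ} (hD : 3 ≤ D) (h : s ≠ s') : Disjoint (tw D r s) (tw D r s') := by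
  have key : ∀ {a b : ℕ}, a < b → D * a + 3 ≤ D * b := by
    intro a b hab
    calc D * a + 3 ≤ D * a + D := by omega
      _ = D * (a + 1) := by ring
      _ ≤ D * b := Nat.mul_le_mul_left D hab
  rw [disjoint_left]
  intro n hn hn'
  rw [mem_tw] at hn hn'
  rcases Nat.lt_or_gt_of_ne h with hlt | hlt
  · have := key hlt; omega
  · have := key hlt; omega

/-- numbers attached to a set of sites -/
def TT (D r : ℕ) (S : Finset ℕ) : Finset ℕ := S.biUnion (tw D r)

lemma card_TT {D : ℕ} (hD : 3 ≤ D) (r : ℕ) (S : Finset ℕ) : (TT D r S).card = 2 * S.card := by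
  unfold TT
  rw [card_biUnion (fun s _ s' _ h => tw_disj hD h), sum_const_nat (fun s _ => card_tw D r s)]
  ring

lemma TT_union (D r : ℕ) (S S' : Finset ℕ) : TT D r S ∪ TT D r S' = TT D r (S ∪ S') := by
  unfold TT
  ext n
  simp only [mem_union, mem_biUnion]
  constructor
  · rintro (⟨s, h1, h2⟩ | ⟨s, h1, h2⟩)
    · exact ⟨s, Or.inl h1, h2⟩
    · exact ⟨s, Or.inr h1, h2⟩
  · rintro ⟨s, h1 | h1, h2⟩
    · exact Or.inl ⟨s, h1, h2⟩
    · exact Or.inr ⟨s, h1, h2⟩

/-- sites of the progression -/
def sites (l : ℕ) (A : ℕ × ℕ) : Finset ℕ := (range l).image (fun k => A.1 + k * A.2)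

lemma mem_sites {l : ℕ} {A : ℕ × ℕ} {s : ℕ} : s ∈ sites l A ↔ ∃ k < l, A.1 + k * A.2 = s := by
  simp [sites]

lemma card_sites {l : ℕ} {A : ℕ × ℕ} (h : 0 < A.2) : (sites l A).card = l := by
  unfold sites
  rw [card_image_of_injective, card_range]
  intro k k' hk
  simp only at hk
  exact Nat.eq_of_mul_eq_mul_right h (by omega)

/-- the family of progressions -/
def fam (B C : ℕ) : Finset (ℕ × ℕ) := Icc 1 B ×ˢ Ioc B (B + C)

lemma mem_fam {B C : ℕ} {A : ℕ × ℕ} : A ∈ fam B C ↔
    (1 ≤ A.1 ∧ A.1 ≤ B) ∧ (B < A.2 ∧ A.2 ≤ B + C) := by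
  simp [fam]

lemma card_fam (B C : ℕ) : (fam B C).card = B * C := by
  simp [fam]

/-- with the same site and the same difference the start is determined -/
lemma start_unique {B b a a' k k' : ℕ} (hb : B < b) (ha : 1 ≤ a) (ha' : 1 ≤ a') (haB : a ≤ B)
    (haB' : a' ≤ B) (h : a + k * b = a' + k' * b) : a = a' := by
  have key : ∀ {a a' k k' : ℕ}, 1 ≤ a → a' ≤ B → a + k * b = a' + k' * b → ¬ k' < k := by
    intro a a' k k' ha haB' h hlt
    have h1 : (k' + 1) * b ≤ k * b := Nat.mul_le_mul_right b hlt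
    have h2 : (k' + 1) * b = k' * b + b := by ring
    omega
  have h1 := key ha haB' h
  have h2 := key ha' haB h.symm
  have h3 : k = k' := by omega
  subst h3
  omega

/-- two different members of the family share at most one site -/
lemma share_one {l B C : ℕ} (hlC : l * C ≤ B) {A A' : ℕ × ℕ} (hA : A ∈ fam B C)
    (hA' : A' ∈ fam B C) (hne : A ≠ A') : (sites l A ∩ sites l A').card ≤ 1 := by
  rw [mem_fam] at hA hA'
  rw [card_le_one]
  intro s hs t ht
  by_contra hst
  wlog hlt : s < t generalizing s t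
  · exact this t ht s hs (Ne.symm hst) (by omega)
  rw [mem_inter, mem_sites, mem_sites] at hs ht
  obtain ⟨⟨k1, hk1, h1⟩, ⟨k1', hk1', h1'⟩⟩ := hs
  obtain ⟨⟨k2, hk2, h2⟩, ⟨k2', hk2', h2'⟩⟩ := ht
  have hb0 : 0 < A.2 := by omega
  have hb0' : 0 < A'.2 := by omega
  have hk : k1 < k2 := by
    by_contra hge
    have := Nat.mul_le_mul_right A.2 (not_lt.mp hge)
    omega
  have hk' : k1' < k2' := by
    by_contra hge
    have := Nat.mul_le_mul_right A'.2 (not_lt.mp hge)
    omega
  have e1 : (k2 - k1) * A.2 = t - s := by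
    rw [Nat.sub_mul]; omega
  have e2 : (k2' - k1') * A'.2 = t - s := by
    rw [Nat.sub_mul]; omega
  -- the quotients coincide
  have key : ∀ {m m' b b' : ℕ}, m' < l → B < b → b' ≤ B + C → m * b = m' * b' → ¬ m' < m := by
    intro m m' b b' hm' hb hb' he hlt'
    have g1 : (m' + 1) * b ≤ m * b := Nat.mul_le_mul_right b hlt'
    have g2 : (m' + 1) * (B + 1) ≤ (m' + 1) * b := Nat.mul_le_mul_left _ hb
    have g3 : m' * b' ≤ m' * (B + C) := Nat.mul_le_mul_left _ hb'
    have g4 : m' * C ≤ l * C := Nat.mul_le_mul_right C hm'.le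
    have g5 : m' * (B + C) = m' * B + m' * C := by ring
    have g6 : (m' + 1) * (B + 1) = m' * B + m' + B + 1 := by ring
    omega
  have hm := key (m := k2 - k1) (m' := k2' - k1') (by omega) hA.2.1 hA'.2.2 (e1.trans e2.symm)
  have hm' := key (m := k2' - k1') (m' := k2 - k1) (by omega) hA'.2.1 hA.2.2 (e2.trans e1.symm)
  have hmm : k2 - k1 = k2' - k1' := by omega
  have hbb : A.2 = A'.2 := by
    rw [hmm] at e1
    exact Nat.eq_of_mul_eq_mul_left (by omega) (e1.trans e2.symm)
  apply hne
  have haa : A.1 = A'.1 := by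
    apply start_unique (b := A.2) (k := k1) (k' := k1') hA.2.1 hA.1.1 hA'.1.1 hA.1.2 hA'.1.2
    rw [h1, hbb, h1']
  exact Prod.ext haa hbb

/-- the number of members that meet a given one -/
lemma card_meet {l B C : ℕ} (A : ℕ × ℕ) :
    ((fam B C).filter (fun A' => (sites l A ∩ sites l A').Nonempty)).card ≤ l * C := by
  have hsub : (fam B C).filter (fun A' => (sites l A ∩ sites l A').Nonempty) ⊆
      (range l ×ˢ Ioc B (B + C)).biUnion (fun y =>
        (fam B C).filter (fun A' => A'.2 = y.2 ∧ A.1 + y.1 * A.2 ∈ sites l A')) := by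
    intro A' hA'
    rw [mem_filter] at hA'
    obtain ⟨hA', s, hs⟩ := hA'
    rw [mem_inter, mem_sites] at hs
    obtain ⟨⟨k, hk, hks⟩, hs'⟩ := hs
    rw [mem_biUnion]
    refine ⟨(k, A'.2), ?_, ?_⟩
    · rw [mem_product, mem_range, mem_Ioc]
      rw [mem_fam] at hA'
      exact ⟨hk, hA'.2⟩
    · rw [mem_filter]
      refine ⟨hA', rfl, ?_⟩
      simp only
      rw [hks]; exact hs'
  refine (card_le_card hsub).trans (card_biUnion_le.trans ?_)
  have : ∀ y ∈ range l ×ˢ Ioc B (B + C),
      ((fam B C).filter (fun A' => A'.2 = y.2 ∧ A.1 + y.1 * A.2 ∈ sites l A')).card ≤ 1 := by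
    intro y _
    rw [card_le_one]
    intro A1 h1 A2 h2
    rw [mem_filter, mem_fam, mem_sites] at h1 h2
    obtain ⟨f1, e1, k1, _, s1⟩ := h1
    obtain ⟨f2, e2, k2, _, s2⟩ := h2
    have hb : A1.2 = A2.2 := e1.trans e2.symm
    refine Prod.ext ?_ hb
    apply start_unique (b := A1.2) (k := k1) (k' := k2) f1.2.1 f1.1.1 f2.1.1 f1.1.2 f2.1.2
    rw [s1, hb, s2]
  refine (sum_le_sum this).trans ?_
  rw [sum_const, card_product, card_range, Nat.card_Ioc]
  simp

/-- lower bound: probability that no progression of the family is present -/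
lemma lower_prob {D : ℕ} (hD : 3 ≤ D) (r : ℕ) {l B C : ℕ} (hl : 1 ≤ l) (hC : 1 ≤ C)
    (hlC : l * C ≤ B) {p : ℝ} (hp0 : 0 < p) (hp1 : p ≤ 1) :
    uniforms.real {u | ∀ A ∈ fam B C, u ∉ cyl p (TT D r (sites l A))} ≤
      1 / ((B : ℝ) * C * p ^ (2 * l)) + l / (B * p ^ 2) := by
  have hsm := second_moment uniforms (fam B C) (fun A => cyl p (TT D r (sites l A)))
    (fun A => measurableSet_cyl p _)
  have hB : 1 ≤ B := by nlinarith
  have hP : ∀ A ∈ fam B C, uniforms.real (cyl p (TT D r (sites l A))) = p ^ (2 * l) := by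
    intro A hA
    rw [mem_fam] at hA
    rw [cyl_real hp0.le hp1, card_TT hD, card_sites (by omega)]
  have hsum : ∑ A ∈ fam B C, uniforms.real (cyl p (TT D r (sites l A))) =
      (B : ℝ) * C * p ^ (2 * l) := by
    rw [sum_congr rfl hP, sum_const, card_fam, nsmul_eq_mul]
    push_cast; ring
  have hcov : ∀ A ∈ fam B C, ∑ A' ∈ fam B C,
      (uniforms.real (cyl p (TT D r (sites l A)) ∩ cyl p (TT D r (sites l A'))) -
        uniforms.real (cyl p (TT D r (sites l A))) * uniforms.real (cyl p (TT D r (sites l A'))))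
      ≤ p ^ (2 * l) + (l * C : ℝ) * p ^ (4 * l - 2) := by
    intro A hA
    have hAf := hA
    rw [mem_fam] at hAf
    have hterm : ∀ A' ∈ fam B C,
        (uniforms.real (cyl p (TT D r (sites l A)) ∩ cyl p (TT D r (sites l A'))) -
        uniforms.real (cyl p (TT D r (sites l A))) * uniforms.real (cyl p (TT D r (sites l A'))))
        ≤ (if A' = A then p ^ (2 * l) else 0) +
          (if (sites l A ∩ sites l A').Nonempty then p ^ (4 * l - 2) else 0) := by
      intro A' hA'
      have hA'f := hA'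
      rw [mem_fam] at hA'f
      have hp2 : 0 ≤ p ^ (2 * l) := by positivity
      have hp4 : 0 ≤ p ^ (4 * l - 2) := by positivity
      rw [hP A hA, hP A' hA', cyl_inter, cyl_real hp0.le hp1, TT_union, card_TT hD]
      by_cases hAA : A' = A
      · subst hAA
        rw [union_self, card_sites (by omega), if_pos rfl]
        have : 0 ≤ p ^ (2 * l) * p ^ (2 * l) := by positivity
        split_ifs <;> linarith
      · rw [if_neg hAA]
        have hcard := card_union_add_card_inter (sites l A) (sites l A')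
        rw [card_sites (A := A) (by omega), card_sites (A := A') (by omega)] at hcard
        by_cases hne : (sites l A ∩ sites l A').Nonempty
        · rw [if_pos hne]
          have h1 := share_one hlC hA hA' (Ne.symm hAA)
          have h2 : 1 ≤ (sites l A ∩ sites l A').card := hne.card_pos
          have h3 : 2 * (sites l A ∪ sites l A').card = 4 * l - 2 := by omega
          rw [h3]
          have : 0 ≤ p ^ (2 * l) * p ^ (2 * l) := by positivity
          linarith
        · rw [if_neg hne]
          rw [not_nonempty_iff_eq_empty] at hne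
          rw [hne, card_empty] at hcard
          have h3 : 2 * (sites l A ∪ sites l A').card = 2 * l + 2 * l := by omega
          rw [h3, pow_add]
          linarith
    refine (sum_le_sum hterm).trans ?_
    rw [sum_add_distrib, sum_ite_eq' (fam B C) A, if_pos hA]
    have hm := card_meet (l := l) (B := B) (C := C) A
    rw [← sum_filter, sum_const, nsmul_eq_mul]
    have hp4 : 0 ≤ p ^ (4 * l - 2) := by positivity
    have : (((fam B C).filter (fun A' => (sites l A ∩ sites l A').Nonempty)).card : ℝ) ≤ l * C := by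
      exact_mod_cast hm
    have := mul_le_mul_of_nonneg_right this hp4
    linarith
  have htot := hsm.trans (sum_le_sum hcov)
  rw [hsum, sum_const, card_fam, nsmul_eq_mul] at htot
  have hBr : (0 : ℝ) < B := by exact_mod_cast hB
  have hCr : (0 : ℝ) < C := by exact_mod_cast hC
  have hp2 : 0 < p ^ (2 * l) := by positivity
  have hE : 0 < (B : ℝ) * C * p ^ (2 * l) := by positivity
  have h4l : p ^ (4 * l - 2) * p ^ 2 = p ^ (2 * l) * p ^ (2 * l) := by
    rw [← pow_add, ← pow_add]
    congr 1; omega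
  rw [← le_div_iff₀ (by positivity)] at htot
  refine htot.trans (le_of_eq ?_)
  push_cast
  have h4l' : p ^ (4 * l - 2) = p ^ (2 * l) * p ^ (2 * l) / p ^ 2 := by
    rw [eq_div_iff (by positivity)]; exact h4l
  rw [h4l']
  field_simp

end Pool.Agent.H21.Hawk
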