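import Pool.Agent.H21.HawkE

open MeasureTheory Filter Topology
open scoped ENNReal

namespace Pool.Agent.H21.Hawk

lemma tendsto_log_div_self : Tendsto (fun l : ℝ => Real.log l / l) atTop (𝓝 0) :=
  Real.isLittleO_log_id_atTop.tendsto_div_nhds_zero

lemma tendsto_const_div_self (C : ℝ) : Tendsto (fun l : ℝ => C / l) atTop (𝓝 0) :=
  tendsto_const_nhds.div_atTop tendsto_id

lemma tendsto_const_div_log (C : ℝ) : Tendsto (fun l : ℝ => C / Real.log l) atTop (𝓝 0) :=
  tendsto_const_nhds.div_atTop Real.tendsto_log_atTop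

/-- `ell j = log (2^(j^2))` -/
noncomputable def ell (j : ℕ) : ℝ := (j : ℝ) ^ 2 * Real.log 2

lemma ell_eq (j : ℕ) : Real.log ((2 ^ (j ^ 2) : ℕ) : ℝ) = ell j := by
  unfold ell; push_cast; rw [Real.log_pow]; push_cast; ring

lemma tendsto_ell : Tendsto ell atTop atTop := by
  unfold ell
  refine Tendsto.atTop_mul_const (Real.log_pos (by norm_num)) ?_
  exact (tendsto_pow_atTop (by norm_num)).comp tendsto_natCast_atTop_atTop

lemma ell_ge (c : ℝ) (hc : 0 < c) : ∀ᶠ j : ℕ in atTop, (j : ℝ) ≤ c * ell j := by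
  have h := (tendsto_natCast_atTop_atTop (R := ℝ)).eventually_ge_atTop (1 / (c * Real.log 2))
  filter_upwards [h] with j hj
  have hl2 : 0 < Real.log 2 := Real.log_pos (by norm_num)
  unfold ell
  rw [div_le_iff₀ (by positivity)] at hj
  have : (0 : ℝ) ≤ j := Nat.cast_nonneg j
  nlinarith

lemma tendsto_self_div_log : Tendsto (fun l : ℝ => l / Real.log l) atTop atTop := by
  have h := Real.tendsto_exp_div_pow_atTop 1
  have h2 := h.comp Real.tendsto_log_atTop
  refine h2.congr' ?_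
  filter_upwards [eventually_gt_atTop 0] with l hl
  simp [Real.exp_log hl]

/-- `(κ + 1) (log 11 + log l) ≤ (1 - ε/2) l` for `κ = (1 - ε) l / log l` -/
lemma asym_low {ε : ℝ} (hε : 0 < ε) : ∀ᶠ l : ℝ in atTop,
      ((1 - ε) * l / Real.log l + 1) * (Real.log 11 + Real.log l) ≤ (1 - ε / 2) * l := by
  have h : Tendsto (fun l : ℝ => 
      ((1 - ε) * (Real.log 11 / Real.log l + 1) + (Real.log 11 / l + Real.log l / l)))
      atTop (𝓝 (((1 - ε) * (0 + 1) + (0 + 0)))) := by
    refine ((Tendsto.const_mul _ ((tendsto_const_div_log _).add tendsto_const_nhds)).add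
        ((tendsto_const_div_self _).add tendsto_log_div_self))
  have h2 : ((1 - ε) * (0 + 1) + (0 + 0)) < 1 - ε / 2 := by linarith
  have hl := Real.tendsto_log_atTop
  filter_upwards [h.eventually_lt_const h2, eventually_gt_atTop 0,
    hl.eventually_gt_atTop 0] with l h3 h4 h5
  have e2 : ((1 - ε) * l / Real.log l + 1) * (Real.log 11 + Real.log l) =
      l * ((1 - ε) * (Real.log 11 / Real.log l + 1) + (Real.log 11 / l + Real.log l / l)) := by
    generalize Real.log 11 = a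
    have h6 := h5.ne'
    have h7 := h4.ne'
    field_simp
  rw [e2]
  nlinarith

lemma asym_small (c : ℝ) : ∀ᶠ l : ℝ in atTop, c * l / Real.log l + 1 ≤ l := by
  have h : Tendsto (fun l : ℝ => c / Real.log l + 1 / l) atTop (𝓝 (0 + 0)) :=
    (tendsto_const_div_log _).add (tendsto_const_div_self _)
  have h2 : (0 + 0 : ℝ) < 1 := by norm_num
  filter_upwards [h.eventually_lt_const h2, eventually_gt_atTop 0] with l h3 h4
  have : c * l / Real.log l + 1 = l * (c / Real.log l + 1 / l) := by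
    have := h4.ne'
    by_cases h5 : Real.log l = 0
    · simp [h5]; field_simp
    · field_simp
  rw [this]
  nlinarith

lemma asym_ge {c : ℝ} (hc : 0 < c) : ∀ᶠ l : ℝ in atTop, 1 ≤ c * l / Real.log l := by
  filter_upwards [tendsto_self_div_log.eventually_ge_atTop (1 / c)] with l h
  rw [mul_div_assoc]
  rwa [div_le_iff₀' hc] at h

lemma asym_log (c d : ℝ) : ∀ᶠ l : ℝ in atTop, c * Real.log l + d ≤ l / 2 := by
  have h : Tendsto (fun l : ℝ => c * (Real.log l / l) + d / l) atTop (𝓝 (c * 0 + 0)) :=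
    (tendsto_log_div_self.const_mul c).add (tendsto_const_div_self d)
  have h2 : (c * 0 + 0 : ℝ) < 1 / 2 := by norm_num
  filter_upwards [h.eventually_lt_const h2, eventually_gt_atTop 0] with l h3 h4
  have : c * Real.log l + d = l * (c * (Real.log l / l) + d / l) := by
    have := h4.ne'
    field_simp
  rw [this]
  nlinarith

/-- length in the lower bound -/
noncomputable def Klow (ε : ℝ) (j : ℕ) : ℕ := ⌈(1 - ε) * ell j / Real.log (ell j)⌉₊

/-- threshold in the lower bound -/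
noncomputable def plow (j : ℕ) : ℝ := 1 / (11 * ell j)

lemma two_pow_ge (M : ℝ) : ∀ᶠ j : ℕ in atTop, M * (j : ℝ) ^ 2 + M ≤ 2 ^ j := by
  have h : Tendsto (fun j : ℕ => (j : ℝ) ^ 2 / (2 : ℝ) ^ j) atTop (𝓝 0) :=
    tendsto_pow_const_div_const_pow_of_one_lt 2 (by norm_num)
  have h' : Tendsto (fun j : ℕ => (1 : ℝ) / (2 : ℝ) ^ j) atTop (𝓝 0) := by
    have := tendsto_pow_const_div_const_pow_of_one_lt 0 (show (1 : ℝ) < 2 by norm_num)
    simpa using this
  have h2 := (h.add h').const_mul M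
  rw [add_zero, mul_zero] at h2
  filter_upwards [h2.eventually_lt_const (show (0 : ℝ) < 1 by norm_num)] with j hj
  have hp : (0 : ℝ) < 2 ^ j := by positivity
  have : M * (j : ℝ) ^ 2 + M = 2 ^ j * (M * ((j : ℝ) ^ 2 / 2 ^ j + 1 / 2 ^ j)) := by
    field_simp
  rw [this]
  nlinarith

lemma low_params {ε : ℝ} (hε : 0 < ε) (hε1 : ε < 1) (D r : ℕ) : ∀ᶠ j : ℕ in atTop,
    1 ≤ Klow ε j ∧ Klow ε j * 2 ^ (j ^ 2 - 2 * j) ≤ 2 ^ (j ^ 2 - j) ∧
    0 < plow j ∧ plow j ≤ 1 ∧
    D * (2 * Klow ε j * 2 ^ (j ^ 2 - j)) + r + 2 ≤ 2 ^ (j ^ 2) := by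
  have h3 := tendsto_ell.eventually (asym_small (1 - ε))
  have h4 := tendsto_ell.eventually (asym_ge (c := 1 - ε) (by linarith))
  filter_upwards [h3, h4, tendsto_ell.eventually_ge_atTop 1, eventually_ge_atTop 2,
    two_pow_ge 1, two_pow_ge (2 * D + r + 2)] with j a3 a4 a6 a7 a8 a9
  have hl2' : Real.log 2 < 1 := by linarith [Real.log_two_lt_d9]
  set κ := (1 - ε) * ell j / Real.log (ell j) with hκ
  have hk1 : (Klow ε j : ℝ) ≤ κ + 1 := by
    unfold Klow; rw [← hκ]
    exact (Nat.ceil_lt_add_one (by linarith)).le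
  have hk0 : κ ≤ Klow ε j := by
    unfold Klow; rw [← hκ]; exact Nat.le_ceil _
  have hkj : (Klow ε j : ℝ) ≤ (j : ℝ) ^ 2 := by
    have : ell j ≤ (j : ℝ) ^ 2 := by
      unfold ell
      nlinarith [sq_nonneg (j : ℝ)]
    linarith
  have hk2 : Klow ε j ≤ 2 ^ j := by
    have : (Klow ε j : ℝ) ≤ ((2 ^ j : ℕ) : ℝ) := by push_cast; linarith
    exact_mod_cast this
  have hpos : 1 ≤ Klow ε j := by
    have : (0 : ℝ) < Klow ε j := by linarith
    have : 0 < Klow ε j := by exact_mod_cast this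
    omega
  have hj2 : 2 * j ≤ j ^ 2 := by nlinarith
  refine ⟨hpos, ?_, ?_, ?_, ?_⟩
  · have : j ^ 2 - j = (j ^ 2 - 2 * j) + j := by omega
    rw [this, pow_add, mul_comm (2 ^ (j ^ 2 - 2 * j))]
    exact Nat.mul_le_mul_right _ hk2
  · unfold plow; positivity
  · unfold plow
    rw [div_le_one (by linarith)]
    linarith
  · have h1 : 2 * D * Klow ε j + r + 2 ≤ 2 ^ j := by
      have h5 : ((2 * D * Klow ε j + r + 2 : ℕ) : ℝ) ≤ ((2 ^ j : ℕ) : ℝ) := by
        push_cast
        have hj1 : (1 : ℝ) ≤ (j : ℝ) ^ 2 := by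
          have : (1 : ℝ) ≤ j := by exact_mod_cast (by omega : 1 ≤ j)
          nlinarith
        have hD : (0 : ℝ) ≤ D := Nat.cast_nonneg D
        have hr : (0 : ℝ) ≤ r := Nat.cast_nonneg r
        nlinarith
      exact_mod_cast h5
    have h2 : 2 ^ (j ^ 2) = 2 ^ (j ^ 2 - j) * 2 ^ j := by
      rw [← pow_add]; congr 1; omega
    have h3 : 1 ≤ 2 ^ (j ^ 2 - j) := Nat.one_le_two_pow
    rw [h2]
    calc D * (2 * Klow ε j * 2 ^ (j ^ 2 - j)) + r + 2
        ≤ D * (2 * Klow ε j * 2 ^ (j ^ 2 - j)) + 2 ^ (j ^ 2 - j) * (r + 2) := by nlinarith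
      _ = 2 ^ (j ^ 2 - j) * (2 * D * Klow ε j + r + 2) := by ring
      _ ≤ 2 ^ (j ^ 2 - j) * 2 ^ j := Nat.mul_le_mul_left _ h1

lemma two_pow_exp (n : ℕ) : ((2 ^ n : ℕ) : ℝ) = Real.exp ((n : ℝ) * Real.log 2) := by
  rw [mul_comm, Real.exp_mul, Real.exp_log (by norm_num), Real.rpow_natCast]
  push_cast; rfl

lemma low_bound {ε : ℝ} (hε : 0 < ε) (hε1 : ε < 1) : ∀ᶠ j : ℕ in atTop,
    1 / (((2 ^ (j ^ 2 - j) : ℕ) : ℝ) * ((2 ^ (j ^ 2 - 2 * j) : ℕ) : ℝ) *
      plow j ^ (2 * Klow ε j)) + (Klow ε j : ℝ) / (((2 ^ (j ^ 2 - j) : ℕ) : ℝ) * plow j ^ 2) ≤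
      Real.exp (-(j : ℝ)) := by
  have h2 := tendsto_ell.eventually (asym_low hε)
  have h3 := tendsto_ell.eventually (asym_small (1 - ε))
  have h4 := tendsto_ell.eventually (asym_ge (c := 1 - ε) (by linarith))
  have h5 := tendsto_ell.eventually (asym_log 3 (Real.log 121 + Real.log 2))
  filter_upwards [h2, h3, h4, h5, ell_ge (ε / 5) (by positivity), ell_ge (1 / 4) (by norm_num),
    tendsto_ell.eventually_ge_atTop 1, eventually_ge_atTop 2] with j a2 a3 a4 a5 a6 a7 a8 a9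
  have hl2 : (0.69 : ℝ) < Real.log 2 := by linarith [Real.log_two_gt_d9]
  have hl2' : Real.log 2 < 0.7 := by linarith [Real.log_two_lt_d9]
  set κ := (1 - ε) * ell j / Real.log (ell j) with hκ
  have hk1 : (Klow ε j : ℝ) ≤ κ + 1 := by
    unfold Klow; rw [← hκ]
    exact (Nat.ceil_lt_add_one (by linarith)).le
  have hj2 : (2 : ℝ) ≤ j := by exact_mod_cast a9
  have hj2' : 2 * j ≤ j ^ 2 := by nlinarith
  have hlj : 0 ≤ Real.log (ell j) := Real.log_nonneg a8
  have hell : ell j = (j : ℝ) ^ 2 * Real.log 2 := rfl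
  have hep : 0 < ell j := by linarith
  have hp0 : 0 < plow j := by unfold plow; positivity
  have hlogp : Real.log (plow j) = -(Real.log 11 + Real.log (ell j)) := by
    unfold plow
    rw [one_div, Real.log_inv, Real.log_mul (by norm_num) hep.ne']
  have hB : ((2 ^ (j ^ 2 - j) : ℕ) : ℝ) = Real.exp (ell j - j * Real.log 2) := by
    rw [two_pow_exp, hell, ← sub_mul, Nat.cast_sub (by omega)]
    push_cast; rfl
  have hC : ((2 ^ (j ^ 2 - 2 * j) : ℕ) : ℝ) = Real.exp (ell j - 2 * j * Real.log 2) := by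
    rw [two_pow_exp, hell, ← sub_mul, Nat.cast_sub (by omega)]
    push_cast; rfl
  have hpp : ∀ n : ℕ, plow j ^ n = Real.exp (-(n * (Real.log 11 + Real.log (ell j)))) := by
    intro n
    have : -(n * (Real.log 11 + Real.log (ell j))) = Real.log (plow j) * n := by
      rw [hlogp]; ring
    rw [this, Real.exp_mul, Real.exp_log hp0, Real.rpow_natCast]
  have hl11 : 0 ≤ Real.log 11 := Real.log_nonneg (by norm_num)
  have hexp2 : Real.exp (-(j : ℝ)) = Real.exp (-(j : ℝ) - Real.log 2) +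
      Real.exp (-(j : ℝ) - Real.log 2) := by
    rw [Real.exp_sub, Real.exp_log (by norm_num)]; ring
  rw [hexp2]
  apply add_le_add
  · rw [hB, hC, hpp, ← Real.exp_add, ← Real.exp_add, one_div, ← Real.exp_neg]
    apply Real.exp_le_exp.2
    have h6 : (Klow ε j : ℝ) * (Real.log 11 + Real.log (ell j)) ≤ (1 - ε / 2) * ell j :=
      (mul_le_mul_of_nonneg_right hk1 (by linarith)).trans a2
    push_cast
    have h7 : 5 * (j : ℝ) ≤ ε * ell j := by linarith
    nlinarith
  · have h8 : (Klow ε j : ℝ) ≤ ell j := by linarith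
    have h9 : Real.exp (Real.log (ell j)) = ell j := Real.exp_log hep
    rw [hB, hpp, ← Real.exp_add, div_eq_mul_inv, ← Real.exp_neg]
    calc (Klow ε j : ℝ) * Real.exp (-(ell j - j * Real.log 2 +
          -(((2 : ℕ) : ℝ) * (Real.log 11 + Real.log (ell j)))))
        ≤ Real.exp (Real.log (ell j)) * Real.exp (-(ell j - j * Real.log 2 +
          -(((2 : ℕ) : ℝ) * (Real.log 11 + Real.log (ell j))))) := by
          rw [h9]
          gcongr
      _ = Real.exp (Real.log (ell j) + (-(ell j - j * Real.log 2 +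
          -(((2 : ℕ) : ℝ) * (Real.log 11 + Real.log (ell j)))))) := by rw [← Real.exp_add]
      _ ≤ Real.exp (-(j : ℝ) - Real.log 2) := by
          apply Real.exp_le_exp.2
          have h121 : Real.log 121 = 2 * Real.log 11 := by
            rw [show (121 : ℝ) = 11 ^ 2 by norm_num, Real.log_pow]; norm_num
          push_cast
          rw [h121] at a5
          nlinarith

end Pool.Agent.H21.Hawk
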