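import Pool.Agent.H21.HawkF

open MeasureTheory Filter Topology
open scoped ENNReal

namespace Pool.Agent.H21.Hawk

open Finset

lemma tsum_ne_top_of_eventually {f : ℕ → ℝ≥0∞} (hf : ∀ j, f j ≤ 1)
    (h : ∀ᶠ j : ℕ in atTop, f j ≤ ENNReal.ofReal (Real.exp (-(j : ℝ)))) : ∑' j, f j ≠ ∞ := by
  obtain ⟨J, hJ⟩ := eventually_atTop.1 h
  have hs : Summable (fun j : ℕ => Real.exp (-(j : ℝ)) + if j < J then 1 else 0) := by
    apply Summable.add
    · exact Real.summable_exp_neg_nat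
    · exact summable_of_ne_finset_zero (s := Finset.range J) (fun b hb => by
        simp only [Finset.mem_range] at hb; simp [hb])
  refine ne_top_of_le_ne_top (ENNReal.ofReal_ne_top
    (r := ∑' j : ℕ, (Real.exp (-(j : ℝ)) + if j < J then 1 else 0))) ?_
  rw [ENNReal.ofReal_tsum_of_nonneg (fun j => by
    have := Real.exp_pos (-(j : ℝ))
    split_ifs <;> linarith) hs]
  apply ENNReal.tsum_le_tsum
  intro j
  by_cases hj : j < J
  · refine (hf j).trans ?_
    rw [if_pos hj, ← ENNReal.ofReal_one]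
    apply ENNReal.ofReal_le_ofReal
    linarith [Real.exp_pos (-(j : ℝ))]
  · rw [if_neg hj, add_zero]
    exact hJ j (by omega)

/-- lower bound -/
lemma ae_lower {q : ℕ} (hq : 1 ≤ q) (r : ℕ) {ε : ℝ} (hε : 0 < ε) (hε1 : ε < 1) :
    ∀ᵐ u ∂uniforms, ∀ᶠ j : ℕ in atTop,
      HasTwinAP (randomPrimes u) q r (2 ^ (j ^ 2)) (Klow ε j) := by
  have h1 : ∀ᵐ u ∂uniforms, ∀ᶠ j : ℕ in atTop,
      u ∉ {u : ℕ → ℝ | ∀ A ∈ fam (2 ^ (j ^ 2 - j)) (2 ^ (j ^ 2 - 2 * j)),
        u ∉ cyl (plow j) (TT (3 * q) r (sites (Klow ε j) A))} := by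
    apply ae_eventually_notMem
    apply tsum_ne_top_of_eventually (fun j => prob_le_one)
    filter_upwards [low_params hε hε1 (3 * q) r, low_bound hε hε1] with j ⟨a1, a2, a3, a4, _⟩ hj
    have h := lower_prob (D := 3 * q) (by omega) r (l := Klow ε j) (B := 2 ^ (j ^ 2 - j))
      (C := 2 ^ (j ^ 2 - 2 * j)) a1 Nat.one_le_two_pow a2 a3 a4
    have h2 := h.trans hj
    rw [Measure.real] at h2
    rw [← ENNReal.ofReal_toReal (measure_ne_top uniforms _)]
    exact ENNReal.ofReal_le_ofReal h2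
  filter_upwards [h1, ae_Y_bounds] with u hu ⟨m₀, hm₀⟩
  filter_upwards [hu, eventually_ge_atTop (m₀ + 2), low_params hε hε1 (3 * q) r] with j hj hjm
    ⟨a1, a2, a3, a4, a5⟩
  simp only [not_forall, not_not] at hj
  obtain ⟨A, hA, hAu⟩ := hj
  rw [mem_fam] at hA
  have hjx : m₀ ≤ 2 ^ (j ^ 2) := by
    calc m₀ ≤ j := by omega
      _ ≤ j ^ 2 := by nlinarith
      _ ≤ 2 ^ (j ^ 2) := Nat.lt_two_pow_self.le
  have hsurv : ∀ n ≤ 2 ^ (j ^ 2), plow j ≤ survival u n := by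
    intro n hn
    refine le_trans ?_ (survival_anti u hn)
    have hY := (hm₀ _ hjx).2
    have hs : survival u (2 ^ (j ^ 2)) = 1 / Y u (2 ^ (j ^ 2)) := by simp [Y]
    rw [hs, plow, ← ell_eq]
    exact one_div_le_one_div_of_le (Y_pos u _) hY
  refine ⟨3 * q * A.1 + r, 3 * q * A.2, ?_, ?_, ?_, ?_⟩
  · have : 0 < A.2 := by omega
    positivity
  · exact ⟨3 * A.2, by ring⟩
  · have : 3 * q * A.1 + r ≡ 0 + r [MOD q] := by
      apply Nat.ModEq.add_right
      exact (Nat.modEq_zero_iff_dvd).mpr ⟨3 * A.1, by ring⟩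
    rwa [zero_add] at this
  · intro k hk
    have e : 3 * q * A.1 + r + k * (3 * q * A.2) = 3 * q * (A.1 + k * A.2) + r := by ring
    rw [e]
    have hs : A.1 + k * A.2 ∈ sites (Klow ε j) A := mem_sites.mpr ⟨k, hk, rfl⟩
    have hC : 2 ^ (j ^ 2 - 2 * j) ≤ 2 ^ (j ^ 2 - j) := by
      calc 2 ^ (j ^ 2 - 2 * j) ≤ Klow ε j * 2 ^ (j ^ 2 - 2 * j) := Nat.le_mul_of_pos_left _ a1
        _ ≤ _ := a2
    have hle : A.1 + k * A.2 ≤ 2 * Klow ε j * 2 ^ (j ^ 2 - j) := by
      have h1 : k * A.2 ≤ (Klow ε j - 1) * (2 * 2 ^ (j ^ 2 - j)) :=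
        Nat.mul_le_mul (by omega) (by omega)
      have h2 : (Klow ε j - 1) * (2 * 2 ^ (j ^ 2 - j)) + 2 * 2 ^ (j ^ 2 - j) =
          2 * Klow ε j * 2 ^ (j ^ 2 - j) := by
        obtain ⟨m, hm⟩ : ∃ m, Klow ε j = m + 1 := ⟨Klow ε j - 1, by omega⟩
        rw [hm, Nat.add_sub_cancel]; ring
      omega
    have hbound : 3 * q * (A.1 + k * A.2) + r + 2 ≤ 2 ^ (j ^ 2) := by
      have := Nat.mul_le_mul_left (3 * q) hle
      omega
    have hpos : 3 ≤ 3 * q * (A.1 + k * A.2) := by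
      have : 1 ≤ q * (A.1 + k * A.2) := Nat.mul_pos hq (by omega)
      nlinarith
    have hmem : ∀ n ∈ tw (3 * q) r (A.1 + k * A.2), u n < plow j := by
      intro n hn
      apply hAu
      unfold TT
      rw [mem_biUnion]
      exact ⟨_, hs, hn⟩
    refine ⟨⟨by omega, ?_⟩, ⟨by omega, ?_⟩, hbound⟩
    · exact (hmem _ (mem_tw.mpr (Or.inl rfl))).trans_le (hsurv _ (by omega))
    · exact (hmem _ (mem_tw.mpr (Or.inr rfl))).trans_le (hsurv _ hbound)

/-- the length used in the upper bound -/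
noncomputable def Kup (ε : ℝ) (j : ℕ) : ℕ := ⌈(1 + ε) * ell j / Real.log (ell j)⌉₊ + 2

/-- threshold in the upper bound -/
noncomputable def cup (j : ℕ) : ℝ := 10 / ell (j - 1)

lemma asym_up {ε : ℝ} (hε : 0 < ε) : ∀ᶠ l : ℝ in atTop,
    (1 + ε / 2) * l ≤ ((1 + ε) * l / Real.log l) * (Real.log l - Real.log 40) := by
  have h : Tendsto (fun l : ℝ => (1 + ε) * (1 - Real.log 40 / Real.log l))
      atTop (𝓝 ((1 + ε) * (1 - 0))) :=
    Tendsto.const_mul _ (tendsto_const_nhds.sub (tendsto_const_div_log _))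
  have h2 : 1 + ε / 2 < (1 + ε) * (1 - 0) := by linarith
  have hl := Real.tendsto_log_atTop
  filter_upwards [h.eventually_const_lt h2, eventually_gt_atTop 0,
    hl.eventually_gt_atTop 0] with l h3 h4 h5
  have e : ((1 + ε) * l / Real.log l) * (Real.log l - Real.log 40) =
      l * ((1 + ε) * (1 - Real.log 40 / Real.log l)) := by
    have h6 := h5.ne'
    field_simp
  rw [e]
  nlinarith

lemma up_bound {ε : ℝ} (hε : 0 < ε) : ∀ᶠ j : ℕ in atTop,
    0 ≤ cup j ∧ cup j ≤ 1 ∧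
    ((2 ^ (j ^ 2) + 1 : ℕ) : ℝ) * cup j ^ (Kup ε j - 1) ≤ Real.exp (-(j : ℝ)) / 3 := by
  have h1 := tendsto_ell.eventually (asym_up hε)
  have h2 := tendsto_ell.eventually (asym_ge (c := 1 + ε) (by linarith))
  filter_upwards [h1, h2, tendsto_ell.eventually_ge_atTop 40, eventually_ge_atTop 2,
    ell_ge (ε / 4) (by positivity), tendsto_ell.eventually_ge_atTop (4 / ε * (Real.log 2 + Real.log 3))]
    with j a1 a2 a3 a4 a5 a6
  have hj2 : (2 : ℝ) ≤ j := by exact_mod_cast a4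
  have hl2 : 0 < Real.log 2 := Real.log_pos (by norm_num)
  have hell1 : ell j / 4 ≤ ell (j - 1) := by
    unfold ell
    rw [Nat.cast_sub (by omega)]
    push_cast
    have : (j : ℝ) ^ 2 / 4 ≤ ((j : ℝ) - 1) ^ 2 := by nlinarith
    nlinarith
  have hpos : 0 < ell (j - 1) := by linarith
  have hc0 : 0 < cup j := by unfold cup; positivity
  have hc40 : cup j ≤ 40 / ell j := by
    unfold cup
    rw [div_le_div_iff₀ hpos (by linarith)]
    linarith
  have hc1 : cup j ≤ 1 := hc40.trans (by rw [div_le_one (by linarith)]; exact a3)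
  refine ⟨hc0.le, hc1, ?_⟩
  set κ := (1 + ε) * ell j / Real.log (ell j) with hκ
  have hK : κ ≤ ((Kup ε j - 1 : ℕ) : ℝ) := by
    have : Kup ε j - 1 = ⌈κ⌉₊ + 1 := by rw [Kup, ← hκ]; omega
    rw [this]; push_cast
    linarith [Nat.le_ceil κ]
  have hlogc : Real.log (cup j) ≤ -(Real.log (ell j) - Real.log 40) := by
    refine (Real.log_le_log hc0 hc40).trans ?_
    rw [Real.log_div (by norm_num) (by linarith)]
    linarith
  have hlog40 : 0 ≤ Real.log (ell j) - Real.log 40 := by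
    have := Real.log_le_log (by norm_num) a3
    linarith
  have hpow : cup j ^ (Kup ε j - 1) ≤ Real.exp (-((1 + ε / 2) * ell j)) := by
    have : cup j ^ (Kup ε j - 1) = Real.exp (Real.log (cup j) * ((Kup ε j - 1 : ℕ) : ℝ)) := by
      rw [Real.exp_mul, Real.exp_log hc0, Real.rpow_natCast]
    rw [this]
    apply Real.exp_le_exp.2
    have h5 : κ * (Real.log (ell j) - Real.log 40) ≤
        ((Kup ε j - 1 : ℕ) : ℝ) * (Real.log (ell j) - Real.log 40) :=
      mul_le_mul_of_nonneg_right hK hlog40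
    have h6 : Real.log (cup j) * ((Kup ε j - 1 : ℕ) : ℝ) ≤
        -(Real.log (ell j) - Real.log 40) * ((Kup ε j - 1 : ℕ) : ℝ) :=
      mul_le_mul_of_nonneg_right hlogc (Nat.cast_nonneg _)
    linarith
  have hN : ((2 ^ (j ^ 2) + 1 : ℕ) : ℝ) ≤ Real.exp (Real.log 2 + ell j) := by
    rw [Real.exp_add, Real.exp_log (by norm_num), ← ell_eq, Real.exp_log (by positivity)]
    push_cast
    have : (1 : ℝ) ≤ 2 ^ (j ^ 2) := one_le_pow₀ (by norm_num)
    linarith
  have h3 : Real.exp (-(j : ℝ)) / 3 = Real.exp (-(j : ℝ) - Real.log 3) := by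
    rw [Real.exp_sub, Real.exp_log (by norm_num)]
  rw [h3]
  calc ((2 ^ (j ^ 2) + 1 : ℕ) : ℝ) * cup j ^ (Kup ε j - 1)
      ≤ Real.exp (Real.log 2 + ell j) * Real.exp (-((1 + ε / 2) * ell j)) := by
        apply mul_le_mul hN hpow (pow_nonneg hc0.le _) (Real.exp_pos _).le
    _ = Real.exp (Real.log 2 + ell j + -((1 + ε / 2) * ell j)) := by rw [← Real.exp_add]
    _ ≤ Real.exp (-(j : ℝ) - Real.log 3) := by
        apply Real.exp_le_exp.2
        have h7 : Real.log 2 + Real.log 3 ≤ ε / 4 * ell j := by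
          have h8 := mul_le_mul_of_nonneg_left a6 (show (0 : ℝ) ≤ ε / 4 by positivity)
          have h9 : ε / 4 * (4 / ε * (Real.log 2 + Real.log 3)) = Real.log 2 + Real.log 3 := by
            field_simp
          linarith
        linarith

/-- coordinates used for the progression `(a, b)` in the upper bound -/
def UT (K a b : ℕ) : Finset ℕ :=
  if 3 ≤ b then (Ico 1 K).biUnion (fun k => {a + k * b, a + k * b + 2})
  else (Ico 1 K).image (fun k => a + k * b)

lemma card_UT_large {K a b : ℕ} (hb : 3 ≤ b) : (UT K a b).card = 2 * (K - 1) := by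
  unfold UT
  rw [if_pos hb, card_biUnion, sum_const_nat (m := 2)]
  · rw [Nat.card_Ico]; ring
  · intro k _
    rw [card_insert_of_notMem, card_singleton]
    simp
  · intro k _ k' _ hkk
    have key : ∀ {k k' : ℕ}, k < k' → k * b + 3 ≤ k' * b := by
      intro k k' h
      calc k * b + 3 ≤ k * b + b := by omega
        _ = (k + 1) * b := by ring
        _ ≤ k' * b := Nat.mul_le_mul_right b h
    rw [Function.onFun, disjoint_left]
    intro n hn hn'
    rw [mem_insert, mem_singleton] at hn hn'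
    rcases Nat.lt_or_gt_of_ne hkk with h | h
    · have := key h; omega
    · have := key h; omega

lemma card_UT_small {K a b : ℕ} (hb : ¬ 3 ≤ b) (hb0 : 0 < b) : (UT K a b).card = K - 1 := by
  unfold UT
  rw [if_neg hb, card_image_of_injective, Nat.card_Ico]
  intro k k' hk
  simp only at hk
  exact Nat.eq_of_mul_eq_mul_right hb0 (by omega)

lemma upper_prob {x K : ℕ} {c : ℝ} (hc0 : 0 ≤ c) (hc1 : c ≤ 1)
    (hy : ((x + 1 : ℕ) : ℝ) * c ^ (K - 1) ≤ 1) :
    uniforms {u | ∃ a ≤ x, ∃ b ≤ x, 0 < b ∧ u ∈ cyl c (UT K a b)} ≤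
      ENNReal.ofReal (3 * (((x + 1 : ℕ) : ℝ) * c ^ (K - 1))) := by
  have hsub : {u : ℕ → ℝ | ∃ a ≤ x, ∃ b ≤ x, 0 < b ∧ u ∈ cyl c (UT K a b)} ⊆
      ⋃ y ∈ (range (x + 1)) ×ˢ (Icc 1 x), cyl c (UT K y.1 y.2) := by
    rintro u ⟨a, ha, b, hb, hb0, hu⟩
    simp only [Set.mem_iUnion]
    exact ⟨(a, b), by rw [mem_product, mem_range, mem_Icc]; exact ⟨by simp only; omega, hb0, hb⟩, hu⟩
  refine (measure_mono hsub).trans ((measure_biUnion_finset_le _ _).trans ?_)
  set y : ℝ := ((x + 1 : ℕ) : ℝ) * c ^ (K - 1) with hydef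
  have hcK : 0 ≤ c ^ (K - 1) := pow_nonneg hc0 _
  have hy0 : 0 ≤ y := by positivity
  set g : ℕ → ℝ := fun b => if b ∈ ({1, 2} : Finset ℕ) then c ^ (K - 1) else 0 with hg
  have hg0 : ∀ b, 0 ≤ g b := by
    intro b
    simp only [hg]
    split_ifs
    · exact hcK
    · exact le_rfl
  have h1 : ∀ z ∈ (range (x + 1)) ×ˢ (Icc 1 x), uniforms (cyl c (UT K z.1 z.2)) ≤
      ENNReal.ofReal ((c ^ (K - 1)) ^ 2 + g z.2) := by
    intro z hz
    rw [mem_product, mem_Icc] at hz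
    rw [cyl_prob hc0 hc1]
    apply ENNReal.ofReal_le_ofReal
    by_cases hb : 3 ≤ z.2
    · rw [card_UT_large hb, mul_comm, pow_mul]
      linarith [hg0 z.2]
    · have hg1 : g z.2 = c ^ (K - 1) := by
        simp only [hg]
        rw [if_pos (by simp; omega)]
      rw [card_UT_small hb (by omega), hg1]
      have : 0 ≤ (c ^ (K - 1)) ^ 2 := sq_nonneg _
      linarith
  refine (sum_le_sum h1).trans ?_
  rw [← ENNReal.ofReal_sum_of_nonneg (fun z _ => add_nonneg (sq_nonneg _) (hg0 _))]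
  apply ENNReal.ofReal_le_ofReal
  have h7 : ∑ z ∈ (range (x + 1)) ×ˢ (Icc 1 x), g z.2 =
      ((x + 1 : ℕ) : ℝ) * ∑ b ∈ Icc 1 x, g b := by
    rw [sum_product]
    simp only
    rw [sum_const, card_range, nsmul_eq_mul]
  rw [sum_add_distrib, h7, sum_const, card_product, card_range, Nat.card_Icc]
  have h2 : ∑ b ∈ Icc 1 x, g b ≤ 2 * c ^ (K - 1) := by
    simp only [hg]
    rw [← sum_filter, sum_const, nsmul_eq_mul]
    apply mul_le_mul_of_nonneg_right _ hcK
    have h3 : ((Icc 1 x).filter (fun b => b ∈ ({1, 2} : Finset ℕ))).card ≤ 2 := by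
      refine (card_le_card (t := ({1, 2} : Finset ℕ)) ?_).trans (card_le_two)
      intro b hb
      exact (mem_filter.mp hb).2
    exact_mod_cast h3
  have hx0 : (0 : ℝ) ≤ x := Nat.cast_nonneg x
  have h4 : (((x + 1) * (x + 1 - 1) : ℕ) : ℝ) * (c ^ (K - 1)) ^ 2 ≤ y ^ 2 := by
    rw [hydef, mul_pow]
    apply mul_le_mul_of_nonneg_right _ (sq_nonneg _)
    rw [Nat.add_sub_cancel]
    push_cast
    nlinarith
  have h5 : y ^ 2 ≤ y := by nlinarith
  have h6 : ((x + 1 : ℕ) : ℝ) * ∑ b ∈ Icc 1 x, g b ≤ 2 * y := by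
    calc ((x + 1 : ℕ) : ℝ) * ∑ b ∈ Icc 1 x, g b
        ≤ ((x + 1 : ℕ) : ℝ) * (2 * c ^ (K - 1)) := by gcongr
      _ = 2 * y := by rw [hydef]; ring
  rw [nsmul_eq_mul]
  linarith

end Pool.Agent.H21.Hawk
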