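import Pool.Agent.H21.HawkG

open MeasureTheory Filter Topology
open scoped ENNReal

namespace Pool.Agent.H21.Hawk

open Finset

/-- almost surely, in late blocks there is no long progression -/
lemma ae_block {ε : ℝ} (hε : 0 < ε) : ∀ᵐ u ∂uniforms, ∀ᶠ j : ℕ in atTop,
    ∀ a ≤ 2 ^ (j ^ 2), ∀ b ≤ 2 ^ (j ^ 2), 0 < b → u ∉ cyl (cup j) (UT (Kup ε j) a b) := by
  have h1 : ∀ᵐ u ∂uniforms, ∀ᶠ j : ℕ in atTop,
      u ∉ {u : ℕ → ℝ | ∃ a ≤ 2 ^ (j ^ 2), ∃ b ≤ 2 ^ (j ^ 2), 0 < b ∧
        u ∈ cyl (cup j) (UT (Kup ε j) a b)} := by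
    apply ae_eventually_notMem
    apply tsum_ne_top_of_eventually (fun j => prob_le_one)
    filter_upwards [up_bound hε] with j ⟨h0, h1, h2⟩
    have h3 : Real.exp (-(j : ℝ)) ≤ 1 := by
      rw [Real.exp_le_one_iff]
      have : (0 : ℝ) ≤ j := Nat.cast_nonneg j
      linarith
    refine (upper_prob h0 h1 (by linarith)).trans ?_
    apply ENNReal.ofReal_le_ofReal
    linarith
  filter_upwards [h1] with u hu
  filter_upwards [hu] with j hj a ha b hb hb0 hmem
  exact hj ⟨a, ha, b, hb, hb0, hmem⟩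

/-- no infinite progression in the random primes -/
lemma ae_finite : ∀ᵐ u ∂uniforms, ∀ a b : ℕ, 0 < b → ∃ k, a + k * b ∉ randomPrimes u := by
  have h1 : ∀ᵐ u ∂uniforms, ∀ a b m : ℕ, 0 < b → ∃ k, ¬ u (a + (m + k) * b) < 1 / 2 := by
    rw [ae_all_iff]; intro a
    rw [ae_all_iff]; intro b
    rw [ae_all_iff]; intro m
    by_cases hb : 0 < b
    · rw [ae_iff]
      have hle : ∀ n : ℕ, uniforms {u | ¬ (0 < b → ∃ k, ¬ u (a + (m + k) * b) < 1 / 2)} ≤
          ENNReal.ofReal ((1 / 2 : ℝ) ^ n) := by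
        intro n
        have hcard : ((range n).image (fun k => a + (m + k) * b)).card = n := by
          rw [card_image_of_injective, card_range]
          intro k k' hk
          simp only at hk
          have h2 : (m + k) * b = (m + k') * b := by omega
          have := Nat.eq_of_mul_eq_mul_right hb h2
          omega
        have h2 := cyl_prob (p := 1 / 2) (by norm_num) (by norm_num)
          ((range n).image (fun k => a + (m + k) * b))
        rw [hcard] at h2
        rw [← h2]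
        apply measure_mono
        intro u hu
        have hu' : ∀ k, u (a + (m + k) * b) < 1 / 2 := by
          by_contra hcon
          push Not at hcon
          exact hu (fun _ => by
            obtain ⟨k, hk⟩ := hcon
            exact ⟨k, not_lt.mpr hk⟩)
        intro x hx
        rw [mem_image] at hx
        obtain ⟨k, _, rfl⟩ := hx
        exact hu' k
      apply le_antisymm _ bot_le
      have hlim : Tendsto (fun n : ℕ => ENNReal.ofReal ((1 / 2 : ℝ) ^ n)) atTop (𝓝 0) := by
        rw [← ENNReal.ofReal_zero]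
        exact (ENNReal.continuous_ofReal.tendsto 0).comp
          (tendsto_pow_atTop_nhds_zero_of_lt_one (by norm_num) (by norm_num))
      exact ge_of_tendsto' hlim hle
    · exact Eventually.of_forall fun u h => absurd h hb
  filter_upwards [h1, ae_Y_bounds] with u hu ⟨m₀, hm₀⟩ a b hb
  by_contra hcon
  push Not at hcon
  -- survival is at most 1/2 from some point on
  have hlog : ∀ᶠ m : ℕ in atTop, (20 : ℝ) ≤ Real.log m :=
    (Real.tendsto_log_atTop.comp tendsto_natCast_atTop_atTop).eventually_ge_atTop 20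
  obtain ⟨m₁, hm₁⟩ := eventually_atTop.1 hlog
  obtain ⟨k, hk⟩ := hu a b (max m₀ m₁) hb
  apply hk
  have hmem := (hcon (max m₀ m₁ + k)).2
  set n := a + (max m₀ m₁ + k) * b with hn
  have hnm : max m₀ m₁ ≤ n := by
    have : (max m₀ m₁ + k) * 1 ≤ (max m₀ m₁ + k) * b := Nat.mul_le_mul_left _ hb
    omega
  have h2 := (hm₀ n (le_trans (le_max_left _ _) hnm)).1
  have h3 := hm₁ n (le_trans (le_max_right _ _) hnm)
  have hs : survival u n = 1 / Y u n := by simp [Y]
  rw [hs] at hmem
  refine hmem.trans_le ?_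
  apply one_div_le_one_div_of_le (by norm_num)
  linarith

lemma phi_mono {a b : ℝ} (ha : Real.exp 1 ≤ a) (hab : a ≤ b) :
    a / Real.log a ≤ b / Real.log b := by
  have hb : Real.exp 1 ≤ b := ha.trans hab
  have h := Real.log_div_self_antitoneOn (a := a) (b := b) ha hb hab
  simp only at h
  have ha0 : 0 < a := (Real.exp_pos 1).trans_le ha
  have hb0 : 0 < b := (Real.exp_pos 1).trans_le hb
  have hla : 0 < Real.log a := Real.log_pos (by
    have := Real.add_one_le_exp (1 : ℝ); linarith)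
  have hlb : 0 < Real.log b := Real.log_pos (by
    have := Real.add_one_le_exp (1 : ℝ); linarith)
  rw [div_le_div_iff₀ hb0 ha0] at h
  rw [div_le_div_iff₀ hla hlb]
  linarith

lemma ell_mono {i j : ℕ} (h : i ≤ j) : ell i ≤ ell j := by
  unfold ell
  have hl : 0 ≤ Real.log 2 := (Real.log_pos (by norm_num)).le
  have : (i : ℝ) ≤ j := by exact_mod_cast h
  gcongr

lemma Kup_mono {ε : ℝ} (hε : 0 < ε) {i j : ℕ} (hi : Real.exp 1 ≤ ell i) (h : i ≤ j) :
    Kup ε i ≤ Kup ε j := by
  unfold Kup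
  apply Nat.add_le_add_right
  apply Nat.ceil_mono
  rw [mul_div_assoc, mul_div_assoc]
  exact mul_le_mul_of_nonneg_left (phi_mono hi (ell_mono h)) (by linarith)

lemma tendsto_Kup {ε : ℝ} (hε : 0 < ε) : Tendsto (Kup ε) atTop atTop := by
  have h1 : Tendsto (fun j : ℕ => (1 + ε) * (ell j / Real.log (ell j))) atTop atTop :=
    (tendsto_self_div_log.comp tendsto_ell).const_mul_atTop (by linarith)
  have h2 : Tendsto (fun j : ℕ => ((Kup ε j : ℕ) : ℝ)) atTop atTop := by
    apply tendsto_atTop_mono _ h1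
    intro j
    unfold Kup
    push_cast
    have := Nat.le_ceil ((1 + ε) * ell j / Real.log (ell j))
    rw [mul_div_assoc] at this ⊢
    linarith
  exact tendsto_natCast_atTop_iff.mp h2

/-- upper bound -/
lemma ae_upper {ε : ℝ} (hε : 0 < ε) : ∀ᵐ u ∂uniforms, ∀ᶠ j : ℕ in atTop,
    ¬ HasTwinAP (randomPrimes u) 1 0 (2 ^ (j ^ 2)) (Kup ε j) := by
  filter_upwards [ae_block hε, ae_finite, ae_Y_bounds] with u hblock hfin ⟨m₀, hm₀⟩
  obtain ⟨J₀, hJ₀⟩ := eventually_atTop.1 (hblock.and (tendsto_ell.eventually_ge_atTop (Real.exp 1)))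
  set J := max J₀ (m₀ + 1) with hJ
  -- bound for the small progressions
  classical
  choose! κ hκ using hfin
  set K0 := ((range (2 ^ (J ^ 2) + 1)) ×ˢ (range (2 ^ (J ^ 2) + 1))).sup (fun z => κ z.1 z.2)
    with hK0
  filter_upwards [(tendsto_Kup hε).eventually_gt_atTop K0, eventually_ge_atTop J] with j hjK hjJ
  rintro ⟨a, b, hb0, -, -, hAP⟩
  have hK2 : 2 ≤ Kup ε j := by unfold Kup; omega
  have hab : a ≤ 2 ^ (j ^ 2) ∧ b ≤ 2 ^ (j ^ 2) := by
    have := (hAP 1 (by omega)).2.2
    constructor <;> omega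
  -- the block of the progression
  have hex : ∃ i, max a b ≤ 2 ^ (i ^ 2) := ⟨j, max_le hab.1 hab.2⟩
  have hi1 := Nat.find_spec hex
  have hi2 : ∀ m < Nat.find hex, ¬ max a b ≤ 2 ^ (m ^ 2) := fun m hm => Nat.find_min hex hm
  have hij : Nat.find hex ≤ j := Nat.find_min' hex (max_le hab.1 hab.2)
  generalize Nat.find hex = i at hi1 hi2 hij
  by_cases hiJ : i ≤ J
  · -- small progression
    have h1 : max a b ≤ 2 ^ (J ^ 2) :=
      hi1.trans (Nat.pow_le_pow_right (by norm_num) (Nat.pow_le_pow_left hiJ 2))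
    have h2 : κ a b ≤ K0 := by
      rw [hK0]
      apply le_sup (f := fun z : ℕ × ℕ => κ z.1 z.2) (b := (a, b))
      rw [mem_product, mem_range, mem_range]
      have := le_max_left a b
      have := le_max_right a b
      constructor <;> (simp only; omega)
    exact hκ a b hb0 (hAP (κ a b) (by omega)).1
  · push Not at hiJ
    have hJi : J ≤ i - 1 := by omega
    have hmax : 2 ^ ((i - 1) ^ 2) < max a b := by
      have := hi2 (i - 1) (by omega)
      omega
    have hbl := (hJ₀ i (by omega)).1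
    apply hbl a ((le_max_left a b).trans hi1) b ((le_max_right a b).trans hi1) hb0
    have hKm : Kup ε i ≤ Kup ε j := Kup_mono hε (hJ₀ i (by omega)).2 hij
    have hell0 : 0 < ell (i - 1) := (Real.exp_pos 1).trans_le (hJ₀ (i - 1) (by omega)).2
    -- random primes beyond the block start are small
    have key : ∀ n, max a b ≤ n → n ∈ randomPrimes u → u n < cup i := by
      intro n hn hmem
      refine hmem.2.trans_le ?_
      have hn0 : 2 ^ ((i - 1) ^ 2) ≤ n := by omega
      have hnm : m₀ ≤ n := by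
        have h4 : i - 1 ≤ (i - 1) ^ 2 := by nlinarith
        have h5 : (i - 1) ^ 2 < 2 ^ ((i - 1) ^ 2) := Nat.lt_two_pow_self
        have h6 : m₀ + 1 ≤ J := le_max_right _ _
        omega
      have hY := (hm₀ n hnm).1
      have hlogn : ell (i - 1) ≤ Real.log n := by
        rw [← ell_eq]
        apply Real.log_le_log (by positivity)
        exact_mod_cast hn0
      have hs : survival u n = 1 / Y u n := by simp [Y]
      rw [hs, cup, div_le_div_iff₀ (Y_pos u n) hell0]
      linarith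
    intro n hn
    unfold UT at hn
    split_ifs at hn with hb3
    · rw [mem_biUnion] at hn
      obtain ⟨k, hk, hn⟩ := hn
      rw [mem_Ico] at hk
      have hAPk := hAP k (by omega)
      have hge : max a b ≤ a + k * b := by
        have : 1 * b ≤ k * b := Nat.mul_le_mul_right b hk.1
        rcases max_cases a b with h | h <;> omega
      rw [mem_insert, mem_singleton] at hn
      rcases hn with rfl | rfl
      · exact key _ hge hAPk.1
      · exact key _ (by omega) hAPk.2.1
    · rw [mem_image] at hn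
      obtain ⟨k, hk, rfl⟩ := hn
      rw [mem_Ico] at hk
      have hAPk := hAP k (by omega)
      have hge : max a b ≤ a + k * b := by
        have : 1 * b ≤ k * b := Nat.mul_le_mul_right b hk.1
        rcases max_cases a b with h | h <;> omega
      exact key _ hge hAPk.1

/-! ### deterministic conclusion -/

lemma HasTwinAP.mono {A : Set ℕ} {q r x x' l l' : ℕ} (h : HasTwinAP A q r x l) (hl : l' ≤ l)
    (hx : x ≤ x') : HasTwinAP A q r x' l' := by
  obtain ⟨a, b, h1, h2, h3, h4⟩ := h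
  refine ⟨a, b, h1, h2, h3, fun k hk => ?_⟩
  have := h4 k (by omega)
  exact ⟨this.1, this.2.1, by omega⟩

lemma HasTwinAP.one {A : Set ℕ} {q r x l : ℕ} (h : HasTwinAP A q r x l) : HasTwinAP A 1 0 x l := by
  obtain ⟨a, b, h1, h2, h3, h4⟩ := h
  exact ⟨a, b, h1, one_dvd _, Nat.modEq_one, h4⟩

lemma lengths_bdd {A : Set ℕ} {q r x : ℕ} : ∀ l, HasTwinAP A q r x l → l ≤ x + 1 := by
  intro l h
  by_contra hlt
  push Not at hlt
  obtain ⟨a, b, h1, -, -, h4⟩ := h
  have := (h4 (l - 1) (by omega)).2.2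
  have h5 : (l - 1) * 1 ≤ (l - 1) * b := Nat.mul_le_mul_left _ h1
  omega

lemma hasTwinAP_zero {A : Set ℕ} {q r x : ℕ} (hq : 1 ≤ q) : HasTwinAP A q r x 0 :=
  ⟨r, q, hq, dvd_refl q, Nat.ModEq.refl r, fun k hk => absurd hk (by omega)⟩

lemma longest_mem {A : Set ℕ} {q r x : ℕ} (hq : 1 ≤ q) :
    HasTwinAP A q r x (longest A q r x) := by
  have := Nat.sSup_mem (s := {l | HasTwinAP A q r x l}) ⟨0, hasTwinAP_zero hq⟩
    ⟨x + 1, fun l hl => lengths_bdd l hl⟩
  exact this

lemma le_longest {A : Set ℕ} {q r x l : ℕ} (h : HasTwinAP A q r x l) : l ≤ longest A q r x :=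
  le_csSup ⟨x + 1, fun l hl => lengths_bdd l hl⟩ h

/-- the block index -/
noncomputable def jx (x : ℕ) : ℕ := Nat.sqrt (Nat.log 2 x)

lemma jx_le {x : ℕ} (hx : 1 ≤ x) : 2 ^ ((jx x) ^ 2) ≤ x := by
  calc 2 ^ ((jx x) ^ 2) ≤ 2 ^ (Nat.log 2 x) := Nat.pow_le_pow_right (by norm_num) (by
        unfold jx; exact Nat.sqrt_le' _)
    _ ≤ x := Nat.pow_log_le_self 2 (by omega)

lemma lt_jx (x : ℕ) : x < 2 ^ ((jx x + 1) ^ 2) := by
  calc x < 2 ^ (Nat.log 2 x + 1) := Nat.lt_pow_succ_log_self (by norm_num) x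
    _ ≤ 2 ^ ((jx x + 1) ^ 2) := Nat.pow_le_pow_right (by norm_num) (by
        unfold jx
        have := Nat.lt_succ_sqrt' (Nat.log 2 x)
        exact this)

lemma tendsto_jx : Tendsto jx atTop atTop := by
  rw [tendsto_atTop]
  intro b
  filter_upwards [eventually_ge_atTop (2 ^ (b ^ 2))] with x hx
  by_contra h
  have h1 : jx x + 1 ≤ b := by omega
  have h2 := lt_jx x
  have h3 : 2 ^ ((jx x + 1) ^ 2) ≤ 2 ^ (b ^ 2) :=
    Nat.pow_le_pow_right (by norm_num) (Nat.pow_le_pow_left h1 2)
  omega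

lemma tendsto_ratio : Tendsto (fun j : ℕ => ell (j + 1) / ell j) atTop (𝓝 1) := by
  have h1 : Tendsto (fun j : ℕ => (1 + 1 / (j : ℝ)) ^ 2) atTop (𝓝 ((1 + 0) ^ 2)) :=
    (tendsto_const_nhds.add tendsto_one_div_atTop_nhds_zero_nat).pow 2
  rw [add_zero, one_pow] at h1
  refine h1.congr' ?_
  filter_upwards [eventually_ge_atTop 1] with j hj
  have hj' : (j : ℝ) ≠ 0 := by
    have : (0 : ℝ) < j := by exact_mod_cast hj
    exact this.ne'
  have hl : Real.log 2 ≠ 0 := (Real.log_pos (by norm_num)).ne'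
  unfold ell
  push_cast
  field_simp

/-- upper and lower estimates along the sequence imply the asymptotic -/
lemma final_det {A : Set ℕ} {q r : ℕ} (hq : 1 ≤ q)
    (hup : ∀ m : ℕ, ∀ᶠ j : ℕ in atTop,
      ¬ HasTwinAP A 1 0 (2 ^ (j ^ 2)) (Kup (1 / ((m : ℝ) + 2)) j))
    (hlow : ∀ m : ℕ, ∀ᶠ j : ℕ in atTop,
      HasTwinAP A q r (2 ^ (j ^ 2)) (Klow (1 / ((m : ℝ) + 2)) j)) :
    Tendsto (fun x : ℕ => (longest A q r x : ℝ) / (Real.log x / Real.log (Real.log x)))
      atTop (𝓝 1) := by
  rw [Metric.tendsto_nhds]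
  intro δ hδ
  -- choose m with small epsilon
  obtain ⟨m, hm⟩ := exists_nat_gt (4 / min δ 1)
  set ε : ℝ := 1 / ((m : ℝ) + 2) with hε
  have hδ' : 0 < min δ 1 := lt_min hδ one_pos
  have hεpos : 0 < ε := by positivity
  have hm0 : (0 : ℝ) < (m : ℝ) + 2 := by positivity
  have hεδ : ε < min δ 1 / 4 := by
    rw [hε, div_lt_iff₀ hm0]
    rw [div_lt_iff₀ hδ'] at hm
    nlinarith
  have hε1 : ε < 1 := by
    have := min_le_right δ 1
    linarith
  have hφ := (tendsto_self_div_log.comp tendsto_ell)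
  have hup' := (tendsto_jx.eventually ((tendsto_add_atTop_nat 1).eventually (hup m)))
  have hlow' := tendsto_jx.eventually (hlow m)
  have hr := tendsto_jx.eventually (tendsto_ratio.eventually_lt_const (show (1 : ℝ) < 1 + ε by linarith))
  have hφ' := tendsto_jx.eventually (hφ.eventually_ge_atTop (2 / ε))
  have he := tendsto_jx.eventually (tendsto_ell.eventually_ge_atTop (Real.exp 1))
  filter_upwards [hup', hlow', hr, hφ', he, eventually_ge_atTop 1] with x a1 a2 a3 a4 a5 a6
  simp only [Function.comp_apply] at a4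
  set j := jx x with hj
  have hx1 : 2 ^ (j ^ 2) ≤ x := jx_le a6
  have hx2 : x < 2 ^ ((j + 1) ^ 2) := lt_jx x
  have hexp1 : (1 : ℝ) < Real.exp 1 := by have := Real.add_one_le_exp (1 : ℝ); linarith
  have hLx1 : ell j ≤ Real.log x := by
    rw [← ell_eq]; apply Real.log_le_log (by positivity); exact_mod_cast hx1
  have hLx2 : Real.log x ≤ ell (j + 1) := by
    rw [← ell_eq]; apply Real.log_le_log (by positivity); exact_mod_cast hx2.le
  have hΦ1 := phi_mono a5 hLx1
  have hΦ2 := phi_mono (a5.trans hLx1) hLx2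
  have hlj : 0 < Real.log (ell j) := Real.log_pos (by linarith)
  have hej : 0 < ell j := by linarith [Real.exp_pos (1 : ℝ)]
  have hΦ3 : ell (j + 1) / Real.log (ell (j + 1)) ≤ (1 + ε) * (ell j / Real.log (ell j)) := by
    have h1 : Real.log (ell j) ≤ Real.log (ell (j + 1)) :=
      Real.log_le_log hej (ell_mono (by omega))
    have h0 : 0 < ell (j + 1) := hej.trans_le (ell_mono (by omega))
    calc ell (j + 1) / Real.log (ell (j + 1)) ≤ ell (j + 1) / Real.log (ell j) :=
          div_le_div_of_nonneg_left h0.le hlj h1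
      _ = (ell (j + 1) / ell j) * (ell j / Real.log (ell j)) := by field_simp
      _ ≤ (1 + ε) * (ell j / Real.log (ell j)) :=
          mul_le_mul_of_nonneg_right a3.le (by positivity)
  set Φ := Real.log x / Real.log (Real.log x) with hΦ
  set Φj := ell j / Real.log (ell j) with hΦj
  have hΦjpos : 0 < Φj := by positivity
  have hΦpos : 0 < Φ := by linarith
  -- upper estimate
  have hU : (longest A q r x : ℝ) ≤ (1 + ε) * ((1 + ε) * Φj) + ε * Φj := by
    have h1 : longest A q r x + 1 ≤ Kup ε (j + 1) := by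
      by_contra hlt
      have h0 : HasTwinAP A 1 0 x (longest A q r x) := (longest_mem hq).one
      have h1 : Kup ε (j + 1) ≤ longest A q r x := by omega
      exact a1 (h0.mono h1 hx2.le)
    have h2 : (longest A q r x : ℝ) + 1 ≤ Kup ε (j + 1) := by exact_mod_cast h1
    have h3 : (Kup ε (j + 1) : ℝ) ≤ (1 + ε) * (ell (j + 1) / Real.log (ell (j + 1))) + 3 := by
      unfold Kup
      push_cast
      have hnn : 0 ≤ (1 + ε) * ell (j + 1) / Real.log (ell (j + 1)) := by
        have h0 : 0 < ell (j + 1) := hej.trans_le (ell_mono (by omega))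
        have h1 : 0 < Real.log (ell (j + 1)) :=
          hlj.trans_le (Real.log_le_log hej (ell_mono (by omega)))
        positivity
      have := Nat.ceil_lt_add_one hnn
      rw [mul_div_assoc] at this ⊢
      linarith
    have h4 : (1 + ε) * (ell (j + 1) / Real.log (ell (j + 1))) ≤ (1 + ε) * ((1 + ε) * Φj) :=
      mul_le_mul_of_nonneg_left hΦ3 (by linarith)
    have h5 : 2 ≤ ε * Φj := by
      rw [div_le_iff₀' hεpos] at a4; exact a4
    linarith
  -- lower estimate
  have hL : (1 - ε) * Φj ≤ (longest A q r x : ℝ) := by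
    have h1 : Klow ε j ≤ longest A q r x := le_longest (a2.mono le_rfl hx1)
    have h2 : ((Klow ε j : ℕ) : ℝ) ≤ (longest A q r x : ℝ) := by exact_mod_cast h1
    have h3 : (1 - ε) * Φj ≤ (Klow ε j : ℝ) := by
      unfold Klow
      rw [mul_div_assoc]
      exact Nat.le_ceil _
    linarith
  have hmin1 := min_le_left δ 1
  have hmin2 := min_le_right δ 1
  rw [Real.dist_eq, abs_lt]
  constructor
  · rw [lt_sub_iff_add_lt, lt_div_iff₀ hΦpos]
    have h1 : Φ ≤ (1 + ε) * Φj := hΦ2.trans hΦ3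
    have h2 : (-δ + 1) * Φ < (1 - ε) * Φj := by
      by_cases h : 0 ≤ -δ + 1
      · calc (-δ + 1) * Φ ≤ (-δ + 1) * ((1 + ε) * Φj) := mul_le_mul_of_nonneg_left h1 h
          _ < (1 - ε) * Φj := by
            rw [← mul_assoc]
            apply mul_lt_mul_of_pos_right _ hΦjpos
            have : ε < δ / 4 := by linarith
            nlinarith
      · push Not at h
        have h3 : (-δ + 1) * Φ < 0 := mul_neg_of_neg_of_pos h hΦpos
        have h4 : 0 ≤ (1 - ε) * Φj := mul_nonneg (by linarith) hΦjpos.le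
        linarith
    linarith
  · rw [sub_lt_iff_lt_add, div_lt_iff₀ hΦpos]
    have h1 : (1 + ε) * ((1 + ε) * Φj) + ε * Φj < (δ + 1) * Φj := by
      have : (1 + ε) * ((1 + ε) * Φj) + ε * Φj = ((1 + ε) * (1 + ε) + ε) * Φj := by ring
      rw [this]
      apply mul_lt_mul_of_pos_right _ hΦjpos
      nlinarith
    have h2 : (δ + 1) * Φj ≤ (δ + 1) * Φ := mul_le_mul_of_nonneg_left hΦ1 (by linarith)
    linarith

theorem main : ∀ᵐ u ∂uniforms, ∀ q r : ℕ, 1 ≤ q →
    Tendsto (fun x : ℕ => (longest (randomPrimes u) q r x : ℝ) /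
      (Real.log x / Real.log (Real.log x))) atTop (𝓝 1) := by
  have h1 : ∀ᵐ u ∂uniforms, ∀ m : ℕ, ∀ᶠ j : ℕ in atTop,
      ¬ HasTwinAP (randomPrimes u) 1 0 (2 ^ (j ^ 2)) (Kup (1 / ((m : ℝ) + 2)) j) := by
    rw [ae_all_iff]
    intro m
    exact ae_upper (by positivity)
  have h2 : ∀ᵐ u ∂uniforms, ∀ q r : ℕ, 1 ≤ q → ∀ m : ℕ, ∀ᶠ j : ℕ in atTop,
      HasTwinAP (randomPrimes u) q r (2 ^ (j ^ 2)) (Klow (1 / ((m : ℝ) + 2)) j) := by
    rw [ae_all_iff]; intro q
    rw [ae_all_iff]; intro r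
    by_cases hq : 1 ≤ q
    · have h3 : ∀ᵐ u ∂uniforms, ∀ m : ℕ, ∀ᶠ j : ℕ in atTop,
          HasTwinAP (randomPrimes u) q r (2 ^ (j ^ 2)) (Klow (1 / ((m : ℝ) + 2)) j) := by
        rw [ae_all_iff]
        intro m
        refine ae_lower hq r (by positivity) ?_
        rw [div_lt_one (by positivity)]
        have : (0 : ℝ) ≤ m := Nat.cast_nonneg m
        linarith
      filter_upwards [h3] with u hu _
      exact hu
    · exact Eventually.of_forall fun u h => absurd h hq
  filter_upwards [h1, h2] with u hu1 hu2 q r hq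
  exact final_det hq hu1 (hu2 q r hq)

/-- in particular there are arbitrarily long progressions -/
lemma exists_of_tendsto {A : Set ℕ} {q r : ℕ} (hq : 1 ≤ q)
    (h : Tendsto (fun x : ℕ => (longest A q r x : ℝ) / (Real.log x / Real.log (Real.log x)))
      atTop (𝓝 1)) (l : ℕ) : ∃ x, HasTwinAP A q r x l := by
  have h1 : Tendsto (fun x : ℕ => Real.log x / Real.log (Real.log x)) atTop atTop :=
    tendsto_self_div_log.comp (Real.tendsto_log_atTop.comp tendsto_natCast_atTop_atTop)
  have h2 := h.eventually_const_lt (show (1 / 2 : ℝ) < 1 by norm_num)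
  obtain ⟨x, hx1, hx2⟩ := (h2.and (h1.eventually_ge_atTop (2 * l + 1 : ℝ))).exists
  have h3 : (0 : ℝ) < Real.log x / Real.log (Real.log x) := by
    have : (0 : ℝ) ≤ l := Nat.cast_nonneg l
    linarith
  rw [lt_div_iff₀ h3] at hx1
  have h4 : (l : ℝ) ≤ longest A q r x := by linarith
  have h5 : l ≤ longest A q r x := by exact_mod_cast h4
  exact ⟨x, (longest_mem hq).mono h5 le_rfl⟩

end Pool.Agent.H21.Hawk
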