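import Mathlib
import Pool.Agent.H21.Basic
import Pool.Agent.H21.Good

/-!
Full length progressions of twin primes in `K[X]`, `K` a finite field of odd characteristic with
more than three elements.
-/

open Polynomial

namespace Pool.Agent.H21

universe u

/-- `X^(2p) - X^2 - c` -/
noncomputable def A (K : Type u) [Field K] (p : ℕ) (c : K) : K[X] := X ^ (2 * p) - X ^ 2 - C c

/-- `X^p - X` -/
noncomputable def B (K : Type u) [Field K] (p : ℕ) : K[X] := X ^ p - X

lemma natCast_pow_char {K : Type u} [Field K] {p : ℕ} [Fact p.Prime] [CharP K p] (k : ℕ) :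
    (k : K) ^ p = k := by
  rw [← map_natCast (ZMod.castHom dvd_rfl K), ← map_pow, ZMod.pow_card]

lemma comp_eq {K : Type u} [Field K] {p : ℕ} [Fact p.Prime] [CharP K p] (c : K) (k : ℕ) :
    (AS K p c).comp (X ^ 2 + C (k : K) * X) = A K p c + (k : K[X]) * B K p := by
  have : ExpChar K p := ExpChar.prime Fact.out
  have : ExpChar K[X] p := inferInstance
  unfold AS A B
  simp only [sub_comp, pow_comp, X_comp, C_comp]
  rw [add_pow_expChar, mul_pow, ← C_pow, natCast_pow_char, ← pow_mul]
  rw [show (k : K[X]) = C (k : K) by simp]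
  ring

lemma lift_base {K : Type u} [Field K] [Fintype K] {p r : ℕ} [Fact p.Prime] [CharP K p]
    (hp2 : p ≠ 2) {c : K} (hc : Good K p r c) (k : ℕ) :
    Lift K r (A K p c + (k : K[X]) * B K p) := by
  have hp : p.Prime := Fact.out
  have hpodd : Odd p := hp.odd_of_ne_two hp2
  obtain ⟨h1, h2, h3⟩ := hc
  have h20 : (2 : K) ≠ 0 := by
    intro h
    have : ((2 : ℕ) : K) = 0 := by exact_mod_cast h
    rw [CharP.cast_eq_zero_iff K p] at this
    have := (Nat.prime_dvd_prime_iff_eq hp Nat.prime_two).mp this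
    exact hp2 this
  have hmon := AS_monic K hp.two_le c
  have hdeg := AS_natDegree K hp.two_le c
  have hgdeg : (X ^ 2 + C (k : K) * X : K[X]).natDegree = 2 := by compute_degree!
  have hgmon : (X ^ 2 + C (k : K) * X : K[X]).Monic := by
    apply monic_X_pow_add
    refine (degree_C_mul_X_le _).trans_lt ?_
    norm_num
  rw [← comp_eq]
  refine ⟨hmon.comp hgmon (by rw [hgdeg]; norm_num), ?_, ?_, ?_⟩
  · apply quad_irreducible (c := c) h20 hmon (AS_irreducible K p c h1) (by rw [hdeg]; exact hpodd)
      _ h2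
    unfold AS
    simp only [eval_sub, eval_pow, eval_X, eval_C]
    rw [hpodd.neg_pow, ← pow_mul, mul_comm 2 p, pow_mul, div_pow, natCast_pow_char]
    have h2p : (2 : K) ^ p = 2 := by
      have := natCast_pow_char (K := K) (p := p) 2
      exact_mod_cast this
    rw [h2p]
    ring
  · rw [natDegree_comp, hgdeg]
    exact even_two.mul_left _
  · intro b
    rw [coeff_zero_eq_eval_zero, eval_comp]
    unfold AS
    simp only [eval_add, eval_pow, eval_X, eval_mul, eval_C, eval_sub]
    rw [zero_pow two_ne_zero, mul_zero, add_zero, zero_pow hp.ne_zero, sub_zero, zero_sub]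
    exact h3 b

lemma natDegree_B {K : Type u} [Field K] {p : ℕ} (hp : 1 < p) : (B K p).natDegree = p :=
  FiniteField.X_pow_card_sub_X_natDegree_eq K hp

theorem main_gt (K : Type u) [Field K] [Fintype K] (p : ℕ) [Fact p.Prime] [CharP K p]
    (hp2 : p ≠ 2) (h3 : 3 < Fintype.card K) (h : K) (hh : h ≠ 0) (N : ℕ) :
    ∃ a b : K[X], N < a.natDegree ∧ N < b.natDegree ∧
      ∀ k : ℕ, Irreducible (a + (k : K[X]) * b) ∧ Irreducible (a + (k : K[X]) * b + C h) := by
  have hp : p.Prime := Fact.out
  obtain ⟨r, hr, c, c', hcc, hc, hc'⟩ := exists_good K p hp2 h3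
  have hd : c - c' ≠ 0 := sub_ne_zero.mpr hcc
  set u : K := h / (c - c') with hu
  have hu0 : u ≠ 0 := div_ne_zero hh hd
  have hunit : IsUnit (C u : K[X]) := isUnit_C.mpr (isUnit_iff_ne_zero.mpr hu0)
  have hrN : N < r ^ N := Nat.lt_pow_self hr.one_lt
  have key : ∀ e : K, Good K p r e → ∀ k : ℕ,
      Irreducible (C u * expand K (r ^ N) (A K p e + (k : K[X]) * B K p)) := by
    intro e he k
    rw [irreducible_isUnit_mul hunit]
    exact ((lift_base hp2 he k).expand_pow hr N).2.1
  refine ⟨C u * expand K (r ^ N) (A K p c), C u * expand K (r ^ N) (B K p), ?_, ?_, ?_⟩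
  · rw [natDegree_C_mul hu0, natDegree_expand]
    have h1 : (A K p c).natDegree = 2 * p := by
      have h2 := (lift_base (K := K) hp2 hc 0).1
      have h3 : A K p c = (AS K p c).comp (X ^ 2 + C ((0 : ℕ) : K) * X) := by
        rw [comp_eq]; simp
      rw [h3, natDegree_comp, AS_natDegree K hp.two_le]
      have : (X ^ 2 + C ((0 : ℕ) : K) * X : K[X]).natDegree = 2 := by compute_degree!
      rw [this]; ring
    rw [h1]
    have := hp.pos
    nlinarith
  · rw [natDegree_C_mul hu0, natDegree_expand, natDegree_B hp.one_lt]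
    have := hp.pos
    nlinarith
  · intro k
    have e1 : C u * expand K (r ^ N) (A K p c) + (k : K[X]) * (C u * expand K (r ^ N) (B K p))
        = C u * expand K (r ^ N) (A K p c + (k : K[X]) * B K p) := by
      rw [map_add, map_mul, map_natCast]; ring
    have e2 : C u * expand K (r ^ N) (A K p c) + (k : K[X]) * (C u * expand K (r ^ N) (B K p)) + C h
        = C u * expand K (r ^ N) (A K p c' + (k : K[X]) * B K p) := by
      rw [e1]
      have e3 : (C h : K[X]) = C u * expand K (r ^ N) (C (c - c')) := by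
        rw [expand_C, ← C_mul, hu, div_mul_cancel₀ _ hd]
      rw [e3, ← mul_add, ← map_add]
      congr 2
      unfold A
      rw [C_sub]; ring
    rw [e2, e1]
    exact ⟨key c hc k, key c' hc' k⟩

end Pool.Agent.H21
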