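import Mathlib

/-!
The field with three elements: an explicit progression of three twin prime quintics, which stays
irreducible under all substitutions `X ↦ X^(11^j)`.
-/

open Polynomial IntermediateField

namespace Pool.Agent.H21

universe u

lemma cert_0_0 {L : Type*} [Field L] (h3 : (3 : L) = 0) (α : L)
    (hP : (1) + (-1)*α^2 + (-1)*α^3 + (1)*α^4 + (1)*α^5 = 0) : α ^ 9 ≠ α ∧ α ^ 22 ≠ 1 := by
  constructor
  · intro h
    apply one_ne_zero (α := L)
    linear_combination ((1) + (-1)*α^2 + (1)*α^3 + (1)*α^4 + (-1)*α^5) * hP + ((1)*α) * h + ((1)*α^2 + (-1)*α^4 + (1)*α^6 + (-1)*α^8) * h3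
  · intro h
    apply one_ne_zero (α := L)
    linear_combination ((1) + (-1)*α^2 + (1)*α^3 + (-1)*α^4 + (-1)*α^5 + (1)*α^6 + (1)*α^7 + (1)*α^9 + (1)*α^10 + (-1)*α^11 + (1)*α^12 + (-1)*α^13 + (1)*α^14 + (1)*α^17 + (1)*α^20 + (-1)*α^21) * hP + ((1)*α^2 + (1)*α^4) * h + ((1)*α^2 + (-1)*α^7 + (1)*α^9 + (-1)*α^14 + (-1)*α^24) * h3

lemma cert_0_1 {L : Type*} [Field L] (h3 : (3 : L) = 0) (α : L)
    (hP : (2) + (-1)*α^2 + (-1)*α^3 + (1)*α^4 + (1)*α^5 = 0) : α ^ 9 ≠ α ∧ α ^ 22 ≠ 1 := by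
  constructor
  · intro h
    apply one_ne_zero (α := L)
    linear_combination ((-1) + (-1)*α + (-1)*α^3 + (-1)*α^5) * hP + ((1) + (1)*α) * h + ((1) + (1)*α + (1)*α^5) * h3
  · intro h
    apply one_ne_zero (α := L)
    linear_combination ((-1)*α + (1)*α^3 + (1)*α^4 + (1)*α^5 + (-1)*α^7 + (1)*α^8 + (1)*α^10 + (1)*α^11 + (-1)*α^12 + (-1)*α^13 + (1)*α^14 + (1)*α^15 + (-1)*α^17 + (-1)*α^18) * hP + ((-1) + (1)*α) * h + ((1)*α + (-1)*α^3 + (-1)*α^4 + (1)*α^6 + (1)*α^7 + (-1)*α^8 + (-1)*α^9 + (-1)*α^10 + (1)*α^12 + (1)*α^13 + (-1)*α^14 + (-2)*α^15 + (2)*α^17 + (1)*α^18 + (-1)*α^19 + (-1)*α^20 + (1)*α^22) * h3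

lemma cert_1_0 {L : Type*} [Field L] (h3 : (3 : L) = 0) (α : L)
    (hP : (1) + (-1)*α + (1)*α^5 = 0) : α ^ 9 ≠ α ∧ α ^ 22 ≠ 1 := by
  constructor
  · intro h
    apply one_ne_zero (α := L)
    linear_combination ((1) + (-1)*α + (1)*α^2 + (-1)*α^3 + (1)*α^4 + (1)*α^5 + (-1)*α^6 + (1)*α^7 + (-1)*α^8) * hP + ((1) + (-1)*α + (1)*α^2 + (-1)*α^3 + (1)*α^4) * h + ((1)*α + (-1)*α^2 + (1)*α^3 + (-1)*α^4 + (1)*α^6 + (-1)*α^7 + (1)*α^8 + (-1)*α^9) * h3
  · intro h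
    apply one_ne_zero (α := L)
    linear_combination ((-1) + (1)*α + (1)*α^3 + (1)*α^5 + (-1)*α^8 + (-1)*α^9 + (1)*α^10 + (1)*α^11 + (1)*α^12 + (-1)*α^13 + (-1)*α^15 + (1)*α^16 + (1)*α^18 + (1)*α^19 + (-1)*α^20 + (1)*α^21) * hP + ((1) + (-1)*α + (-1)*α^2 + (1)*α^3 + (-1)*α^4) * h + ((1) + (-1)*α + (-1)*α^10 + (1)*α^13 + (-1)*α^16 + (1)*α^20 + (-1)*α^21) * h3

lemma cert_1_1 {L : Type*} [Field L] (h3 : (3 : L) = 0) (α : L)
    (hP : (2) + (-1)*α + (1)*α^5 = 0) : α ^ 9 ≠ α ∧ α ^ 22 ≠ 1 := by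
  constructor
  · intro h
    apply one_ne_zero (α := L)
    linear_combination ((-1) + (-1)*α + (-1)*α^2 + (-1)*α^3 + (-1)*α^4 + (1)*α^5 + (1)*α^6 + (1)*α^7 + (1)*α^8) * hP + ((-1) + (-1)*α + (-1)*α^2 + (-1)*α^3 + (-1)*α^4) * h + ((1) + (-1)*α^5 + (1)*α^9) * h3
  · intro h
    apply one_ne_zero (α := L)
    linear_combination ((1) + (1)*α + (1)*α^3 + (1)*α^5 + (1)*α^8 + (-1)*α^9 + (-1)*α^10 + (1)*α^11 + (-1)*α^12 + (-1)*α^13 + (-1)*α^15 + (-1)*α^16 + (-1)*α^18 + (1)*α^19 + (1)*α^20 + (1)*α^21) * hP + ((1) + (1)*α + (-1)*α^2 + (-1)*α^3 + (-1)*α^4) * h + ((-1)*α^3 + (-1)*α^5 + (-1)*α^8 + (1)*α^9 + (-1)*α^11 + (1)*α^12 + (1)*α^15 + (1)*α^18 + (-1)*α^19) * h3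

lemma cert_2_0 {L : Type*} [Field L] (h3 : (3 : L) = 0) (α : L)
    (hP : (1) + (-2)*α + (1)*α^2 + (1)*α^3 + (-1)*α^4 + (1)*α^5 = 0) : α ^ 9 ≠ α ∧ α ^ 22 ≠ 1 := by
  constructor
  · intro h
    apply one_ne_zero (α := L)
    linear_combination ((1) + (1)*α^2 + (-1)*α^3 + (1)*α^4 + (-1)*α^5 + (-1)*α^6 + (-1)*α^7 + (-1)*α^8) * hP + ((1) + (-1)*α + (1)*α^2 + (1)*α^4) * h + ((1)*α + (-1)*α^2 + (1)*α^3 + (-1)*α^4 + (1)*α^5 + (-1)*α^7 + (1)*α^8 + (-1)*α^9 + (1)*α^10) * h3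
  · intro h
    apply one_ne_zero (α := L)
    linear_combination ((-1)*α + (1)*α^3 + (1)*α^5 + (-1)*α^6 + (1)*α^7 + (1)*α^8 + (-1)*α^10 + (-1)*α^11 + (-1)*α^12 + (-1)*α^13 + (-1)*α^14 + (-1)*α^16 + (-1)*α^17 + (-1)*α^18 + (1)*α^19) * hP + ((-1) + (-1)*α + (-1)*α^2) * h + ((-1)*α^2 + (1)*α^4 + (-1)*α^5 + (1)*α^6 + (-1)*α^7 + (1)*α^9 + (-1)*α^10 + (1)*α^16 + (1)*α^20 + (1)*α^23) * h3

lemma cert_2_1 {L : Type*} [Field L] (h3 : (3 : L) = 0) (α : L)
    (hP : (2) + (-2)*α + (1)*α^2 + (1)*α^3 + (-1)*α^4 + (1)*α^5 = 0) : α ^ 9 ≠ α ∧ α ^ 22 ≠ 1 := by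
  constructor
  · intro h
    apply one_ne_zero (α := L)
    linear_combination ((-1) + (1)*α + (1)*α^2 + (-1)*α^3 + (1)*α^4 + (1)*α^8) * hP + ((1) + (-1)*α + (-1)*α^2 + (1)*α^3 + (-1)*α^4) * h + ((1) + (-1)*α + (1)*α^3 + (-2)*α^4 + (1)*α^5 + (-1)*α^7) * h3
  · intro h
    apply one_ne_zero (α := L)
    linear_combination ((-1)*α + (1)*α^2 + (-1)*α^4 + (1)*α^5 + (1)*α^6 + (-1)*α^7 + (-1)*α^8 + (1)*α^10 + (-1)*α^11 + (-1)*α^13 + (1)*α^15 + (-1)*α^16 + (1)*α^17 + (-1)*α^19 + (-1)*α^20 + (-1)*α^21) * hP + ((-1) + (1)*α + (1)*α^2 + (1)*α^4) * h + ((1)*α + (-1)*α^2 + (1)*α^3 + (1)*α^4 + (-2)*α^5 + (1)*α^6 + (1)*α^7 + (-1)*α^8 + (1)*α^11 + (-1)*α^12 + (1)*α^13 + (-1)*α^15 + (2)*α^16 + (-2)*α^17 + (1)*α^18 + (1)*α^19 + (-1)*α^20 + (1)*α^21) * h3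

lemma irr3 (K : Type u) [Field K] [Fintype K] (hK : Fintype.card K = 3) (P : K[X])
    (hm : P.Monic) (hd : P.natDegree = 5)
    (h9 : ∀ (L : Type u) [Field L] [Algebra K L] (α : L), aeval α P = 0 → α ^ 9 ≠ α)
    (h22 : ∀ (L : Type u) [Field L] [Algebra K L] (α : L), aeval α P = 0 → α ^ 22 ≠ 1) (j : ℕ) :
    Irreducible (expand K (11 ^ j) P) := by
  have hirr : Irreducible P := by
    have hP1 : P ≠ 1 := by
      rintro rfl
      rw [natDegree_one] at hd; omega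
    rw [hm.irreducible_iff_natDegree']
    refine ⟨hP1, ?_⟩
    intro f g hf hg hfg hgd
    rw [Finset.mem_Ioc, hd] at hgd
    have hgu : ¬ IsUnit g := fun h => by
      have := natDegree_eq_zero_of_isUnit h; omega
    obtain ⟨q, hq, hqg⟩ := WfDvdMonoid.exists_irreducible_factor hgu hg.ne_zero
    have := Fact.mk hq
    let L := AdjoinRoot q
    let α : L := AdjoinRoot.root q
    have hqd : q.natDegree ≤ 2 := (natDegree_le_of_dvd hqg hg.ne_zero).trans hgd.2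
    have hqd0 : 0 < q.natDegree :=
      natDegree_pos_iff_degree_pos.mpr (Polynomial.degree_pos_of_irreducible hq)
    have : FiniteDimensional K L := (AdjoinRoot.powerBasis hq.ne_zero).finite
    have : Finite L := Module.finite_of_finite K
    have : Fintype L := Fintype.ofFinite L
    have hcardL : Fintype.card L = 3 ^ q.natDegree := by
      rw [Module.card_eq_pow_finrank (K := K), (AdjoinRoot.powerBasis hq.ne_zero).finrank,
        AdjoinRoot.powerBasis_dim hq.ne_zero, hK]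
    have hα : aeval α P = 0 := by
      apply aeval_eq_zero_of_dvd_aeval_eq_zero (hqg.trans (hfg ▸ dvd_mul_left g f))
      exact AdjoinRoot.eval₂_root q
    apply h9 L α hα
    have h1 := FiniteField.pow_card α
    rw [hcardL] at h1
    rcases (by omega : q.natDegree = 1 ∨ q.natDegree = 2) with h | h
    · rw [h] at h1
      calc α ^ 9 = (α ^ 3 ^ 1) ^ 3 := by ring
        _ = α := by rw [h1]; simpa using h1
    · rw [h] at h1; simpa using h1
  rw [expand_eq_comp_X_pow]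
  refine irreducible_comp hm (monic_X_pow _) hirr ?_
  intro E _ _ x hx
  have hint : IsIntegral K x := by
    rw [← minpoly.ne_zero_iff, hx]
    exact hm.ne_zero
  rw [Polynomial.map_pow, map_X]
  apply X_pow_sub_C_irreducible_of_prime_pow (by norm_num : Nat.Prime 11) (by norm_num)
  intro b hb
  have : FiniteDimensional K K⟮x⟯ := adjoin.finiteDimensional hint
  have : Finite K⟮x⟯ := Module.finite_of_finite K
  have : Fintype K⟮x⟯ := Fintype.ofFinite _
  have hcard : Fintype.card K⟮x⟯ = 243 := by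
    rw [Module.card_eq_pow_finrank (K := K), adjoin.finrank hint, hx, hd, hK]
    norm_num
  have hroot : aeval (AdjoinSimple.gen K x) P = 0 := by
    rw [← hx]; exact aeval_gen_minpoly K x
  have hb0 : b ≠ 0 := by
    rintro rfl
    rw [zero_pow (by norm_num)] at hb
    apply h9 _ _ hroot
    rw [← hb]; simp
  apply h22 _ _ hroot
  rw [← hb, ← pow_mul]
  have := FiniteField.pow_card_sub_one_eq_one b hb0
  rwa [hcard] at this

/-- first term -/
noncomputable def a3 (K : Type u) [Field K] : K[X] := X ^ 5 + X ^ 4 - X ^ 3 - X ^ 2 + 1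

/-- common difference -/
noncomputable def b3 (K : Type u) [Field K] : K[X] := -X ^ 4 + X ^ 3 + X ^ 2 - X

lemma base3 (K : Type u) [Field K] [Fintype K] (hK : Fintype.card K = 3) (k e : ℕ)
    (hk : k < 3) (he : e < 2) (j : ℕ) :
    Irreducible (expand K (11 ^ j) (a3 K + (k : K[X]) * b3 K + (e : K[X]))) := by
  have h30 : (3 : K) = 0 := by
    have := FiniteField.cast_card_eq_zero K
    rw [hK] at this
    exact_mod_cast this
  have hL : ∀ (L : Type u) [Field L] [Algebra K L], (3 : L) = 0 := by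
    intro L _ _
    have := congrArg (algebraMap K L) h30
    rwa [map_zero, map_ofNat] at this
  have hform : ∀ c : K[X], c = (k : K[X]) → (a3 K + c * b3 K + (e : K[X])).natDegree = 5 ∧
      (a3 K + c * b3 K + (e : K[X])).Monic := by
    intro c hc
    subst hc
    have : a3 K + (k : K[X]) * b3 K + (e : K[X]) = X ^ 5 + (C (1 - (k : K)) * X ^ 4 +
        C ((k : K) - 1) * X ^ 3 + C ((k : K) - 1) * X ^ 2 + C (-(k : K)) * X + C (1 + (e : K))) := by
      unfold a3 b3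
      simp only [C_sub, C_1, C_neg, C_add, map_natCast]
      ring
    have hdeg : (C (1 - (k : K)) * X ^ 4 + C ((k : K) - 1) * X ^ 3 + C ((k : K) - 1) * X ^ 2 +
        C (-(k : K)) * X + C (1 + (e : K)) : K[X]).degree < ((5 : ℕ) : WithBot ℕ) := by
      compute_degree!
    rw [this]
    refine ⟨?_, monic_X_pow_add hdeg⟩
    rw [natDegree_add_eq_left_of_degree_lt (by rw [degree_X_pow]; exact hdeg), natDegree_X_pow]
  obtain ⟨hd, hm⟩ := hform _ rfl
  apply irr3 K hK _ hm hd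
  · intro L _ _ α hα
    have h3 := hL L
    unfold a3 b3 at hα
    simp only [map_add, map_sub, map_mul, map_neg, map_pow, aeval_X, map_one, map_natCast] at hα
    interval_cases k <;> interval_cases e
    · exact (cert_0_0 h3 α (by linear_combination hα)).1
    · exact (cert_0_1 h3 α (by linear_combination hα)).1
    · exact (cert_1_0 h3 α (by linear_combination hα)).1
    · exact (cert_1_1 h3 α (by linear_combination hα)).1
    · exact (cert_2_0 h3 α (by linear_combination hα)).1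
    · exact (cert_2_1 h3 α (by linear_combination hα)).1
  · intro L _ _ α hα
    have h3 := hL L
    unfold a3 b3 at hα
    simp only [map_add, map_sub, map_mul, map_neg, map_pow, aeval_X, map_one, map_natCast] at hα
    interval_cases k <;> interval_cases e
    · exact (cert_0_0 h3 α (by linear_combination hα)).2
    · exact (cert_0_1 h3 α (by linear_combination hα)).2
    · exact (cert_1_0 h3 α (by linear_combination hα)).2
    · exact (cert_1_1 h3 α (by linear_combination hα)).2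
    · exact (cert_2_0 h3 α (by linear_combination hα)).2
    · exact (cert_2_1 h3 α (by linear_combination hα)).2

end Pool.Agent.H21
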